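import Pool.Agent.H73.GP.Def

/-!
[H73 GP BEB]  Bound for the covariant derivative.

Proof. `g z = √((1+|c|^2)^d) / (1 + conj c z)^d`, holomorphic and zero-free for `|z - c| ≤ 1/√d`
(`|1 + conj c z| ≥ 1 + |c|^2 - |c|/√2 > 0`). For `H = g G` (`G = P` or `Q`): `H'(c) = (1+|c|^2)^(-d/2) (G'(c) - d conj c/(1+|c|^2) G(c))`,
so `be d c G = (1+|c|^2) H'(c)/√d`. On the circle `|z - c| = 1/√d`: `|g z|^2 (|P z|^2+|Q z|^2) = nn z (1 - sg z c^2)^(-d)`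
(`one_sub_sg_sq`) `≤ B (1 - 1/d)^(-d) ≤ 4 B` (`(1 - 1/d)^d ≥ 1/4` for `d ≥ 2`). Cauchy estimate: `|H'(c)|^2 ≤ 4 B d` for each of the two, so
`mm ≤ (1+|c|^2)^2 * 8 B ≤ 40 B` (`|c| ≤ 11/10`).
-/

set_option autoImplicit false

open Polynomial ComplexConjugate

namespace Pool.Agent.H73.GP

open Pool.Agent.H85.LD (Nd wm sg ph Gc en)

private theorem beb_one_sub {d : ℕ} (hd : 2 ≤ d) : 1 / 4 ≤ (1 - 1 / (d : ℝ)) ^ d := by
  have hmono : ∀ n : ℕ, 2 ≤ n → (1 / 4 : ℝ) ≤ (1 - 1 / (n : ℝ)) ^ n := by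
    intro n hn
    induction n, hn using Nat.le_induction with
    | base => norm_num
    | succ n hn ih =>
      refine ih.trans ?_
      have hn0 : (0 : ℝ) < n := by
        have : 0 < n := by omega
        exact_mod_cast this
      have hn1 : (1 : ℝ) < n := by exact_mod_cast hn
      have h1 : (0 : ℝ) < 1 - 1 / n := by
        rw [sub_pos, div_lt_one hn0]
        exact hn1
      have e : (1 - 1 / ((n + 1 : ℕ) : ℝ)) = (1 - 1 / (n : ℝ)) * (1 + 1 / ((n : ℝ) ^ 2 - 1)) := by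
        push_cast
        have h2 : (n : ℝ) ^ 2 - 1 ≠ 0 := by nlinarith
        have h3 : (n : ℝ) + 1 ≠ 0 := by positivity
        have h4 : (n : ℝ) - 1 ≠ 0 := by linarith
        have h5 : (n : ℝ) ^ 2 - 1 = (n - 1) * (n + 1) := by ring
        rw [h5]
        field_simp
        ring
      rw [e, mul_pow, pow_succ]
      have h2 : (0 : ℝ) < (n : ℝ) ^ 2 - 1 := by nlinarith
      have h3 : (1 : ℝ) + ((n + 1 : ℕ) : ℝ) * (1 / ((n : ℝ) ^ 2 - 1)) ≤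
          (1 + 1 / ((n : ℝ) ^ 2 - 1)) ^ (n + 1) :=
        one_add_mul_le_pow (by have : 0 < 1 / ((n : ℝ) ^ 2 - 1) := by positivity
                               linarith) (n + 1)
      have h4 : 1 ≤ (1 - 1 / (n : ℝ)) * (1 + 1 / ((n : ℝ) ^ 2 - 1)) ^ (n + 1) := by
        refine le_trans ?_ (mul_le_mul_of_nonneg_left h3 h1.le)
        push_cast
        rw [← sub_nonneg]
        have h5 : (1 - 1 / (n : ℝ)) * (1 + ((n : ℝ) + 1) * (1 / ((n : ℝ) ^ 2 - 1))) - 1 = 0 := by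
          have h6 : (n : ℝ) ^ 2 - 1 ≠ 0 := h2.ne'
          have h8 : (n : ℝ) - 1 ≠ 0 := by linarith
          have h9 : (n : ℝ) + 1 ≠ 0 := by positivity
          have h10 : (n : ℝ) ^ 2 - 1 = (n - 1) * (n + 1) := by ring
          rw [h10]
          field_simp
          ring
        rw [h5]
      calc (1 - 1 / (n : ℝ)) ^ n = (1 - 1 / (n : ℝ)) ^ n * 1 := (mul_one _).symm
        _ ≤ (1 - 1 / (n : ℝ)) ^ n * ((1 - 1 / (n : ℝ)) * (1 + 1 / ((n : ℝ) ^ 2 - 1)) ^ (n + 1)) :=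
            mul_le_mul_of_nonneg_left h4 (by positivity)
        _ = (1 - 1 / (n : ℝ)) ^ n * (1 - 1 / (n : ℝ)) * (1 + 1 / ((n : ℝ) ^ 2 - 1)) ^ (n + 1) := by
            ring
  exact hmono d hd

/-- non-vanishing of the frame -/
private theorem beb_ne {d : ℕ} (hd : 2 ≤ d) {c z : ℂ} (hz : ‖z - c‖ ≤ 1 / √d) :
    1 + conj c * z ≠ 0 := by
  intro h0
  have hd' : (2 : ℝ) ≤ d := by exact_mod_cast hd
  have h1 : ((1 + ‖c‖ ^ 2 : ℝ) : ℂ) = -(conj c * (z - c)) := by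
    have h2 : conj c * c = ((‖c‖ ^ 2 : ℝ) : ℂ) := by
      rw [mul_comm, Complex.mul_conj, Complex.normSq_eq_norm_sq]
    rw [mul_sub, h2]
    push_cast
    linear_combination h0
  have h2 : 1 + ‖c‖ ^ 2 = ‖c‖ * ‖z - c‖ := by
    have h3 := congrArg norm h1
    rw [Complex.norm_real, Real.norm_of_nonneg (by positivity), norm_neg, norm_mul,
      Complex.norm_conj] at h3
    exact h3
  have h3 : 1 / √d ≤ 1 := by
    rw [div_le_one (by positivity)]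
    rw [show (1 : ℝ) = √1 by rw [Real.sqrt_one]]
    exact Real.sqrt_le_sqrt (by linarith)
  have h4 : ‖c‖ * ‖z - c‖ ≤ ‖c‖ * 1 := mul_le_mul_of_nonneg_left (hz.trans h3) (norm_nonneg c)
  nlinarith [sq_nonneg (‖c‖ - 1)]

/-- one polynomial: the Cauchy estimate -/
private theorem beb_one {d : ℕ} (hd : 2 ≤ d) (G : ℂ[X]) {c : ℂ} (hc : ‖c‖ ≤ 11 / 10) {B : ℝ}
    (hB0 : 0 ≤ B)
    (hB : ∀ z : ℂ, ‖z - c‖ ≤ 1 / √d → ‖G.eval z‖ ^ 2 / (1 + ‖z‖ ^ 2) ^ d ≤ B) :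
    ‖be d c G‖ ^ 2 ≤ 20 * B := by
  have hd' : (2 : ℝ) ≤ d := by exact_mod_cast hd
  have hdpos : (0 : ℝ) < d := by linarith
  have hR : 0 < 1 / √(d : ℝ) := by positivity
  obtain ⟨H, hH⟩ : ∃ H : ℂ → ℂ, H = fun z => ((√((1 + ‖c‖ ^ 2) ^ d) : ℝ) : ℂ) /
    (1 + conj c * z) ^ d * G.eval z := ⟨_, rfl⟩
  have hdiff : ∀ z : ℂ, ‖z - c‖ ≤ 1 / √d → HasDerivAt H
      ((((√((1 + ‖c‖ ^ 2) ^ d) : ℝ) : ℂ) / (1 + conj c * z) ^ d) *
        ((derivative G).eval z - d * conj c / (1 + conj c * z) * G.eval z)) z := by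
    intro z hz
    have hne := beb_ne hd hz
    have h1 : HasDerivAt (fun z : ℂ => 1 + conj c * z) (conj c) z := by
      simpa using ((hasDerivAt_id z).const_mul (conj c)).const_add 1
    have h2 : HasDerivAt (fun z : ℂ => (1 + conj c * z) ^ d)
        (d * (1 + conj c * z) ^ (d - 1) * conj c) z := h1.pow d
    have h3 := ((hasDerivAt_const z ((√((1 + ‖c‖ ^ 2) ^ d) : ℝ) : ℂ)).div h2
      (pow_ne_zero d hne)).mul (G.hasDerivAt z)
    rw [hH]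
    refine h3.congr_deriv ?_
    obtain ⟨k, hk⟩ : ∃ k, d = k + 1 := ⟨d - 1, by omega⟩
    have e : (1 + conj c * z) ^ d = (1 + conj c * z) ^ (d - 1) * (1 + conj c * z) := by
      rw [hk, Nat.add_sub_cancel, pow_succ]
    have hne2 : (1 + conj c * z) ^ (d - 1) ≠ 0 := pow_ne_zero _ hne
    simp only [Pi.div_apply]
    rw [e]
    generalize (1 + conj c * z) ^ (d - 1) = Y at hne2 ⊢
    generalize (1 + conj c * z) = X at hne ⊢
    field_simp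
    ring
  have hcont : DiffContOnCl ℂ H (Metric.ball c (1 / √(d : ℝ))) := by
    refine DifferentiableOn.diffContOnCl_ball (U := Metric.closedBall c (1 / √(d : ℝ))) ?_
      subset_rfl
    intro z hz
    have hz' : ‖z - c‖ ≤ 1 / √(d : ℝ) := by
      rw [← dist_eq_norm]
      exact Metric.mem_closedBall.1 hz
    exact (hdiff z hz').differentiableAt.differentiableWithinAt
  have hsq : ∀ z : ℂ, ‖z - c‖ ≤ 1 / √d → ‖H z‖ ^ 2 ≤ 4 * B := by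
    intro z hz
    have h1 := Pool.Agent.H85.LD.one_sub_sg_sq z c
    have hP1 : 0 < (1 + ‖z‖ ^ 2) * (1 + ‖c‖ ^ 2) := by positivity
    have h2 : ‖1 + conj c * z‖ ^ 2 = (1 - sg z c ^ 2) * ((1 + ‖z‖ ^ 2) * (1 + ‖c‖ ^ 2)) := by
      rw [h1, div_mul_cancel₀ _ hP1.ne', mul_comm z]
    have h3 : sg z c ^ 2 ≤ 1 / (d : ℝ) := by
      rw [Pool.Agent.H85.LD.sg_sq]
      have h4 : ‖z - c‖ ^ 2 ≤ 1 / (d : ℝ) := by
        calc ‖z - c‖ ^ 2 ≤ (1 / √(d : ℝ)) ^ 2 := by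
              exact pow_le_pow_left₀ (norm_nonneg _) hz 2
          _ = 1 / (d : ℝ) := by rw [div_pow, one_pow, Real.sq_sqrt hdpos.le]
      refine le_trans (div_le_self (sq_nonneg _) ?_) h4
      nlinarith [sq_nonneg ‖z‖, sq_nonneg ‖c‖, mul_nonneg (sq_nonneg ‖z‖) (sq_nonneg ‖c‖)]
    have h5 : 0 < 1 - 1 / (d : ℝ) := by
      rw [sub_pos, div_lt_one hdpos]
      linarith
    have h6 : 1 - 1 / (d : ℝ) ≤ 1 - sg z c ^ 2 := by linarith
    have h7 : ‖H z‖ ^ 2 = ‖G.eval z‖ ^ 2 / (1 + ‖z‖ ^ 2) ^ d / (1 - sg z c ^ 2) ^ d := by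
      rw [hH]
      simp only
      rw [norm_mul, norm_div, norm_pow, Complex.norm_real, Real.norm_of_nonneg (Real.sqrt_nonneg _),
        mul_pow, div_pow, Real.sq_sqrt (by positivity), ← pow_mul, mul_comm d 2, pow_mul, h2,
        mul_pow, mul_pow]
      have p1 : (1 + ‖c‖ ^ 2) ^ d ≠ 0 := by positivity
      have p2 : (1 + ‖z‖ ^ 2) ^ d ≠ 0 := by positivity
      have p3 : (1 - sg z c ^ 2) ^ d ≠ 0 := pow_ne_zero _ (by linarith)
      field_simp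
    rw [h7]
    have h8 : 1 / 4 ≤ (1 - sg z c ^ 2) ^ d :=
      (beb_one_sub hd).trans (pow_le_pow_left₀ h5.le h6 d)
    rw [div_le_iff₀ (by linarith)]
    have h9 := hB z hz
    nlinarith
  have hsph : ∀ z ∈ Metric.sphere c (1 / √(d : ℝ)), ‖H z‖ ≤ √(4 * B) := by
    intro z hz
    apply Real.le_sqrt_of_sq_le
    apply hsq
    rw [← dist_eq_norm]
    exact (Metric.mem_sphere.1 hz).le
  have hcau := Complex.norm_deriv_le_of_forall_mem_sphere_norm_le hR hcont hsph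
  rw [(hdiff c (by rw [sub_self, norm_zero]; exact hR.le)).deriv] at hcau
  have hcc : 1 + conj c * c = ((1 + ‖c‖ ^ 2 : ℝ) : ℂ) := by
    rw [mul_comm, Complex.mul_conj, Complex.normSq_eq_norm_sq]
    push_cast
    ring
  have hS : 0 < (1 + ‖c‖ ^ 2) ^ d := by positivity
  have hbe : ‖be d c G‖ = (1 + ‖c‖ ^ 2) / √d *
      ‖(((√((1 + ‖c‖ ^ 2) ^ d) : ℝ) : ℂ) / (1 + conj c * c) ^ d) *
        ((derivative G).eval c - d * conj c / (1 + conj c * c) * G.eval c)‖ := by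
    have e : be d c G = (((1 + ‖c‖ ^ 2) / √d : ℝ) : ℂ) *
        ((((√((1 + ‖c‖ ^ 2) ^ d) : ℝ) : ℂ) / (1 + conj c * c) ^ d) *
        ((derivative G).eval c - d * conj c / (1 + conj c * c) * G.eval c)) := by
      rw [hcc]
      unfold be
      have h1 : (((1 + ‖c‖ ^ 2 : ℝ) : ℂ)) ^ d =
          ((√((1 + ‖c‖ ^ 2) ^ d) : ℝ) : ℂ) * ((√((1 + ‖c‖ ^ 2) ^ d) : ℝ) : ℂ) := by
        rw [← Complex.ofReal_mul, Real.mul_self_sqrt hS.le, Complex.ofReal_pow]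
      rw [h1]
      have n1 : ((√((1 + ‖c‖ ^ 2) ^ d) : ℝ) : ℂ) ≠ 0 := by
        exact_mod_cast (Real.sqrt_pos.2 hS).ne'
      have n2 : ((√(d : ℝ) : ℝ) : ℂ) ≠ 0 := by
        exact_mod_cast (Real.sqrt_pos.2 hdpos).ne'
      have n3 : (((1 + ‖c‖ ^ 2 : ℝ) : ℂ)) ≠ 0 := by
        exact_mod_cast (by positivity : (1 + ‖c‖ ^ 2 : ℝ) ≠ 0)
      rw [Complex.ofReal_div, Complex.ofReal_div, Complex.ofReal_mul, Complex.ofReal_one]
      field_simp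
    rw [e, norm_mul, Complex.norm_real, Real.norm_of_nonneg (by positivity)]
  obtain ⟨D, hD⟩ : ∃ D, D = ‖(((√((1 + ‖c‖ ^ 2) ^ d) : ℝ) : ℂ) / (1 + conj c * c) ^ d) *
        ((derivative G).eval c - d * conj c / (1 + conj c * c) * G.eval c)‖ := ⟨_, rfl⟩
  rw [← hD] at hbe hcau
  have hD0 : 0 ≤ D := by rw [hD]; exact norm_nonneg _
  have h1 : D ^ 2 ≤ 4 * B * d := by
    have h2 : √(4 * B) / (1 / √(d : ℝ)) = √(4 * B) * √d := by
      rw [div_div_eq_mul_div, div_one]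
    rw [h2] at hcau
    calc D ^ 2 ≤ (√(4 * B) * √d) ^ 2 := pow_le_pow_left₀ hD0 hcau 2
      _ = 4 * B * d := by rw [mul_pow, Real.sq_sqrt (by linarith), Real.sq_sqrt hdpos.le]
  rw [hbe, mul_pow, div_pow, Real.sq_sqrt hdpos.le]
  have hc2 : ‖c‖ ^ 2 ≤ 121 / 100 := by nlinarith [norm_nonneg c]
  have h3 : (1 + ‖c‖ ^ 2) ^ 2 ≤ 5 := by nlinarith [sq_nonneg ‖c‖]
  calc (1 + ‖c‖ ^ 2) ^ 2 / d * D ^ 2 ≤ (1 + ‖c‖ ^ 2) ^ 2 / d * (4 * B * d) :=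
        mul_le_mul_of_nonneg_left h1 (by positivity)
    _ = (1 + ‖c‖ ^ 2) ^ 2 * (4 * B) := by field_simp
    _ ≤ 5 * (4 * B) := mul_le_mul_of_nonneg_right h3 (by linarith)
    _ = 20 * B := by ring

theorem beb {d : ℕ} (hd : 2 ≤ d) {P Q : ℂ[X]} {c : ℂ} (hc : ‖c‖ ≤ 11 / 10) {B : ℝ}
    (hB : ∀ z : ℂ, ‖z - c‖ ≤ 1 / √d → nn d P Q z ≤ B) : mm d P Q c ≤ 40 * B := by
  have hB0 : 0 ≤ B := by
    refine (nn_nonneg d P Q c).trans (hB c ?_)
    rw [sub_self, norm_zero]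
    positivity
  have hP : ∀ z : ℂ, ‖z - c‖ ≤ 1 / √d → ‖P.eval z‖ ^ 2 / (1 + ‖z‖ ^ 2) ^ d ≤ B := by
    intro z hz
    refine le_trans ?_ (hB z hz)
    unfold nn
    gcongr
    nlinarith [sq_nonneg ‖Q.eval z‖]
  have hQ : ∀ z : ℂ, ‖z - c‖ ≤ 1 / √d → ‖Q.eval z‖ ^ 2 / (1 + ‖z‖ ^ 2) ^ d ≤ B := by
    intro z hz
    refine le_trans ?_ (hB z hz)
    unfold nn
    gcongr
    nlinarith [sq_nonneg ‖P.eval z‖]
  have h1 := beb_one hd P hc hB0 hP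
  have h2 := beb_one hd Q hc hB0 hQ
  unfold mm
  linarith

end Pool.Agent.H73.GP
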