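import Pool.Agent.H73.GP.Def

/-!
[H73 GP BES]  Bessel inequality for separated kernels.

Write `⟨A, B⟩ = ∑_{k ≤ d} A_k conj (B_k) / choose(d,k)`, so `Nd d A = ⟨A, A⟩`. For `e_x = en d x 0`
(`= (1+|x|^2)^(-d/2) (1 + conj x X)^d`, coefficients `(1+|x|^2)^(-d/2) choose(d,k) (conj x)^k`): `⟨G, e_x⟩ = al d x G`,
`⟨e_y, e_x⟩ = al d x e_y`, of modulus `wm d (en d y 0) x = √((1 - sg x y ^ 2)^d)` (`en_wm`, `n = 0`) `≤ 1 / card S` for `x ≠ y` in `S`.
Let `b_x = al d x G`, `T = ∑_{x ∈ S} b_x e_x`. Then `⟨G, T⟩ = ∑ conj(b_x) ⟨G, e_x⟩ = ∑ |b_x|^2 =: A`, and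
`Nd d T = ∑_{x,y} b_x conj(b_y) ⟨e_x, e_y⟩ ≤ ∑ |b_x|^2 + (1/card S) (∑ |b_x|)^2 ≤ 2 A`. Cauchy-Schwarz
(`Finset.sum_mul_sq_le_sq_mul_sq` for the sum of norms) `A^2 ≤ Nd d G * Nd d T ≤ 2 A Nd d G`, hence `A ≤ 2 Nd d G`.
-/

set_option autoImplicit false

open Polynomial ComplexConjugate

namespace Pool.Agent.H73.GP

open Pool.Agent.H85.LD (Nd wm sg ph Gc en)

private theorem bes_self {E : Type*} [NormedAddCommGroup E] [InnerProductSpace ℂ E] (x : E) :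
    ‖inner ℂ x x‖ = ‖x‖ ^ 2 := by
  rw [inner_self_eq_norm_sq_to_K, norm_pow, RCLike.norm_ofReal, abs_norm]

private theorem bes_abs {E ι : Type*} [NormedAddCommGroup E] [InnerProductSpace ℂ E]
    (S : Finset ι) (u : ι → E) (h1 : ∀ x ∈ S, ‖u x‖ ^ 2 ≤ 1)
    (h2 : ∀ x ∈ S, ∀ y ∈ S, x ≠ y → ‖inner ℂ (u x) (u y)‖ ≤ 1 / (S.card : ℝ)) (g : E) :
    ∑ x ∈ S, ‖inner ℂ (u x) g‖ ^ 2 ≤ 2 * ‖g‖ ^ 2 := by
  classical
  set b : ι → ℂ := fun x => inner ℂ (u x) g with hb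
  set T : E := ∑ x ∈ S, b x • u x with hT
  set A : ℝ := ∑ x ∈ S, ‖b x‖ ^ 2 with hA
  have hA0 : 0 ≤ A := Finset.sum_nonneg fun x _ => by positivity
  have e1 : inner ℂ T g = (A : ℂ) := by
    rw [hT, sum_inner, hA, Complex.ofReal_sum]
    refine Finset.sum_congr rfl fun x _ => ?_
    rw [inner_smul_left]
    show conj (b x) * b x = _
    rw [Complex.conj_mul']
    push_cast
    rfl
  have e2 : A ≤ ‖T‖ * ‖g‖ := by
    have h3 := norm_inner_le_norm (𝕜 := ℂ) T g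
    rwa [e1, Complex.norm_real, Real.norm_of_nonneg hA0] at h3
  have e3 : ‖T‖ ^ 2 ≤ 2 * A := by
    have h4 : ‖T‖ ^ 2 = ‖inner ℂ T T‖ := (bes_self T).symm
    have h5 : inner ℂ T T = ∑ x ∈ S, ∑ y ∈ S, conj (b x) * (b y * inner ℂ (u x) (u y)) := by
      conv_lhs => rw [hT, sum_inner]
      refine Finset.sum_congr rfl fun x _ => ?_
      rw [inner_smul_left, inner_sum, Finset.mul_sum]
      refine Finset.sum_congr rfl fun y _ => ?_
      rw [inner_smul_right]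
    rw [h4, h5]
    calc ‖∑ x ∈ S, ∑ y ∈ S, conj (b x) * (b y * inner ℂ (u x) (u y))‖
        ≤ ∑ x ∈ S, ∑ y ∈ S, ‖conj (b x) * (b y * inner ℂ (u x) (u y))‖ :=
          (norm_sum_le _ _).trans (Finset.sum_le_sum fun x _ => norm_sum_le _ _)
      _ ≤ ∑ x ∈ S, ∑ y ∈ S, ((if x = y then ‖b x‖ ^ 2 else 0) +
            (1 / (S.card : ℝ)) * (‖b x‖ * ‖b y‖)) := by
          refine Finset.sum_le_sum fun x hx => Finset.sum_le_sum fun y hy => ?_
          rw [norm_mul, norm_mul, Complex.norm_conj]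
          have h6 : 0 ≤ ‖b x‖ * ‖b y‖ := by positivity
          by_cases hxy : x = y
          · subst hxy
            rw [if_pos rfl]
            have h7 : ‖inner ℂ (u x) (u x)‖ ≤ 1 := by
              rw [bes_self]
              exact h1 x hx
            have h8 : ‖b x‖ * (‖b x‖ * ‖inner ℂ (u x) (u x)‖) ≤ ‖b x‖ ^ 2 := by
              rw [← mul_assoc, ← sq]
              exact mul_le_of_le_one_right (by positivity) h7
            have h9 : 0 ≤ (1 / (S.card : ℝ)) * (‖b x‖ * ‖b x‖) := by positivity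
            linarith
          · rw [if_neg hxy, zero_add, ← mul_assoc, mul_comm]
            exact mul_le_mul_of_nonneg_right (h2 x hx y hy hxy) h6
      _ = A + (1 / (S.card : ℝ)) * (∑ x ∈ S, ‖b x‖) ^ 2 := by
          simp only [Finset.sum_add_distrib]
          congr 1
          · rw [hA]
            refine Finset.sum_congr rfl fun x hx => ?_
            rw [Finset.sum_ite_eq, if_pos hx]
          · rw [sq, Finset.sum_mul_sum, Finset.mul_sum]
            refine Finset.sum_congr rfl fun x _ => ?_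
            rw [Finset.mul_sum]
      _ ≤ A + A := by
          refine add_le_add (le_refl _) ?_
          have h10 := sq_sum_le_card_mul_sum_sq (s := S) (f := fun x => ‖b x‖)
          rcases S.eq_empty_or_nonempty with h0 | h0
          · rw [h0]
            simp only [Finset.sum_empty]
            rw [zero_pow (by norm_num), mul_zero]
            exact hA0
          · have h11 : (0 : ℝ) < S.card := by exact_mod_cast h0.card_pos
            rw [one_div, inv_mul_le_iff₀ h11]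
            exact h10
      _ = 2 * A := by ring
  nlinarith [sq_nonneg (‖T‖ - 2 * ‖g‖)]

private theorem bes_inv (d : ℕ) (x : ℂ) : (1 / √((1 + ‖x‖ ^ 2) ^ d)) ^ 2 =
    1 / (1 + ‖x‖ ^ 2) ^ d := by
  rw [div_pow, one_pow, Real.sq_sqrt (by positivity)]

theorem bessel (d : ℕ) (S : Finset ℂ) (hS : ∀ x ∈ S, ∀ y ∈ S, x ≠ y → (1 - sg x y ^ 2) ^ d ≤ 1 / (S.card : ℝ) ^ 2)
    {G : ℂ[X]} (hG : G.natDegree ≤ d) : ∑ x ∈ S, ‖al d x G‖ ^ 2 ≤ 2 * Nd d G := by
  classical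
  have hch : ∀ k : Fin (d + 1), (0 : ℝ) < (d.choose k : ℝ) := fun k => by
    exact_mod_cast Nat.choose_pos (Nat.lt_succ_iff.1 k.2)
  set g : EuclideanSpace ℂ (Fin (d + 1)) :=
    WithLp.toLp 2 fun k => G.coeff k * ((1 / √(d.choose k : ℝ) : ℝ) : ℂ) with hg
  set u : ℂ → EuclideanSpace ℂ (Fin (d + 1)) := fun x =>
    WithLp.toLp 2 fun k => ((1 / √((1 + ‖x‖ ^ 2) ^ d) : ℝ) : ℂ) *
      (((√(d.choose k : ℝ) : ℝ) : ℂ) * conj x ^ (k : ℕ)) with hu
  have e1 : ‖g‖ ^ 2 = Nd d G := by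
    rw [EuclideanSpace.norm_sq_eq, Nd, Finset.sum_range]
    refine Finset.sum_congr rfl fun k _ => ?_
    show ‖G.coeff k * ((1 / √(d.choose k : ℝ) : ℝ) : ℂ)‖ ^ 2 = _
    rw [norm_mul, Complex.norm_real, Real.norm_of_nonneg (by positivity), mul_pow, div_pow,
      one_pow, Real.sq_sqrt (hch k).le, mul_one_div]
  have e2 : ∀ x, inner ℂ (u x) g = al d x G := by
    intro x
    rw [PiLp.inner_apply, al, eval_eq_sum_range' (Nat.lt_succ_of_le hG), Finset.mul_sum,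
      Finset.sum_range]
    refine Finset.sum_congr rfl fun k _ => ?_
    show G.coeff k * ((1 / √(d.choose k : ℝ) : ℝ) : ℂ) *
      conj (((1 / √((1 + ‖x‖ ^ 2) ^ d) : ℝ) : ℂ) *
        (((√(d.choose k : ℝ) : ℝ) : ℂ) * conj x ^ (k : ℕ))) = _
    rw [map_mul, map_mul, map_pow, Complex.conj_ofReal, Complex.conj_ofReal, Complex.conj_conj]
    have h3 : ((1 / √(d.choose k : ℝ) : ℝ) : ℂ) * ((√(d.choose k : ℝ) : ℝ) : ℂ) = 1 := by
      rw [← Complex.ofReal_mul, one_div, inv_mul_cancel₀ (Real.sqrt_pos.2 (hch k)).ne',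
        Complex.ofReal_one]
    linear_combination (G.coeff k * ((1 / √((1 + ‖x‖ ^ 2) ^ d) : ℝ) : ℂ) * x ^ (k : ℕ)) * h3
  have e3 : ∀ x y, inner ℂ (u x) (u y) = ((1 / √((1 + ‖x‖ ^ 2) ^ d) : ℝ) : ℂ) *
      ((1 / √((1 + ‖y‖ ^ 2) ^ d) : ℝ) : ℂ) * (1 + x * conj y) ^ d := by
    intro x y
    rw [PiLp.inner_apply, add_comm (1 : ℂ), add_pow (x * conj y) 1 d, Finset.mul_sum, Finset.sum_range]
    refine Finset.sum_congr rfl fun k _ => ?_
    show ((1 / √((1 + ‖y‖ ^ 2) ^ d) : ℝ) : ℂ) *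
        (((√(d.choose k : ℝ) : ℝ) : ℂ) * conj y ^ (k : ℕ)) *
      conj (((1 / √((1 + ‖x‖ ^ 2) ^ d) : ℝ) : ℂ) *
        (((√(d.choose k : ℝ) : ℝ) : ℂ) * conj x ^ (k : ℕ))) = _
    rw [map_mul, map_mul, map_pow, Complex.conj_ofReal, Complex.conj_ofReal, Complex.conj_conj]
    have h3 : ((√(d.choose k : ℝ) : ℝ) : ℂ) * ((√(d.choose k : ℝ) : ℝ) : ℂ) =
        (d.choose k : ℂ) := by
      rw [← Complex.ofReal_mul, Real.mul_self_sqrt (hch k).le]
      norm_cast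
    rw [one_pow, mul_one, mul_pow]
    linear_combination (((1 / √((1 + ‖x‖ ^ 2) ^ d) : ℝ) : ℂ) *
      ((1 / √((1 + ‖y‖ ^ 2) ^ d) : ℝ) : ℂ) * x ^ (k : ℕ) * conj y ^ (k : ℕ)) * h3
  have e4 : ∀ x y, ‖inner ℂ (u x) (u y)‖ ^ 2 = (1 - sg x y ^ 2) ^ d := by
    intro x y
    rw [e3, norm_mul, norm_mul, Complex.norm_real, Complex.norm_real, norm_pow,
      Real.norm_of_nonneg (by positivity), Real.norm_of_nonneg (by positivity), mul_pow, mul_pow,
      bes_inv, bes_inv, Pool.Agent.H85.LD.one_sub_sg_sq, div_pow, mul_pow]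
    rw [div_mul_div_comm, one_mul, ← pow_mul, ← pow_mul, mul_comm d 2, one_div_mul_eq_div]
  have e5 : ∀ x, ‖u x‖ ^ 2 ≤ 1 := by
    intro x
    have h6 := e4 x x
    rw [Pool.Agent.H85.LD.sg_self, zero_pow (by norm_num), sub_zero, one_pow,
      bes_self] at h6
    nlinarith [sq_nonneg (‖u x‖ ^ 2 - 1), sq_nonneg ‖u x‖]
  have h := bes_abs S u (fun x _ => e5 x) (fun x hx y hy hxy => ?_) g
  · rw [e1] at h
    simpa only [e2] using h
  · have h8 := hS x hx y hy hxy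
    rw [← e4 x y, show 1 / (S.card : ℝ) ^ 2 = (1 / (S.card : ℝ)) ^ 2 by
      rw [div_pow, one_pow]] at h8
    exact le_of_sq_le_sq h8 (by positivity)

end Pool.Agent.H73.GP
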