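import Pool.Agent.H73.GP.Rot

/-!
[H73 GP BMP]  Interpolation: value and derivative at `c`, value at `w`.

Proofs.
* `al_en0`, `al_en1`, `be_en0`, `be_en1`: `en_eval`; derivatives of `(X - C c)^n (1 + C (conj c) X)^(d-n)` at `c`
  (`1 + conj c * c = 1 + |c|^2`): `al d c (en d c 0) = 1`, `be d c (en d c 0) = 0`, `al d c (en d c 1) = 0`,
  `be d c (en d c 1) = 1/√d`.
* `dbl`: the polynomial `T = (X - C c)^2 (1 + C (conj w) X)^(d-2)`: `Nd d T ≤ 4 (1+|c|^2)^2 (1+|w|^2)^(d-2)`: for `H` of degree `≤ m`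
  `Nd (m+1) (X * H) ≤ Nd m H` and `Nd (m+1) H ≤ Nd m H` (`choose (m+1) (k+1) ≥ choose m k`, `choose (m+1) k ≥ choose m k`, `k ≤ m`),
  so `Nd (m+1) ((X - C c) * H) ≤ 2 (1+|c|^2) Nd m H`; `Nd m ((1 + C (conj w) X)^m) = (1+|w|^2)^m` (binomial theorem).
* `bmp`: `G0 = C a * en d c 0 + C (√d b) * en d c 1`: `Nd d G0 ≤ 2 |a|^2 + 2 |b|^2` (`Nd_en`, `Nd (A+B) ≤ 2 Nd A + 2 Nd B`).
  `|al d w G0| = wm d G0 w ≤ |a| √((1-s^2)^d) + √d |b| s √((1-s^2)^(d-1))` (`en_wm`), `s = sg w c`, so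
  `|al d w G0|^2 ≤ 2 d (|a|^2+|b|^2) (1-s^2)^(d-1) ≤ 2 d (|a|^2+|b|^2)(1-σ^2)^(d-1)`. Add `C κ * T` with `κ` such that the value at `w` is
  right: `al` and `be` at `c` of `T` vanish, `|al d w T| = |w-c|^2 (1+|w|^2)^(d-2)/(1+|w|^2)^(d/2)`, so
  `Nd d (C κ * T) ≤ 4 |ω - al d w G0|^2 (1+|c|^2)^2 (1+|w|^2)^2/|w-c|^4 = 4 |ω - al d w G0|^2/s^4` (`sg_sq`). Total
  `Nd ≤ 4 (|a|^2+|b|^2) + (8/σ^4)(2 |ω|^2 + 4 d (|a|^2+|b|^2)(1-σ^2)^(d-1)) ≤ 5 (|a|^2+|b|^2) + 16 |ω|^2/σ^4`.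
-/

set_option autoImplicit false

open Polynomial ComplexConjugate

namespace Pool.Agent.H73.GP

open Pool.Agent.H85.LD (Nd wm sg ph Gc en)

private theorem bm_cc (c : ℂ) : (1 + conj c * c : ℂ) = ((1 + ‖c‖ ^ 2 : ℝ) : ℂ) := by
  rw [Complex.conj_mul']
  push_cast
  ring

private theorem bm_kk (d : ℕ) (c : ℂ) : ((1 / √((1 + ‖c‖ ^ 2) ^ d) : ℝ) : ℂ) *
    (((1 / √((1 + ‖c‖ ^ 2) ^ d) : ℝ) : ℂ) * ((1 + ‖c‖ ^ 2 : ℝ) : ℂ) ^ d) = 1 := by
  rw [← Complex.ofReal_pow, ← Complex.ofReal_mul, ← Complex.ofReal_mul, ← mul_assoc,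
    div_mul_div_comm, one_mul, Real.mul_self_sqrt (by positivity)]
  have : (0 : ℝ) < (1 + ‖c‖ ^ 2) ^ d := by positivity
  rw [div_mul_cancel₀ _ this.ne', Complex.ofReal_one]

theorem al_en0 (d : ℕ) (c : ℂ) : al d c (en d c 0) = 1 := by
  unfold al
  rw [Pool.Agent.H85.LD.en_eval, pow_zero, one_mul, Nat.sub_zero, bm_cc, bm_kk]

theorem be_en0 (d : ℕ) (c : ℂ) : be d c (en d c 0) = 0 := by
  unfold be
  have hder : (derivative (en d c 0)).eval c = ((1 / √((1 + ‖c‖ ^ 2) ^ d) : ℝ) : ℂ) *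
      (d * ((1 + ‖c‖ ^ 2 : ℝ) : ℂ) ^ (d - 1) * conj c) := by
    unfold Pool.Agent.H85.LD.en
    rw [derivative_C_mul, eval_mul, eval_C, pow_zero, one_mul, Nat.sub_zero, derivative_pow]
    congr 1
    simp only [eval_mul, eval_pow, eval_add, eval_one, eval_C, eval_X, derivative_add,
      derivative_one, derivative_C_mul, derivative_X, zero_add, mul_one, map_natCast, eval_natCast]
    rw [bm_cc]
  rw [hder, Pool.Agent.H85.LD.en_eval, pow_zero, one_mul, Nat.sub_zero, bm_cc]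
  rcases Nat.eq_zero_or_pos d with h0 | h0
  · subst h0
    simp
  · obtain ⟨n, rfl⟩ : ∃ n, d = n + 1 := ⟨d - 1, by omega⟩
    rw [Nat.add_sub_cancel, pow_succ ((1 + ‖c‖ ^ 2 : ℝ) : ℂ) n]
    ring

theorem al_en1 (d : ℕ) (c : ℂ) : al d c (en d c 1) = 0 := by
  unfold al
  rw [Pool.Agent.H85.LD.en_eval, sub_self, pow_one, zero_mul, mul_zero, mul_zero]

theorem be_en1 {d : ℕ} (hd : 1 ≤ d) (c : ℂ) : be d c (en d c 1) = ((1 / √d : ℝ) : ℂ) := by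
  unfold be
  have hder : (derivative (en d c 1)).eval c = ((1 / √((1 + ‖c‖ ^ 2) ^ d) : ℝ) : ℂ) *
      ((1 + ‖c‖ ^ 2 : ℝ) : ℂ) ^ (d - 1) := by
    unfold Pool.Agent.H85.LD.en
    rw [derivative_C_mul, eval_mul, eval_C, pow_one, derivative_mul]
    congr 1
    simp only [eval_mul, eval_pow, eval_add, eval_one, eval_C, eval_X, derivative_sub,
      derivative_C, derivative_X, sub_zero, one_mul, eval_sub, sub_self, zero_mul, add_zero]
    rw [bm_cc]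
  rw [hder, Pool.Agent.H85.LD.en_eval, sub_self, pow_one, zero_mul, mul_zero, mul_zero, sub_zero]
  obtain ⟨n, rfl⟩ : ∃ n, d = n + 1 := ⟨d - 1, by omega⟩
  rw [Nat.add_sub_cancel]
  have hk := bm_kk (n + 1) c
  have h1 : ((1 / (√((1 + ‖c‖ ^ 2) ^ (n + 1)) * √((n + 1 : ℕ) : ℝ)) : ℝ) : ℂ) =
      ((1 / √((1 + ‖c‖ ^ 2) ^ (n + 1)) : ℝ) : ℂ) * ((1 / √((n + 1 : ℕ) : ℝ) : ℝ) : ℂ) := by
    rw [← Complex.ofReal_mul, div_mul_div_comm, one_mul]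
  rw [h1]
  rw [pow_succ ((1 + ‖c‖ ^ 2 : ℝ) : ℂ) n] at hk
  linear_combination ((1 / √((n + 1 : ℕ) : ℝ) : ℝ) : ℂ) * hk

private theorem bm_smul (d : ℕ) (c : ℂ) (G : ℂ[X]) : Nd d (C c * G) = ‖c‖ ^ 2 * Nd d G := by
  unfold Pool.Agent.H85.LD.Nd
  rw [Finset.mul_sum]
  refine Finset.sum_congr rfl fun k _ => ?_
  rw [coeff_C_mul, norm_mul, mul_pow, mul_div_assoc]

private theorem bm_lin (m : ℕ) (c : ℂ) {H : ℂ[X]} (hH : H.natDegree ≤ m) :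
    Nd (m + 1) ((X - C c) * H) ≤ 2 * (1 + ‖c‖ ^ 2) * Nd m H := by
  have hpos : ∀ k, k ≤ m → (0 : ℝ) < (m.choose k : ℝ) := fun k hk => by
    exact_mod_cast Nat.choose_pos hk
  have hch1 : ∀ k, k ≤ m → (m.choose k : ℝ) ≤ ((m + 1).choose (k + 1) : ℝ) := by
    intro k _
    have h : m.choose k ≤ (m + 1).choose (k + 1) := by
      rw [Nat.choose_succ_succ]; omega
    exact_mod_cast h
  have hch0 : ∀ k, k ≤ m → (m.choose k : ℝ) ≤ ((m + 1).choose k : ℝ) := by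
    intro k _
    have h : m.choose k ≤ (m + 1).choose k := Nat.choose_le_choose k (Nat.le_succ m)
    exact_mod_cast h
  have hcf : ∀ k, ((X - C c) * H).coeff k = (X * H).coeff k - c * H.coeff k := by
    intro k
    rw [sub_mul, coeff_sub, coeff_C_mul]
  have hterm : ∀ k, ‖((X - C c) * H).coeff k‖ ^ 2 ≤
      2 * ‖(X * H).coeff k‖ ^ 2 + 2 * ‖c‖ ^ 2 * ‖H.coeff k‖ ^ 2 := by
    intro k
    rw [hcf]
    have h1 := norm_sub_le ((X * H).coeff k) (c * H.coeff k)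
    rw [norm_mul] at h1
    have h2 : ‖(X * H).coeff k - c * H.coeff k‖ ^ 2 ≤ (‖(X * H).coeff k‖ + ‖c‖ * ‖H.coeff k‖) ^ 2 :=
      pow_le_pow_left₀ (norm_nonneg _) h1 2
    nlinarith [sq_nonneg (‖(X * H).coeff k‖ - ‖c‖ * ‖H.coeff k‖)]
  have h1 : ∑ k ∈ Finset.range (m + 1 + 1), ‖(X * H).coeff k‖ ^ 2 / ((m + 1).choose k : ℝ) ≤
      Nd m H := by
    rw [Finset.sum_range_succ', coeff_X_mul_zero, norm_zero]
    unfold Pool.Agent.H85.LD.Nd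
    rw [zero_pow two_ne_zero, zero_div, add_zero]
    refine Finset.sum_le_sum fun k hk => ?_
    have hk' : k ≤ m := by have := Finset.mem_range.1 hk; omega
    rw [coeff_X_mul]
    exact div_le_div_of_nonneg_left (sq_nonneg _) (hpos k hk') (hch1 k hk')
  have h2 : ∑ k ∈ Finset.range (m + 1 + 1), ‖H.coeff k‖ ^ 2 / ((m + 1).choose k : ℝ) ≤
      Nd m H := by
    rw [Finset.sum_range_succ, coeff_eq_zero_of_natDegree_lt (by omega), norm_zero]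
    unfold Pool.Agent.H85.LD.Nd
    rw [zero_pow two_ne_zero, zero_div, add_zero]
    refine Finset.sum_le_sum fun k hk => ?_
    have hk' : k ≤ m := by have := Finset.mem_range.1 hk; omega
    exact div_le_div_of_nonneg_left (sq_nonneg _) (hpos k hk') (hch0 k hk')
  calc Nd (m + 1) ((X - C c) * H) ≤ ∑ k ∈ Finset.range (m + 1 + 1),
        (2 * (‖(X * H).coeff k‖ ^ 2 / ((m + 1).choose k : ℝ)) +
          2 * ‖c‖ ^ 2 * (‖H.coeff k‖ ^ 2 / ((m + 1).choose k : ℝ))) := by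
        unfold Pool.Agent.H85.LD.Nd
        refine Finset.sum_le_sum fun k _ => ?_
        calc ‖((X - C c) * H).coeff k‖ ^ 2 / ((m + 1).choose k : ℝ) ≤
              (2 * ‖(X * H).coeff k‖ ^ 2 + 2 * ‖c‖ ^ 2 * ‖H.coeff k‖ ^ 2) / ((m + 1).choose k : ℝ) :=
              div_le_div_of_nonneg_right (hterm k) (Nat.cast_nonneg _)
          _ = _ := by ring
    _ = 2 * (∑ k ∈ Finset.range (m + 1 + 1), ‖(X * H).coeff k‖ ^ 2 / ((m + 1).choose k : ℝ)) +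
        2 * ‖c‖ ^ 2 * ∑ k ∈ Finset.range (m + 1 + 1), ‖H.coeff k‖ ^ 2 / ((m + 1).choose k : ℝ) := by
        rw [Finset.sum_add_distrib, Finset.mul_sum, Finset.mul_sum]
    _ ≤ 2 * Nd m H + 2 * ‖c‖ ^ 2 * Nd m H :=
        add_le_add (mul_le_mul_of_nonneg_left h1 (by norm_num))
          (mul_le_mul_of_nonneg_left h2 (by positivity))
    _ = _ := by ring

private theorem bm_ker (m : ℕ) (w : ℂ) :
    Nd m ((1 + C (conj w) * X) ^ m) = (1 + ‖w‖ ^ 2) ^ m := by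
  have h := Nd_en m w (Nat.zero_le m)
  unfold Pool.Agent.H85.LD.en at h
  rw [pow_zero, one_mul, Nat.sub_zero, bm_smul, Nat.choose_zero_right, Nat.cast_one, div_one,
    Complex.norm_real, Real.norm_of_nonneg (by positivity), div_pow, one_pow,
    Real.sq_sqrt (by positivity)] at h
  have h0 : (0 : ℝ) < (1 + ‖w‖ ^ 2) ^ m := by positivity
  field_simp at h
  exact h

private theorem bm_degl (c : ℂ) {H : ℂ[X]} {m : ℕ} (hH : H.natDegree ≤ m) :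
    ((X - C c) * H).natDegree ≤ m + 1 := by
  refine natDegree_mul_le.trans ?_
  have h1 : (X - C c : ℂ[X]).natDegree ≤ 1 := by
    rw [natDegree_sub_C]
    exact natDegree_X_le
  omega

private theorem bm_degk (m : ℕ) (w : ℂ) : ((1 + C (conj w) * X : ℂ[X]) ^ m).natDegree ≤ m := by
  have h2 : (1 + C (conj w) * X : ℂ[X]).natDegree ≤ 1 := by
    refine (natDegree_add_le _ _).trans ?_
    rw [natDegree_one]
    exact max_le (Nat.zero_le _) ((natDegree_C_mul_le _ _).trans natDegree_X_le)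
  refine natDegree_pow_le.trans ?_
  calc m * (1 + C (conj w) * X : ℂ[X]).natDegree ≤ m * 1 := Nat.mul_le_mul_left _ h2
    _ = m := mul_one _

theorem dbl {d : ℕ} (hd : 2 ≤ d) (c w : ℂ) : ((X - C c) ^ 2 * (1 + C (conj w) * X) ^ (d - 2) : ℂ[X]).natDegree ≤ d ∧
    Nd d ((X - C c) ^ 2 * (1 + C (conj w) * X) ^ (d - 2)) ≤ 4 * (1 + ‖c‖ ^ 2) ^ 2 * (1 + ‖w‖ ^ 2) ^ (d - 2) := by
  obtain ⟨m, rfl⟩ : ∃ m, d = m + 2 := ⟨d - 2, by omega⟩
  rw [Nat.add_sub_cancel, pow_two (X - C c), mul_assoc]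
  have hk := bm_degk m w
  have h1 := bm_degl c hk
  refine ⟨bm_degl c h1, ?_⟩
  have h2 := bm_lin (m + 1) c h1
  have h3 := bm_lin m c hk
  rw [bm_ker] at h3
  calc _ ≤ 2 * (1 + ‖c‖ ^ 2) * Nd (m + 1) ((X - C c) * (1 + C (conj w) * X) ^ m) := h2
    _ ≤ 2 * (1 + ‖c‖ ^ 2) * (2 * (1 + ‖c‖ ^ 2) * (1 + ‖w‖ ^ 2) ^ m) :=
        mul_le_mul_of_nonneg_left h3 (by positivity)
    _ = _ := by ring

end Pool.Agent.H73.GP
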