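import Pool.Agent.H73.GP.Pen

/-!
[H73 GP CRI]  In every disc of radius `δ` there is a nearly critical point.

Notation: `a = (al P, al Q)`, `b = (be P, be Q)` at the point, `a ∧ b = al P be Q - al Q be P`; `|a|^2 = nn`, `|b|^2 = mm`
(`nn_al`). `al_be`: `|a ∧ b| = (1+|z|^2)/((1+|z|^2)^d √d) |W z|`, `W = P Q' - Q P'`.
Proof. (i) If `nn c < N exp(-K/4)` for some `c` with `|c - v| ≤ δ`: `|a ∧ b|^2 ≤ |a|^2 |b|^2 ≤ N exp(-K/4) mm c`.
(ii) Otherwise `pen` gives `y, g`. If `W` has a zero in the closed ball `B` of radius `δ/2` about `y`: done. Otherwise the minimum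
principle for `g^2 W` (holomorphic and zero-free near `B`) gives `z`, `|z - y| = δ/2`, `|g z|^2 |W z| ≤ |g y|^2 |W y|`.
`g^2 W = H1 H2' - H2 H1'` for `H1 = g P`, `H2 = g Q`; at `y`: Cauchy-Schwarz `|g^2 W|^2 ≤ (|H1|^2+|H2|^2)(|H1'|^2+|H2'|^2)
≤ nn y * 2 * exp 7 * N * (K/δ)^2` (Cauchy estimates on the circle of radius `δ/K` about `y`, `nn_le`), and `(K/δ)^2 = K d/12`.
With `M = |g z|^2 (|P z|^2+|Q z|^2) ≥ nn y exp (d δ^2/48) = nn y exp (K/4)`:
`|W z|^2 = |g^2 W|^2 (|P z|^2+|Q z|^2)^2/M^2 ≤ nn y * exp 7 * N * K d/6 * (nn z)^2 (1+|z|^2)^(2d)/((nn y)^2 exp (K/2))`, so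
`|a ∧ b|^2 ≤ (1+|z|^2)^2 exp 7 N (K/6) (nn z)^2/(nn y exp (K/2))`, and `nn y ≥ N exp(-K/4)`, `(1+|z|^2)^2 ≤ 4.1`, `nn z ≤ N`:
`≤ 750 K exp(-K/4) N nn z` (`exp 7 ≤ 1097`).
-/

set_option autoImplicit false

open Polynomial ComplexConjugate

namespace Pool.Agent.H73.GP

open Pool.Agent.H85.LD (Nd wm sg ph Gc en)

private theorem lag (a b c e : ℂ) : ‖a * e - b * c‖ ^ 2 ≤ (‖a‖ ^ 2 + ‖b‖ ^ 2) * (‖c‖ ^ 2 + ‖e‖ ^ 2) := by
  have h1 : ‖a * e - b * c‖ ≤ ‖a‖ * ‖e‖ + ‖b‖ * ‖c‖ := by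
    refine (norm_sub_le _ _).trans ?_
    rw [norm_mul, norm_mul]
  have h2 : ‖a * e - b * c‖ ^ 2 ≤ (‖a‖ * ‖e‖ + ‖b‖ * ‖c‖) ^ 2 := pow_le_pow_left₀ (norm_nonneg _) h1 2
  nlinarith [sq_nonneg (‖a‖ * ‖c‖ - ‖b‖ * ‖e‖)]

private theorem wd_norm (d : ℕ) (z : ℂ) (P Q : ℂ[X]) : ‖al d z P * be d z Q - al d z Q * be d z P‖ ^ 2 =
    ((1 + ‖z‖ ^ 2) ^ 2 / (((1 + ‖z‖ ^ 2) ^ d) ^ 2 * d)) *
      ‖P.eval z * (derivative Q).eval z - Q.eval z * (derivative P).eval z‖ ^ 2 := by
  rw [al_be, norm_mul, Complex.norm_real, Real.norm_of_nonneg (by positivity), mul_pow, div_pow, mul_pow,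
    Real.sq_sqrt (Nat.cast_nonneg d)]

/-- Cauchy estimate -/
private theorem cau {f : ℂ → ℂ} {y : ℂ} {r C : ℝ} (hr : 0 < r) (hf : ∀ z : ℂ, ‖z - y‖ ≤ r → DifferentiableAt ℂ f z)
    (hC : ∀ z : ℂ, ‖z - y‖ ≤ r → ‖f z‖ ^ 2 ≤ C) : ‖deriv f y‖ ^ 2 ≤ C / r ^ 2 := by
  have hC0 : 0 ≤ C := (by positivity : (0 : ℝ) ≤ ‖f y‖ ^ 2).trans (hC y (by rw [sub_self, norm_zero]; exact hr.le))
  have h1 : ‖deriv f y‖ ≤ √C / r := by
    refine Complex.norm_deriv_le_of_forall_mem_sphere_norm_le hr ?_ ?_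
    · refine DifferentiableOn.diffContOnCl ?_
      intro z hz
      have hz' := Metric.closure_ball_subset_closedBall hz
      rw [Metric.mem_closedBall, dist_eq_norm] at hz'
      exact (hf z hz').differentiableWithinAt
    · intro z hz
      rw [Metric.mem_sphere, dist_eq_norm] at hz
      exact Real.le_sqrt_of_sq_le (hC z hz.le)
  have h2 := pow_le_pow_left₀ (norm_nonneg _) h1 2
  rwa [div_pow, Real.sq_sqrt hC0] at h2

/-- minimum principle -/
private theorem minp {f : ℂ → ℂ} {y : ℂ} {r : ℝ} (hr : 0 < r) (hf : ∀ z : ℂ, ‖z - y‖ ≤ r → DifferentiableAt ℂ f z)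
    (h0 : ∀ z : ℂ, ‖z - y‖ ≤ r → f z ≠ 0) : ∃ z : ℂ, ‖z - y‖ = r ∧ ‖f z‖ ≤ ‖f y‖ := by
  by_contra hcon
  push Not at hcon
  have hcomp : IsCompact (Metric.sphere y r) := isCompact_sphere y r
  have hne : (Metric.sphere y r).Nonempty := NormedSpace.sphere_nonempty.2 hr.le
  have hcont : ContinuousOn (fun z => ‖f z‖) (Metric.sphere y r) := by
    intro z hz
    rw [Metric.mem_sphere, dist_eq_norm] at hz
    exact (hf z hz.le).continuousAt.norm.continuousWithinAt
  obtain ⟨w, hw, hmin⟩ := hcomp.exists_isMinOn hne hcont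
  have hw' : ‖w - y‖ = r := by rwa [Metric.mem_sphere, dist_eq_norm] at hw
  have h1 : ‖(f y)⁻¹‖ ≤ ‖f w‖⁻¹ := by
    refine Complex.norm_le_of_forall_mem_frontier_norm_le (U := Metric.ball y r) (f := fun z => (f z)⁻¹)
      Metric.isBounded_ball ?_ ?_ (subset_closure (Metric.mem_ball_self hr))
    · refine DifferentiableOn.diffContOnCl ?_
      intro z hz
      have hz' := Metric.closure_ball_subset_closedBall hz
      rw [Metric.mem_closedBall, dist_eq_norm] at hz'
      exact ((hf z hz').inv (h0 z hz')).differentiableWithinAt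
    · intro z hz
      rw [frontier_ball y hr.ne'] at hz
      have h2 : ‖f w‖ ≤ ‖f z‖ := hmin hz
      rw [norm_inv]
      exact inv_anti₀ (norm_pos_iff.2 (h0 w hw'.le)) h2
  rw [norm_inv] at h1
  have h3 := (inv_le_inv₀ (norm_pos_iff.2 (h0 y (by rw [sub_self, norm_zero]; exact hr.le)))
    (norm_pos_iff.2 (h0 w hw'.le))).1 h1
  exact absurd (hcon w hw') (not_lt.2 h3)

private theorem exp7 : Real.exp 7 ≤ 1100 := by
  have h1 := Real.exp_one_lt_d9
  have h2 : Real.exp 7 = Real.exp 1 ^ 7 := by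
    rw [← Real.exp_nat_mul]
    norm_num
  rw [h2]
  calc Real.exp 1 ^ 7 ≤ (2.7182818286 : ℝ) ^ 7 := pow_le_pow_left₀ (Real.exp_pos 1).le h1.le 7
    _ ≤ 1100 := by norm_num

private theorem fin_real {A D N K w r ny nz G : ℝ} (hA : 0 < A) (hD : 0 < D) (hN : 0 < N) (hK : 0 < K) (hw : 0 ≤ w)
    (hr0 : 0 ≤ r) (hr : r ≤ 101 / 100) (hny0 : 0 < ny) (hny : N * Real.exp (-(K / 4)) ≤ ny) (hnz0 : 0 ≤ nz) (hnz : nz ≤ N)
    (hG : 0 ≤ G) (hzb : G ^ (2 * 2) * w ≤ ny * (Real.exp 7 * N * (K * D / 6)))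
    (hM : ny * Real.exp (K / 4) ≤ G ^ 2 * (nz * A)) :
    ((1 + r ^ 2) ^ 2 / (A ^ 2 * D)) * w ≤ 1300 * K * Real.exp (-(K / 4)) * N * nz := by
  have he : Real.exp (-(K / 4)) * Real.exp (K / 4) = 1 := by
    rw [← Real.exp_add, neg_add_cancel, Real.exp_zero]
  have he0 := Real.exp_pos (K / 4)
  have he1 := Real.exp_pos (-(K / 4))
  have he7 := exp7
  have he70 := Real.exp_pos 7
  generalize Real.exp (K / 4) = e at *
  generalize Real.exp (-(K / 4)) = f at *
  generalize Real.exp 7 = E at *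
  have h1 : (ny * e) ^ 2 ≤ (G ^ 2 * (nz * A)) ^ 2 := pow_le_pow_left₀ (by positivity) hM 2
  have h2 : (ny * e) ^ 2 * w ≤ (nz * A) ^ 2 * (ny * (E * N * (K * D / 6))) := by
    calc (ny * e) ^ 2 * w ≤ (G ^ 2 * (nz * A)) ^ 2 * w := mul_le_mul_of_nonneg_right h1 hw
      _ = (nz * A) ^ 2 * (G ^ (2 * 2) * w) := by ring
      _ ≤ _ := mul_le_mul_of_nonneg_left hzb (by positivity)
  have h3 : ny * e ^ 2 * w ≤ (nz * A) ^ 2 * (E * N * (K * D / 6)) := by
    refine le_of_mul_le_mul_left ?_ hny0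
    calc ny * (ny * e ^ 2 * w) = (ny * e) ^ 2 * w := by ring
      _ ≤ _ := h2
      _ = _ := by ring
  have h4 : N * f * (e ^ 2 * w) ≤ (nz * A) ^ 2 * (E * N * (K * D / 6)) :=
    (mul_le_mul_of_nonneg_right hny (by positivity)).trans (by rw [← mul_assoc]; exact h3)
  have h5 : e * w ≤ (nz * A) ^ 2 * (E * (K * D / 6)) := by
    refine le_of_mul_le_mul_left ?_ hN
    calc N * (e * w) = N * f * (e ^ 2 * w) := by linear_combination -(N * e * w) * he
      _ ≤ _ := h4
      _ = _ := by ring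
  have h6 : w ≤ f * ((nz * A) ^ 2 * (E * (K * D / 6))) := by
    calc w = f * (e * w) := by linear_combination -w * he
      _ ≤ _ := mul_le_mul_of_nonneg_left h5 he1.le
  have h7 : ((1 + r ^ 2) ^ 2 / (A ^ 2 * D)) * w ≤
      ((1 + r ^ 2) ^ 2 / (A ^ 2 * D)) * (f * ((nz * A) ^ 2 * (E * (K * D / 6)))) :=
    mul_le_mul_of_nonneg_left h6 (by positivity)
  refine h7.trans ?_
  have h8 : ((1 + r ^ 2) ^ 2 / (A ^ 2 * D)) * (f * ((nz * A) ^ 2 * (E * (K * D / 6)))) =
      (1 + r ^ 2) ^ 2 * (E * (K / 6) * f * (nz * nz)) := by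
    field_simp
  rw [h8]
  have h9 : (1 + r ^ 2) ^ 2 ≤ 5 := by
    have : r ^ 2 ≤ (101 / 100) ^ 2 := pow_le_pow_left₀ hr0 hr 2
    nlinarith [sq_nonneg r]
  have h10 : nz * nz ≤ N * nz := mul_le_mul_of_nonneg_right hnz hnz0
  calc (1 + r ^ 2) ^ 2 * (E * (K / 6) * f * (nz * nz)) ≤ 5 * (1100 * (K / 6) * f * (N * nz)) := by
        refine mul_le_mul h9 ?_ (by positivity) (by norm_num)
        refine mul_le_mul ?_ h10 (by positivity) (by positivity)
        refine mul_le_mul_of_nonneg_right ?_ he1.le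
        exact mul_le_mul_of_nonneg_right he7 (by positivity)
    _ ≤ _ := by
        have : 0 ≤ K * f * N * nz := by positivity
        nlinarith

theorem cri {d : ℕ} {K δ N : ℝ} {P Q : ℂ[X]} (h : Sc d K δ N P Q) {v : ℂ} (hv : ‖v‖ ≤ 1) :
    ∃ c : ℂ, ‖c - v‖ ≤ δ ∧ ‖al d c P * be d c Q - al d c Q * be d c P‖ ^ 2 ≤
      1300 * K * Real.exp (-(K / 4)) * N * max (nn d P Q c) (mm d P Q c) := by
  obtain ⟨h2, hK4, hδ0, hδ1, hdK, hN0, hP, hQ, hN⟩ := id h
  have hK : 0 < K := by linarith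
  have hd : (0 : ℝ) < d := by exact_mod_cast (by omega : 0 < d)
  have hE := Real.exp_pos (-(K / 4))
  by_cases hlow : ∀ z : ℂ, ‖z - v‖ ≤ δ → N * Real.exp (-(K / 4)) ≤ nn d P Q z
  swap
  · push Not at hlow
    obtain ⟨c, hc, hnc⟩ := hlow
    refine ⟨c, hc, ?_⟩
    have h1 := lag (al d c P) (al d c Q) (be d c P) (be d c Q)
    rw [← nn_al] at h1
    have h3 : ‖be d c P‖ ^ 2 + ‖be d c Q‖ ^ 2 = mm d P Q c := rfl
    rw [h3] at h1
    have h4 : 0 ≤ mm d P Q c := by
      unfold mm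
      positivity
    have h5 : nn d P Q c * mm d P Q c ≤ N * Real.exp (-(K / 4)) * mm d P Q c :=
      mul_le_mul_of_nonneg_right hnc.le h4
    have h6 : N * Real.exp (-(K / 4)) * mm d P Q c ≤
        N * Real.exp (-(K / 4)) * max (nn d P Q c) (mm d P Q c) :=
      mul_le_mul_of_nonneg_left (le_max_right _ _) (by positivity)
    have h7 : (0 : ℝ) ≤ N * Real.exp (-(K / 4)) * max (nn d P Q c) (mm d P Q c) :=
      mul_nonneg (by positivity) (h4.trans (le_max_right _ _))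
    nlinarith
  · obtain ⟨y, g, hy, hg, hgy, hgr, hgu⟩ := pen h hv hlow
    have hin : ∀ z : ℂ, ‖z - y‖ ≤ δ / 2 → ‖z - v‖ ≤ δ := by
      intro z hz
      have := norm_add_le (z - y) (y - v)
      rw [sub_add_sub_cancel] at this
      linarith
    by_cases hzero : ∃ z : ℂ, ‖z - y‖ ≤ δ / 2 ∧
        P.eval z * (derivative Q).eval z - Q.eval z * (derivative P).eval z = 0
    · obtain ⟨z, hz, hW⟩ := hzero
      refine ⟨z, hin z hz, ?_⟩
      rw [wd_norm, hW, norm_zero]
      have h4 : 0 ≤ max (nn d P Q z) (mm d P Q z) := (nn_nonneg d P Q z).trans (le_max_left _ _)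
      have h5 : (0 : ℝ) ≤ 1300 * K * Real.exp (-(K / 4)) * N * max (nn d P Q z) (mm d P Q z) :=
        mul_nonneg (by positivity) h4
      simpa using h5
    · push Not at hzero
      have hgd : ∀ z : ℂ, ‖z - y‖ ≤ δ / 2 → DifferentiableAt ℂ g z := fun z hz =>
        (hg z (by linarith [hin z hz])).1
      -- minimum principle
      obtain ⟨z, hz, hzm⟩ := minp (f := fun z => g z ^ 2 *
        (P.eval z * (derivative Q).eval z - Q.eval z * (derivative P).eval z)) (y := y) (r := δ / 2) (by positivity)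
        (fun z hz => DifferentiableAt.mul ((hgd z hz).pow 2)
          (DifferentiableAt.sub (DifferentiableAt.mul P.differentiableAt (derivative Q).differentiableAt)
            (DifferentiableAt.mul Q.differentiableAt (derivative P).differentiableAt)))
        (fun z hz => mul_ne_zero (pow_ne_zero _ (hg z (by linarith [hin z hz])).2) (hzero z hz))
      -- the bound at `y`
      have hδK : δ / K ≤ δ / 2 := div_le_div_of_nonneg_left hδ0.le (by norm_num) (by linarith)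
      have hHP : ‖deriv (fun z => g z * P.eval z) y‖ ^ 2 ≤ Real.exp 7 * N / (δ / K) ^ 2 := by
        refine cau (by positivity) (fun z hz => (hgd z (hz.trans hδK)).mul P.differentiableAt) ?_
        intro z hz
        have h3 := hgu z hz
        have h4 := nn_le hP hQ hN z
        have h5 : Real.exp 7 * nn d P Q z ≤ Real.exp 7 * N := mul_le_mul_of_nonneg_left h4 (Real.exp_pos 7).le
        rw [norm_mul, mul_pow]
        have h6 : 0 ≤ ‖g z‖ ^ 2 * ‖Q.eval z‖ ^ 2 := by positivity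
        nlinarith
      have hHQ : ‖deriv (fun z => g z * Q.eval z) y‖ ^ 2 ≤ Real.exp 7 * N / (δ / K) ^ 2 := by
        refine cau (by positivity) (fun z hz => (hgd z (hz.trans hδK)).mul Q.differentiableAt) ?_
        intro z hz
        have h3 := hgu z hz
        have h4 := nn_le hP hQ hN z
        have h5 : Real.exp 7 * nn d P Q z ≤ Real.exp 7 * N := mul_le_mul_of_nonneg_left h4 (Real.exp_pos 7).le
        rw [norm_mul, mul_pow]
        have h6 : 0 ≤ ‖g z‖ ^ 2 * ‖P.eval z‖ ^ 2 := by positivity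
        nlinarith
      have hy0 : DifferentiableAt ℂ g y := hgd y (by rw [sub_self, norm_zero]; positivity)
      have hdP : deriv (fun z => g z * P.eval z) y = deriv g y * P.eval y + g y * (derivative P).eval y := by
        have := (hy0.hasDerivAt.mul (P.hasDerivAt y)).deriv
        exact this
      have hdQ : deriv (fun z => g z * Q.eval z) y = deriv g y * Q.eval y + g y * (derivative Q).eval y := by
        have := (hy0.hasDerivAt.mul (Q.hasDerivAt y)).deriv
        exact this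
      have hwr : g y ^ 2 * (P.eval y * (derivative Q).eval y - Q.eval y * (derivative P).eval y) =
          (g y * P.eval y) * deriv (fun z => g z * Q.eval z) y -
          (g y * Q.eval y) * deriv (fun z => g z * P.eval z) y := by
        rw [hdP, hdQ]
        ring
      have hKd : (K / δ) ^ 2 = K * d / 12 := by
        rw [div_pow, div_eq_div_iff (by positivity) (by norm_num)]
        nlinarith
      have hsq : Real.exp 7 * N / (δ / K) ^ 2 = Real.exp 7 * N * (K * d / 12) := by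
        rw [← hKd, div_eq_mul_inv, ← inv_pow, inv_div]
      rw [hsq] at hHP hHQ
      have hyb : ‖g y ^ 2 * (P.eval y * (derivative Q).eval y - Q.eval y * (derivative P).eval y)‖ ^ 2 ≤
          nn d P Q y * (Real.exp 7 * N * (K * d / 6)) := by
        rw [hwr]
        refine (lag _ _ _ _).trans ?_
        have h3 : ‖g y * P.eval y‖ ^ 2 + ‖g y * Q.eval y‖ ^ 2 = nn d P Q y := by
          rw [norm_mul, norm_mul, mul_pow, mul_pow, ← mul_add, hgy]
        rw [h3]
        refine mul_le_mul_of_nonneg_left ?_ (nn_nonneg d P Q y)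
        linarith
      have hzb : ‖g z ^ 2 * (P.eval z * (derivative Q).eval z - Q.eval z * (derivative P).eval z)‖ ^ 2 ≤
          nn d P Q y * (Real.exp 7 * N * (K * d / 6)) :=
        (pow_le_pow_left₀ (norm_nonneg _) hzm 2).trans hyb
      rw [norm_mul, norm_pow, mul_pow, ← pow_mul] at hzb
      have hzv := hin z hz.le
      have hM := hgr z hzv
      rw [hz] at hM
      have hM2 : (d : ℝ) / 12 * (δ / 2) ^ 2 = K / 4 := by linear_combination hdK / 48
      rw [hM2] at hM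
      have hnz : ‖P.eval z‖ ^ 2 + ‖Q.eval z‖ ^ 2 = nn d P Q z * (1 + ‖z‖ ^ 2) ^ d := by
        unfold nn
        have : (1 + ‖z‖ ^ 2) ^ d ≠ 0 := by positivity
        field_simp
      have hny : N * Real.exp (-(K / 4)) ≤ nn d P Q y :=
        hlow y (by linarith [hin y (by rw [sub_self, norm_zero]; positivity)])
      have hny0 : 0 < nn d P Q y := lt_of_lt_of_le (by positivity) hny
      have hnzN := nn_le hP hQ hN z
      have hnz0 : 0 ≤ nn d P Q z := nn_nonneg d P Q z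
      refine ⟨z, hzv, ?_⟩
      rw [wd_norm]
      have hznorm : ‖z‖ ≤ 101 / 100 := by
        have := norm_add_le (z - v) v
        rw [sub_add_cancel] at this
        linarith
      rw [hnz] at hM
      refine (fin_real (A := (1 + ‖z‖ ^ 2) ^ d) (by positivity) hd hN0 hK (by positivity) (norm_nonneg z) hznorm hny0 hny hnz0 hnzN
        (by positivity) hzb hM).trans ?_
      exact mul_le_mul_of_nonneg_left (le_max_left _ _) (by positivity)

end Pool.Agent.H73.GP
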