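import Pool.Agent.H73.GP.Def

/-!
[H73 GP CST]  The constants: `K = 200 log d`, `δ = √(12 K / d)`.

Proof. `log d / d → 0`: for large `d`: `δ ≤ 1/100`, `K ≥ 4`. `exp (-(K/4)) = d^(-50)`. `δ^4 = (2400 log d/d)^2 ≥ 1/d^2`,
`(1 - δ^2)^(d-1) ≤ exp (-(d-1) δ^2) ≤ exp (-d δ^2/2) = exp (-6 K) = d^(-1200)`. `3*10^11 K^2/d^2 = 1.2*10^16 (log d)^2/d^2`;
`d^(-50) (52000 K + 22 + 192 d^2) ≤ (log d)^2/d^2` for large `d`.
-/

set_option autoImplicit false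

open Polynomial ComplexConjugate

namespace Pool.Agent.H73.GP

theorem cst_pow {x l : ℝ} (hx : 0 < x) (hl : l = Real.log x) (n : ℕ) :
    Real.exp (-((n : ℝ) * l)) = (x ^ n)⁻¹ := by
  rw [Real.exp_neg, Real.exp_nat_mul, hl, Real.exp_log hx]

theorem cst_main (d : ℕ) (l : ℝ) (hl : l = Real.log d) (h1 : 1 ≤ l) (h2 : 3 ≤ d)
    (h3 : 24000000 * l ≤ d) : ∃ K δ : ℝ, 4 ≤ K ∧ 0 < δ ∧ δ ≤ 1 / 100 ∧ δ ^ 2 * d = 12 * K ∧
    l ≤ K ∧ 32 * d * (1 - δ ^ 2) ^ (d - 1) ≤ δ ^ 4 ∧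
    3 * 10 ^ 11 * K ^ 2 / d ^ 2 + Real.exp (-(K / 4)) * (52000 * K + 22 + 192 / δ ^ 4) ≤
      10 ^ 17 * l ^ 2 / d ^ 2 := by
  obtain ⟨x, hx⟩ : ∃ x : ℝ, x = d := ⟨_, rfl⟩
  rw [← hx] at hl h3 ⊢
  have hx3 : 3 ≤ x := by rw [hx]; exact_mod_cast h2
  have hx0 : 0 < x := by linarith
  obtain ⟨a, ha⟩ : ∃ a : ℝ, a = 2400 * l / x := ⟨_, rfl⟩
  have ha0 : 0 < a := by rw [ha]; positivity
  have hax : a * x = 2400 * l := by rw [ha]; field_simp
  have ha1 : a ≤ 1 / 10000 := by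
    rw [ha, div_le_iff₀ hx0]; linarith
  have hδ2 : Real.sqrt a ^ 2 = a := Real.sq_sqrt ha0.le
  have hδ4 : Real.sqrt a ^ 4 = a ^ 2 := by
    calc Real.sqrt a ^ 4 = (Real.sqrt a ^ 2) ^ 2 := by ring
      _ = a ^ 2 := by rw [hδ2]
  have hainv : 1 / x ≤ a := by
    rw [div_le_iff₀ hx0]; linarith
  have ha2 : (x ^ 2)⁻¹ ≤ a ^ 2 := by
    have h := pow_le_pow_left₀ (by positivity : (0 : ℝ) ≤ 1 / x) hainv 2
    refine le_trans (le_of_eq ?_) h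
    rw [one_div, inv_pow]
  refine ⟨200 * l, Real.sqrt a, by linarith, Real.sqrt_pos.2 ha0, ?_, ?_, by linarith, ?_, ?_⟩
  · rw [Real.sqrt_le_iff]
    exact ⟨by norm_num, by norm_num; linarith⟩
  · rw [hδ2, hax]; ring
  · rw [hδ2, hδ4]
    have e1 : (1 - a) ^ (d - 1) ≤ Real.exp (-(5 * l)) := by
      have q1 : (1 - a) ^ (d - 1) ≤ Real.exp (-a) ^ (d - 1) :=
        pow_le_pow_left₀ (by linarith) (Real.one_sub_le_exp_neg a) _
      refine q1.trans ?_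
      rw [← Real.exp_nat_mul]
      refine Real.exp_le_exp.2 ?_
      have q2 : ((d - 1 : ℕ) : ℝ) = x - 1 := by
        rw [Nat.cast_sub (by omega), hx]; simp
      rw [q2]
      have q3 : (x - 1) * a ≥ 1200 * l := by
        have : x * a / 2 ≤ (x - 1) * a := by nlinarith
        linarith
      linarith
    have e2 : Real.exp (-(5 * l)) = (x ^ 5)⁻¹ := by
      have := cst_pow hx0 hl 5
      exact_mod_cast this
    rw [e2] at e1
    have hbig : 32 ≤ x ^ 2 := by nlinarith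
    calc 32 * x * (1 - a) ^ (d - 1) ≤ 32 * x * (x ^ 5)⁻¹ :=
          mul_le_mul_of_nonneg_left e1 (by positivity)
      _ = (32 / x ^ 2) * (x ^ 2)⁻¹ := by field_simp
      _ ≤ 1 * (x ^ 2)⁻¹ := by
          refine mul_le_mul_of_nonneg_right ?_ (by positivity)
          rw [div_le_one (by positivity)]; exact hbig
      _ ≤ a ^ 2 := by rw [one_mul]; exact ha2
  · rw [hδ4]
    have e1 : Real.exp (-(200 * l / 4)) ≤ (x ^ 4)⁻¹ := by
      rw [← cst_pow hx0 hl 4]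
      refine Real.exp_le_exp.2 ?_
      push_cast
      linarith
    have e2 : 192 / a ^ 2 ≤ 192 * x ^ 2 := by
      rw [div_le_iff₀ (by positivity)]
      have : 1 ≤ x ^ 2 * a ^ 2 := by
        have h := mul_le_mul_of_nonneg_left ha2 (by positivity : (0 : ℝ) ≤ x ^ 2)
        rwa [mul_inv_cancel₀ (by positivity)] at h
      linarith
    have hlx : l ≤ x := by linarith
    have e3 : 52000 * (200 * l) + 22 + 192 / a ^ 2 ≤ 10 ^ 8 * x ^ 2 := by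
      have : x ≤ x ^ 2 := by nlinarith
      linarith
    have e4 : Real.exp (-(200 * l / 4)) * (52000 * (200 * l) + 22 + 192 / a ^ 2) ≤
        10 ^ 8 / x ^ 2 := by
      calc Real.exp (-(200 * l / 4)) * (52000 * (200 * l) + 22 + 192 / a ^ 2) ≤
          (x ^ 4)⁻¹ * (10 ^ 8 * x ^ 2) :=
            mul_le_mul e1 e3 (by positivity) (by positivity)
        _ = 10 ^ 8 / x ^ 2 := by field_simp
    have e5 : 3 * 10 ^ 11 * (200 * l) ^ 2 / x ^ 2 + 10 ^ 8 / x ^ 2 ≤ 10 ^ 17 * l ^ 2 / x ^ 2 := by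
      rw [← add_div]
      refine div_le_div_of_nonneg_right ?_ (by positivity)
      have : 1 ≤ l ^ 2 := by nlinarith
      linarith
    linarith

theorem cst : ∃ d0 : ℕ, 2 ≤ d0 ∧ ∀ d : ℕ, d0 ≤ d → ∃ K δ : ℝ, 4 ≤ K ∧ 0 < δ ∧ δ ≤ 1 / 100 ∧ δ ^ 2 * d = 12 * K ∧
    Real.log d ≤ K ∧ 32 * d * (1 - δ ^ 2) ^ (d - 1) ≤ δ ^ 4 ∧
    3 * 10 ^ 11 * K ^ 2 / d ^ 2 + Real.exp (-(K / 4)) * (52000 * K + 22 + 192 / δ ^ 4) ≤
      10 ^ 17 * (Real.log d) ^ 2 / d ^ 2 := by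
  have h := Real.isLittleO_log_id_atTop
  have h1 := h.bound (by norm_num : (0 : ℝ) < 1 / 24000000)
  have h2 := tendsto_natCast_atTop_atTop (R := ℝ) |>.eventually h1
  have h3 := (tendsto_natCast_atTop_atTop (R := ℝ)).eventually
    (Real.tendsto_log_atTop.eventually_ge_atTop 1)
  have h4 := Filter.eventually_ge_atTop 3 (α := ℕ)
  obtain ⟨d0, hd0⟩ := Filter.eventually_atTop.1 ((h2.and h3).and h4)
  refine ⟨max d0 2, le_max_right _ _, fun d hd => ?_⟩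
  obtain ⟨⟨g1, g2⟩, g3⟩ := hd0 d (le_trans (le_max_left _ _) hd)
  refine cst_main d (Real.log d) rfl g2 g3 ?_
  rw [Real.norm_eq_abs, id, Real.norm_eq_abs, abs_of_nonneg (by linarith),
    abs_of_nonneg (Nat.cast_nonneg _)] at g1
  linarith

end Pool.Agent.H73.GP
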