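import Pool.Agent.H85.LD.Ker
import Pool.Agent.H85.LD.Chart
import Pool.Agent.H84.BR.Wey

/-!
MP_8f2e1c_an, ExactRate, GAP THEOREM (part (3)): definitions.

Every pair `(P, Q) ≠ 0` of polynomials of degree at most `d` is within relative squared Bombieri-Weyl error
`C (log d)^2 / d^2` of a coprime pair of degree exactly `d` with an attracting cycle.

`nn d P Q z = (|P(z)|^2 + |Q(z)|^2) / (1 + |z|^2)^d`; `al d z G` and `be d z G` are the normalised value and the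
normalised covariant derivative of the polynomial `G` (degree at most `d`) at `z`; `mm` is the same as `nn` for the
derivatives. `Sc` bundles the scales: `δ^2 d = 12 K`.
-/

set_option autoImplicit false

open Polynomial ComplexConjugate

namespace Pool.Agent.H73.GP

open Pool.Agent.H85.LD (Nd wm sg ph Gc en)

noncomputable def nn (d : ℕ) (P Q : ℂ[X]) (z : ℂ) : ℝ :=
  (‖P.eval z‖ ^ 2 + ‖Q.eval z‖ ^ 2) / (1 + ‖z‖ ^ 2) ^ d

noncomputable def al (d : ℕ) (z : ℂ) (G : ℂ[X]) : ℂ :=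
  ((1 / √((1 + ‖z‖ ^ 2) ^ d) : ℝ) : ℂ) * G.eval z

noncomputable def be (d : ℕ) (z : ℂ) (G : ℂ[X]) : ℂ :=
  ((1 / (√((1 + ‖z‖ ^ 2) ^ d) * √d) : ℝ) : ℂ) *
    (((1 + ‖z‖ ^ 2 : ℝ) : ℂ) * (derivative G).eval z - d * conj z * G.eval z)

noncomputable def mm (d : ℕ) (P Q : ℂ[X]) (z : ℂ) : ℝ := ‖be d z P‖ ^ 2 + ‖be d z Q‖ ^ 2

/-- the scales -/
structure Sc (d : ℕ) (K δ N : ℝ) (P Q : ℂ[X]) : Prop where
  d2 : 2 ≤ d
  K4 : 4 ≤ K
  δ0 : 0 < δ
  δ1 : δ ≤ 1 / 100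
  dK : δ ^ 2 * d = 12 * K
  N0 : 0 < N
  hP : P.natDegree ≤ d
  hQ : Q.natDegree ≤ d
  hN : Nd d P + Nd d Q ≤ N

theorem nn_al (d : ℕ) (P Q : ℂ[X]) (z : ℂ) : nn d P Q z = ‖al d z P‖ ^ 2 + ‖al d z Q‖ ^ 2 := by
  have h : ∀ G : ℂ[X], ‖al d z G‖ ^ 2 = ‖G.eval z‖ ^ 2 / (1 + ‖z‖ ^ 2) ^ d := by
    intro G
    unfold al
    rw [norm_mul, Complex.norm_real, Real.norm_of_nonneg (by positivity), mul_pow, div_pow, one_pow,
      Real.sq_sqrt (by positivity)]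
    ring
  rw [h, h]
  unfold nn
  ring

theorem al_add (d : ℕ) (z : ℂ) (G H : ℂ[X]) : al d z (G + H) = al d z G + al d z H := by
  unfold al
  rw [eval_add]
  ring

theorem be_add (d : ℕ) (z : ℂ) (G H : ℂ[X]) : be d z (G + H) = be d z G + be d z H := by
  unfold be
  rw [derivative_add, eval_add, eval_add]
  ring

theorem al_C_mul (d : ℕ) (z c : ℂ) (G : ℂ[X]) : al d z (C c * G) = c * al d z G := by
  unfold al
  rw [eval_mul, eval_C]
  ring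

theorem be_C_mul (d : ℕ) (z c : ℂ) (G : ℂ[X]) : be d z (C c * G) = c * be d z G := by
  unfold be
  rw [derivative_C_mul, eval_mul, eval_C, eval_mul, eval_C]
  ring

/-- the wedge is the Wronskian -/
theorem al_be (d : ℕ) (z : ℂ) (P Q : ℂ[X]) : al d z P * be d z Q - al d z Q * be d z P =
    (((1 + ‖z‖ ^ 2) / ((1 + ‖z‖ ^ 2) ^ d * √d) : ℝ) : ℂ) *
      (P.eval z * (derivative Q).eval z - Q.eval z * (derivative P).eval z) := by
  have h1 : ((((1 + ‖z‖ ^ 2) / ((1 + ‖z‖ ^ 2) ^ d * √d) : ℝ) : ℂ)) =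
      ((1 / √((1 + ‖z‖ ^ 2) ^ d) : ℝ) : ℂ) * ((1 / (√((1 + ‖z‖ ^ 2) ^ d) * √d) : ℝ) : ℂ) * ((1 + ‖z‖ ^ 2 : ℝ) : ℂ) := by
    rw [← Complex.ofReal_mul, ← Complex.ofReal_mul]
    congr 1
    have h2 := Real.mul_self_sqrt (show 0 ≤ (1 + ‖z‖ ^ 2) ^ d by positivity)
    rw [div_mul_div_comm, one_mul, ← mul_assoc, h2]
    ring
  rw [h1]
  unfold al be
  ring

theorem nn_le {d : ℕ} {P Q : ℂ[X]} {N : ℝ} (hP : P.natDegree ≤ d) (hQ : Q.natDegree ≤ d) (h : Nd d P + Nd d Q ≤ N)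
    (z : ℂ) : nn d P Q z ≤ N := by
  unfold nn
  rw [div_le_iff₀ (by positivity)]
  have h1 := Pool.Agent.H84.BR.Nd_eval d hP z
  have h2 := Pool.Agent.H84.BR.Nd_eval d hQ z
  have h3 : (0 : ℝ) ≤ (1 + ‖z‖ ^ 2) ^ d := by positivity
  nlinarith

theorem nn_nonneg (d : ℕ) (P Q : ℂ[X]) (z : ℂ) : 0 ≤ nn d P Q z := by
  unfold nn
  positivity

theorem nn_cont (d : ℕ) (P Q : ℂ[X]) : Continuous (nn d P Q) := by
  unfold nn
  refine Continuous.div ?_ (by fun_prop) (fun z => by positivity)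
  exact ((P.continuous.norm.pow 2).add (Q.continuous.norm.pow 2))

end Pool.Agent.H73.GP
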