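import Pool.Agent.H73.GP.Def
import Pool.Agent.H32.BT.TrapSink
import Pool.Agent.H84.PT.Rat

/-!
[H73 GP SML]  The trivial bound (for small degrees): replace `(P, Q)` by `(s X^d, s)`, `s > 0` small.

Proof. `rat (C s * X^d) (C s)` has the superattracting fixed point `0` (`sink_of_contr` with `F z = z^d`, `a = 0`, `r = 1/2`, `n = 1`; or
`sink_of_mult`), `IsCoprime (C s * X^d) (C s)` (`C s` a unit), degree `d`. `Nd d (P - C s * X^d) ≤ 2 Nd d P + 2 s^2`, the same for `Q`;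
`N = Nd d P + Nd d Q > 0` (a nonzero coefficient of index `≤ d`), choose `s` with `4 s^2 ≤ N`.
-/

set_option autoImplicit false

open Polynomial ComplexConjugate

namespace Pool.Agent.H73.GP

open Pool.Agent.H85.LD (Nd)
open Pool.Agent.H44.Fatou Pool.Agent.H32.BT

private theorem Nd_pos1 {d : ℕ} {P : ℂ[X]} (hP : P.natDegree ≤ d) (h : P ≠ 0) : 0 < Nd d P := by
  unfold Pool.Agent.H85.LD.Nd
  refine Finset.sum_pos' (fun k _ => by positivity) ⟨P.natDegree, ?_, ?_⟩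
  · rw [Finset.mem_range]
    omega
  · have h1 : P.coeff P.natDegree ≠ 0 := by
      rw [coeff_natDegree]
      exact leadingCoeff_ne_zero.mpr h
    have h2 : (0 : ℝ) < (d.choose P.natDegree : ℝ) := by
      exact_mod_cast Nat.choose_pos hP
    have h3 : 0 < ‖P.coeff P.natDegree‖ := norm_pos_iff.mpr h1
    positivity

private theorem Nd_nonneg1 (d : ℕ) (P : ℂ[X]) : 0 ≤ Nd d P := by
  unfold Pool.Agent.H85.LD.Nd
  exact Finset.sum_nonneg fun k _ => by positivity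

private theorem Nd_sub1 (d : ℕ) (A B : ℂ[X]) : Nd d (A - B) ≤ 2 * Nd d A + 2 * Nd d B := by
  unfold Pool.Agent.H85.LD.Nd
  rw [Finset.mul_sum, Finset.mul_sum, ← Finset.sum_add_distrib]
  refine Finset.sum_le_sum fun k _ => ?_
  have h1 : ‖(A - B).coeff k‖ ^ 2 ≤ 2 * ‖A.coeff k‖ ^ 2 + 2 * ‖B.coeff k‖ ^ 2 := by
    rw [coeff_sub]
    have h2 := norm_sub_le (A.coeff k) (B.coeff k)
    have h3 : ‖A.coeff k - B.coeff k‖ ^ 2 ≤ (‖A.coeff k‖ + ‖B.coeff k‖) ^ 2 := by gcongr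
    nlinarith [sq_nonneg (‖A.coeff k‖ - ‖B.coeff k‖)]
  calc ‖(A - B).coeff k‖ ^ 2 / (d.choose k : ℝ) ≤
        (2 * ‖A.coeff k‖ ^ 2 + 2 * ‖B.coeff k‖ ^ 2) / (d.choose k : ℝ) := by
        gcongr
    _ = 2 * (‖A.coeff k‖ ^ 2 / (d.choose k : ℝ)) + 2 * (‖B.coeff k‖ ^ 2 / (d.choose k : ℝ)) := by
        ring

theorem Nd_pos {d : ℕ} {P Q : ℂ[X]} (hP : P.natDegree ≤ d) (hQ : Q.natDegree ≤ d) (h0 : P ≠ 0 ∨ Q ≠ 0) :
    0 < Nd d P + Nd d Q := by
  rcases h0 with h | h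
  · have h1 := Nd_pos1 hP h
    have h2 := Nd_nonneg1 d Q
    linarith
  · have h1 := Nd_pos1 hQ h
    have h2 := Nd_nonneg1 d P
    linarith

private theorem Nd_top (d : ℕ) (c : ℂ) : Nd d (C c * X ^ d) = ‖c‖ ^ 2 := by
  unfold Pool.Agent.H85.LD.Nd
  rw [Finset.sum_eq_single d]
  · rw [coeff_C_mul_X_pow, if_pos rfl, Nat.choose_self, Nat.cast_one, div_one]
  · intro k _ hk
    rw [coeff_C_mul_X_pow, if_neg hk, norm_zero]
    simp
  · intro h
    exact absurd (Finset.mem_range.mpr (Nat.lt_succ_self d)) h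

private theorem Nd_bot (d : ℕ) (c : ℂ) : Nd d (C c) = ‖c‖ ^ 2 := by
  unfold Pool.Agent.H85.LD.Nd
  rw [Finset.sum_eq_single 0]
  · rw [coeff_C_zero, Nat.choose_zero_right, Nat.cast_one, div_one]
  · intro k _ hk
    rw [coeff_C, if_neg hk, norm_zero]
    simp
  · intro h
    exact absurd (Finset.mem_range.mpr (Nat.succ_pos d)) h

private theorem pow_lip {d : ℕ} (hd : 2 ≤ d) {z w : ℂ} (hz : ‖z‖ ≤ 1 / 4) (hw : ‖w‖ ≤ 1 / 4) :
    ‖z ^ d - w ^ d‖ ≤ 1 / 2 * ‖z - w‖ := by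
  rw [← (Commute.all z w).geom_sum₂_mul d, norm_mul]
  refine mul_le_mul_of_nonneg_right ?_ (norm_nonneg _)
  have h1 : ‖∑ i ∈ Finset.range d, z ^ i * w ^ (d - 1 - i)‖ ≤
      ∑ i ∈ Finset.range d, (1 / 4 : ℝ) ^ (d - 1) := by
    refine (norm_sum_le _ _).trans (Finset.sum_le_sum fun i hi => ?_)
    rw [Finset.mem_range] at hi
    have e : d - 1 = i + (d - 1 - i) := by omega
    rw [norm_mul, norm_pow, norm_pow]
    conv_rhs => rw [e, pow_add]
    gcongr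
  rw [Finset.sum_const, Finset.card_range, nsmul_eq_mul] at h1
  refine h1.trans ?_
  have h2 : ∀ n : ℕ, ((n + 2 : ℕ) : ℝ) * (1 / 4 : ℝ) ^ (n + 1) ≤ 1 / 2 := by
    intro n
    induction n with
    | zero => norm_num
    | succ n ih =>
      have h3 : (0 : ℝ) ≤ (1 / 4 : ℝ) ^ (n + 1) := by positivity
      have h4 : (0 : ℝ) ≤ n := Nat.cast_nonneg n
      push_cast at ih ⊢
      rw [pow_succ]
      nlinarith [mul_nonneg h4 h3]
  obtain ⟨n, rfl⟩ : ∃ n, d = n + 2 := ⟨d - 2, by omega⟩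
  exact h2 n

theorem sml {d : ℕ} (hd : 2 ≤ d) {P Q : ℂ[X]} (hP : P.natDegree ≤ d) (hQ : Q.natDegree ≤ d) (h0 : P ≠ 0 ∨ Q ≠ 0) :
    ∃ P' Q' : ℂ[X], IsCoprime P' Q' ∧ max P'.natDegree Q'.natDegree = d ∧ (∃ z m, IsSink (rat P' Q') z m) ∧
      Nd d (P - P') + Nd d (Q - Q') ≤ 3 * (Nd d P + Nd d Q) := by
  have hN := Nd_pos hP hQ h0
  obtain ⟨s, hs0, hs⟩ : ∃ s : ℝ, 0 < s ∧ 4 * s ^ 2 ≤ Nd d P + Nd d Q := by
    refine ⟨√((Nd d P + Nd d Q) / 4), Real.sqrt_pos.mpr (by positivity), ?_⟩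
    rw [Real.sq_sqrt (by positivity)]
    linarith
  have hsC : (s : ℂ) ≠ 0 := by exact_mod_cast hs0.ne'
  have hsn : ‖(s : ℂ)‖ ^ 2 = s ^ 2 := by
    rw [Complex.norm_real, Real.norm_of_nonneg hs0.le]
  refine ⟨C (s : ℂ) * X ^ d, C (s : ℂ), ?_, ?_, ?_, ?_⟩
  · refine ⟨0, C (1 / (s : ℂ)), ?_⟩
    rw [zero_mul, zero_add, ← C_mul, one_div_mul_cancel hsC, C_1]
  · rw [natDegree_C_mul_X_pow d _ hsC, natDegree_C]
    exact max_eq_left (Nat.zero_le d)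
  · have key : ∃ z ∈ Metric.ball (0 : ℂ) (1 / 4),
        IsSink (rat (C (s : ℂ) * X ^ d) (C (s : ℂ))) (z : OnePoint ℂ) 1 ∧
        ∀ w ∈ Metric.closedBall (0 : ℂ) (1 / 4),
          Filter.Tendsto (fun k : ℕ =>
            (rat (C (s : ℂ) * X ^ d) (C (s : ℂ)))^[1 * k] (w : OnePoint ℂ)) Filter.atTop
            (nhds (z : OnePoint ℂ)) ∧
          ∀ k : ℕ, ∃ y ∈ Metric.closedBall (0 : ℂ) (1 / 4),
            (rat (C (s : ℂ) * X ^ d) (C (s : ℂ)))^[1 * k] (w : OnePoint ℂ) = (y : OnePoint ℂ) := by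
      refine sink_of_contr (F := fun z => z ^ d) (q := 1 / 2) one_pos (by norm_num)
        (by norm_num) (by norm_num) (fun z _ => ?_) (fun z hz => ?_) (fun z hz w hw => ?_)
      · rw [Function.iterate_one]
        have h1 : (C (s : ℂ)).eval z ≠ 0 := by rwa [eval_C]
        rw [rat_coe_of_ne h1]
        congr 1
        rw [eval_mul, eval_C, eval_pow, eval_X, mul_div_cancel_left₀ _ hsC]
      · rw [Metric.mem_closedBall, dist_zero_right] at hz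
        rw [Metric.mem_ball, dist_zero_right, norm_pow]
        calc ‖z‖ ^ d ≤ (1 / 4 : ℝ) ^ d := pow_le_pow_left₀ (norm_nonneg _) hz d
          _ ≤ (1 / 4 : ℝ) ^ 2 := pow_le_pow_of_le_one (by norm_num) (by norm_num) hd
          _ < 1 / 4 := by norm_num
      · rw [Metric.mem_closedBall, dist_zero_right] at hz hw
        exact pow_lip hd hz hw
    obtain ⟨z, _, hz, _⟩ := key
    exact ⟨_, _, hz⟩
  · have h1 := Nd_sub1 d P (C (s : ℂ) * X ^ d)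
    have h2 := Nd_sub1 d Q (C (s : ℂ))
    rw [Nd_top, hsn] at h1
    rw [Nd_bot, hsn] at h2
    linarith

end Pool.Agent.H73.GP
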