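import Pool.Agent.H73.GP.Lrg
import Pool.Agent.H73.GP.Cst
import Pool.Agent.H73.GP.Sml
import Pool.Agent.H84.BR.Exr
import Pool.Agent.H84.PT.Rat

/-!
[H73 GP EQV]  The density of maps with an attracting cycle and the gap theorem.

Proofs.
* `sink_dense`: `cst`, `lrg` (`N = Nd d P + Nd d Q`, `Nd_pos`) for `d ≥ d0`; `sml` for `2 ≤ d < d0` (`C ≥ 3 d0^2/(log 2)^2`).
* `app_of_fatou`: given `(P, Q)`, `sink_dense` gives `(P1, Q1)`, the hypothesis gives hyperbolic `(A, B)` coefficientwise within `η` of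
  `(P1, Q1)` (`Lim`, `Near`); `Nd (P - A) ≤ 2 Nd (P - P1) + 2 Nd (P1 - A)`, `Nd_small`, `η` with
  `2 * 2 (d+1) η^2 ≤ (log d)^2/d^2 (Nd P + Nd Q)`. `Hyp A B` from `HypMap (rat A B)`: `hyp_iff` (`H32/BT`), as in
  `Results/MP_8f2e1c_an/ExactRate.lean`. `C' = 2 C + 1`.
* `gap`: (c) → (b): `app_of_fatou`; (b) → (a): `(log d)^2/d → 0`; (a) → (c): `App d κ` restricted to coprime pairs is `SinkApp d κ`
  (`hyp_iff`), `sink_equiv` (`H84/PT/Rat.lean`).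
-/

set_option autoImplicit false

open Polynomial ComplexConjugate Filter Topology

namespace Pool.Agent.H73.GP

open Pool.Agent.H85.LD (Nd)
open Pool.Agent.H44.Fatou Pool.Agent.H32.BT Pool.Agent.H84.BR Pool.Agent.H84.PT

theorem sink_dense : ∃ C : ℝ, 0 < C ∧ ∀ d : ℕ, 2 ≤ d → ∀ P Q : ℂ[X], P.natDegree ≤ d → Q.natDegree ≤ d →
    (P ≠ 0 ∨ Q ≠ 0) → ∃ P' Q' : ℂ[X], IsCoprime P' Q' ∧ max P'.natDegree Q'.natDegree = d ∧
      (∃ z m, IsSink (rat P' Q') z m) ∧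
      Nd d (P - P') + Nd d (Q - Q') ≤ C * (Real.log d) ^ 2 / d ^ 2 * (Nd d P + Nd d Q) := by
  obtain ⟨d0, _, H⟩ := cst
  have hl2 : 0 < Real.log 2 := Real.log_pos (by norm_num)
  refine ⟨10 ^ 17 + 3 * (d0 : ℝ) ^ 2 / Real.log 2 ^ 2, by positivity, ?_⟩
  intro d hd P Q hP hQ h0
  have hN := Nd_pos hP hQ h0
  have hdR : (2 : ℝ) ≤ d := by exact_mod_cast hd
  have hdp : (0 : ℝ) < d := by linarith
  rcases le_or_gt d0 d with h | h
  · obtain ⟨K, δ, h1, h2, h3, h4, h5, h6, h7⟩ := H d h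
    have hSc : Sc d K δ (Nd d P + Nd d Q) P Q := ⟨hd, h1, h2, h3, h4, hN, hP, hQ, le_refl _⟩
    obtain ⟨P', Q', g1, g2, g3, g4⟩ := lrg hSc h5 h6
    refine ⟨P', Q', g1, g2, g3, g4.trans ?_⟩
    have e1 := mul_le_mul_of_nonneg_left h7 hN.le
    refine e1.trans ?_
    rw [mul_comm (Nd d P + Nd d Q)]
    refine mul_le_mul_of_nonneg_right ?_ hN.le
    have e2 : 0 ≤ 3 * (d0 : ℝ) ^ 2 / Real.log 2 ^ 2 := by positivity
    have e3 : 10 ^ 17 * Real.log d ^ 2 ≤ (10 ^ 17 + 3 * (d0 : ℝ) ^ 2 / Real.log 2 ^ 2) * Real.log d ^ 2 :=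
      mul_le_mul_of_nonneg_right (by linarith) (sq_nonneg _)
    exact div_le_div_of_nonneg_right e3 (by positivity)
  · obtain ⟨P', Q', g1, g2, g3, g4⟩ := sml hd hP hQ h0
    refine ⟨P', Q', g1, g2, g3, g4.trans ?_⟩
    refine mul_le_mul_of_nonneg_right ?_ hN.le
    rw [le_div_iff₀ (by positivity)]
    have e1 : Real.log 2 ≤ Real.log d := Real.log_le_log (by norm_num) hdR
    have e2 : Real.log 2 ^ 2 ≤ Real.log d ^ 2 := pow_le_pow_left₀ hl2.le e1 2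
    have e3 : (d : ℝ) ≤ d0 := by exact_mod_cast h.le
    have e4 : (d : ℝ) ^ 2 ≤ (d0 : ℝ) ^ 2 := pow_le_pow_left₀ hdp.le e3 2
    have e5 : 3 * (d0 : ℝ) ^ 2 / Real.log 2 ^ 2 * Real.log 2 ^ 2 = 3 * (d0 : ℝ) ^ 2 := by
      field_simp
    have e6 : 3 * (d0 : ℝ) ^ 2 / Real.log 2 ^ 2 * Real.log 2 ^ 2 ≤
        3 * (d0 : ℝ) ^ 2 / Real.log 2 ^ 2 * Real.log d ^ 2 :=
      mul_le_mul_of_nonneg_left e2 (by positivity)
    have e7 : 0 ≤ 10 ^ 17 * Real.log d ^ 2 := by positivity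
    linarith

/-- Fatou's conjecture for the rational maps with an attracting cycle -/
def FatouSink : Prop := ∀ (n : ℕ) (P Q : ℂ[X]), 2 ≤ n → IsCoprime P Q → max P.natDegree Q.natDegree = n →
  (∃ z m, IsSink (rat P Q) z m) → Lim n P Q

theorem app_of_fatou (hF : FatouSink) : ∃ C : ℝ, ∀ d : ℕ, 2 ≤ d → App d (C * (Real.log d) ^ 2 / d ^ 2) := by
  obtain ⟨C, hC, H⟩ := sink_dense
  refine ⟨2 * C + 1, ?_⟩
  intro d hd P Q hP hQ h0
  have hN := Nd_pos hP hQ h0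
  have hdR : (2 : ℝ) ≤ d := by exact_mod_cast hd
  have hdp : (0 : ℝ) < d := by linarith
  have hlog : 0 < Real.log d := Real.log_pos (by linarith)
  obtain ⟨P1, Q1, g1, g2, g3, g4⟩ := H d hd P Q hP hQ h0
  obtain ⟨N, hNN⟩ : ∃ N : ℝ, N = Nd d P + Nd d Q := ⟨_, rfl⟩
  obtain ⟨L, hL⟩ : ∃ L : ℝ, L = Real.log d ^ 2 / (d : ℝ) ^ 2 := ⟨_, rfl⟩
  have hL0 : 0 < L := by rw [hL]; positivity
  have e0 : C * Real.log d ^ 2 / (d : ℝ) ^ 2 = C * L := by rw [hL]; ring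
  have e0' : (2 * C + 1) * Real.log d ^ 2 / (d : ℝ) ^ 2 = (2 * C + 1) * L := by rw [hL]; ring
  rw [← hNN] at hN
  rw [e0, ← hNN] at g4
  rw [e0', ← hNN]
  obtain ⟨δ, hδ⟩ : ∃ δ : ℝ, δ = min 1 (L * N / (4 * (d + 1))) := ⟨_, rfl⟩
  have hδ0 : 0 < δ := by
    rw [hδ]
    exact lt_min one_pos (by positivity)
  have hδ1 : δ ≤ 1 := by rw [hδ]; exact min_le_left _ _
  have hδ2 : δ * (4 * (d + 1)) ≤ L * N := by
    have h1 : δ ≤ L * N / (4 * (d + 1)) := by rw [hδ]; exact min_le_right _ _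
    rwa [le_div_iff₀ (by positivity)] at h1
  obtain ⟨P', Q', k1, k2, k3, k4⟩ := hF d P1 Q1 hd g1 g2 g3 δ hδ0
  refine ⟨P', Q', k1, k2, (hyp_iff k1 (by rw [k2]; omega)).2 k4, ?_⟩
  have h1 : Nd d (P1 - P') ≤ (d + 1) * δ ^ 2 := Pool.Agent.H84.PT.Nd_small fun i => by
    rw [coeff_sub, norm_sub_rev]
    exact (k3 i).1.le
  have h2 : Nd d (Q1 - Q') ≤ (d + 1) * δ ^ 2 := Pool.Agent.H84.PT.Nd_small fun i => by
    rw [coeff_sub, norm_sub_rev]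
    exact (k3 i).2.le
  have h3 : ((d : ℝ) + 1) * δ ^ 2 ≤ (d + 1) * δ := by
    have h4 : δ ^ 2 ≤ δ := by nlinarith
    exact mul_le_mul_of_nonneg_left h4 (by positivity)
  have f1 := Pool.Agent.H84.PT.Nd_add d (P - P1) (P1 - P')
  have f2 := Pool.Agent.H84.PT.Nd_add d (Q - Q1) (Q1 - Q')
  rw [sub_add_sub_cancel] at f1 f2
  nlinarith

private theorem app_mono {d : ℕ} {κ κ' : ℝ} (h : κ ≤ κ') (hA : App d κ) : App d κ' := by
  intro P Q hP hQ h0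
  obtain ⟨P', Q', h1, h2, h3, h4⟩ := hA P Q hP hQ h0
  exact ⟨P', Q', h1, h2, h3, h4.trans (mul_le_mul_of_nonneg_right h (Nd_pos hP hQ h0).le)⟩

private theorem app_sink {d : ℕ} (hd : 1 ≤ d) {κ : ℝ} (hA : App d κ) : SinkApp d κ := by
  intro P Q h hm _
  have hP : P.natDegree ≤ d := by rw [← hm]; exact le_max_left _ _
  have hQ : Q.natDegree ≤ d := by rw [← hm]; exact le_max_right _ _
  have h0 : P ≠ 0 ∨ Q ≠ 0 := by
    by_contra hcon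
    push Not at hcon
    rw [hcon.1, hcon.2, isCoprime_zero_left] at h
    exact not_isUnit_zero h
  obtain ⟨P', Q', h1, h2, h3, h4⟩ := hA P Q hP hQ h0
  exact ⟨P', Q', h1, h2, (hyp_iff h1 (by rw [h2]; exact hd)).1 h3, h4⟩

private theorem small_log (C : ℝ) {c : ℝ} (hc : 0 < c) (d0 : ℕ) :
    ∃ d : ℕ, d0 ≤ d ∧ 2 ≤ d ∧ C * Real.log d ^ 2 / (d : ℝ) ^ 2 ≤ c / d := by
  have h1 : (fun x : ℝ => Real.log x ^ 2) =o[atTop] (fun x : ℝ => x) :=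
    Real.isLittleO_pow_log_id_atTop (n := 2)
  have h2 := h1.bound (show (0 : ℝ) < c / (|C| + 1) by positivity)
  have h3 := (tendsto_natCast_atTop_atTop (R := ℝ)).eventually h2
  obtain ⟨d, hd, hd0, hd2⟩ := (h3.and ((eventually_ge_atTop d0).and (eventually_ge_atTop 2))).exists
  refine ⟨d, hd0, hd2, ?_⟩
  have hdp : (0 : ℝ) < d := by exact_mod_cast (by omega : 0 < d)
  rw [Real.norm_of_nonneg (sq_nonneg _), Real.norm_of_nonneg hdp.le] at hd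
  have e1 : C * Real.log d ^ 2 ≤ c * d := by
    have hCa : C ≤ |C| + 1 := (le_abs_self C).trans (by linarith)
    have e2 : C * Real.log d ^ 2 ≤ (|C| + 1) * Real.log d ^ 2 :=
      mul_le_mul_of_nonneg_right hCa (sq_nonneg _)
    have e3 : (|C| + 1) * Real.log d ^ 2 ≤ (|C| + 1) * (c / (|C| + 1) * d) :=
      mul_le_mul_of_nonneg_left hd (by positivity)
    have e4 : (|C| + 1) * (c / (|C| + 1) * d) = c * d := by
      have : (0 : ℝ) < |C| + 1 := by positivity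
      field_simp
    linarith
  rw [div_le_div_iff₀ (by positivity) hdp]
  have e5 := mul_le_mul_of_nonneg_right e1 hdp.le
  calc C * Real.log d ^ 2 * d ≤ c * d * d := e5
    _ = c * (d : ℝ) ^ 2 := by ring

private theorem fatou_of_app (hA : ∀ c : ℝ, 0 < c → ∀ d0 : ℕ, ∃ d : ℕ, d0 ≤ d ∧ App d (c / d)) : FatouSink := by
  refine sink_equiv.2 ?_
  intro c hc d0
  obtain ⟨d, h1, h2⟩ := hA c hc (max d0 1)
  exact ⟨d, (le_max_left _ _).trans h1, app_sink ((le_max_right _ _).trans h1) h2⟩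

theorem gap : (FatouSink ↔ ∀ c : ℝ, 0 < c → ∀ d0 : ℕ, ∃ d : ℕ, d0 ≤ d ∧ App d (c / d)) ∧
    (FatouSink ↔ ∃ C : ℝ, ∀ d : ℕ, 2 ≤ d → App d (C * (Real.log d) ^ 2 / d ^ 2)) := by
  have key : (∃ C : ℝ, ∀ d : ℕ, 2 ≤ d → App d (C * (Real.log d) ^ 2 / d ^ 2)) →
      ∀ c : ℝ, 0 < c → ∀ d0 : ℕ, ∃ d : ℕ, d0 ≤ d ∧ App d (c / d) := by
    rintro ⟨C, hC⟩ c hc d0
    obtain ⟨d, h1, h2, h3⟩ := small_log C hc d0
    exact ⟨d, h1, app_mono h3 (hC d h2)⟩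
  exact ⟨⟨fun hF => key (app_of_fatou hF), fatou_of_app⟩, ⟨app_of_fatou, fun h => fatou_of_app (key h)⟩⟩

end Pool.Agent.H73.GP
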