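import Pool.Agent.H73.GP.Bes

/-!
[H73 GP FLT]  A disc of radius `2 δ` on which `nn` is at most `14000 K N / d`.

Proof. `m = ⌊1/(12 δ)⌋₊ ≥ 1/(24 δ)` (`δ ≤ 1/100`), centres `v_{ij} = 8 δ (i + j I)`, `0 ≤ i, j < m`: `|v_{ij}| ≤ 8 √2 δ m ≤ 1`. `nn` is
continuous: let `x_{ij}` be a maximum point of `nn` on the closed disc of radius `2δ` about `v_{ij}`. Different centres have distance
`≥ 8 δ`, so different `x` have distance `≥ 4 δ`, `|x| ≤ 1.02`, `sg x y^2 ≥ 16 δ^2/(1+1.02^2)^2 ≥ 3.8 δ^2`,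
`(1 - sg^2)^d ≤ exp (-d sg^2) ≤ exp (-45 K) ≤ 1/d^2 ≤ 1/J^2`, `J = m^2 ≤ 1/(144 δ^2) = d/(1728 K) ≤ d` (`K ≥ log d`). `bessel` for `P` and
`Q` (`S` the set of the `J` different points `x_{ij}`), `nn_al`: `∑ nn x ≤ 2 N`, so `nn x ≤ 2 N/J` for one of them, and
`J ≥ 1/(576 δ^2) = d/(6912 K)`.
-/

set_option autoImplicit false

open Polynomial ComplexConjugate

namespace Pool.Agent.H73.GP

open Pool.Agent.H85.LD (Nd wm sg ph Gc en)

/-- centres of the grid -/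
private noncomputable def vc (δ : ℝ) (p : ℕ × ℕ) : ℂ := ⟨8 * δ * p.1, 8 * δ * p.2⟩

private theorem vc_sep {δ : ℝ} (hδ : 0 < δ) (p q : ℕ × ℕ) (h : p ≠ q) : 8 * δ ≤ ‖vc δ p - vc δ q‖ := by
  have key : ∀ a b : ℕ, a ≠ b → (1 : ℝ) ≤ |(a : ℝ) - b| := by
    intro a b hab
    have h1 : (1 : ℤ) ≤ |(a : ℤ) - b| := Int.one_le_abs (by omega)
    exact_mod_cast h1
  by_cases h1 : p.1 = q.1
  · have h2 : p.2 ≠ q.2 := fun h3 => h (Prod.ext h1 h3)
    have h3 := key _ _ h2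
    have h4 := Complex.abs_im_le_norm (vc δ p - vc δ q)
    have h5 : (vc δ p - vc δ q).im = 8 * δ * ((p.2 : ℝ) - q.2) := by
      simp [vc]
      ring
    rw [h5, abs_mul, abs_of_pos (by positivity : (0 : ℝ) < 8 * δ)] at h4
    nlinarith
  · have h3 := key _ _ h1
    have h4 := Complex.abs_re_le_norm (vc δ p - vc δ q)
    have h5 : (vc δ p - vc δ q).re = 8 * δ * ((p.1 : ℝ) - q.1) := by
      simp [vc]
      ring
    rw [h5, abs_mul, abs_of_pos (by positivity : (0 : ℝ) < 8 * δ)] at h4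
    nlinarith

private theorem vc_norm {δ : ℝ} (hδ : 0 < δ) {m : ℕ} (hm : 12 * δ * m ≤ 1) (p : ℕ × ℕ) (h1 : p.1 < m) (h2 : p.2 < m) :
    ‖vc δ p‖ ≤ 1 := by
  have h3 : ‖vc δ p‖ ^ 2 ≤ 1 := by
    rw [← Complex.normSq_eq_norm_sq, Complex.normSq_apply]
    show 8 * δ * p.1 * (8 * δ * p.1) + 8 * δ * p.2 * (8 * δ * p.2) ≤ 1
    have h4 : (p.1 : ℝ) ≤ m := by exact_mod_cast h1.le
    have h5 : (p.2 : ℝ) ≤ m := by exact_mod_cast h2.le
    have h6 : 12 * δ * (p.1 : ℝ) ≤ 1 := le_trans (by gcongr) hm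
    have h7 : 12 * δ * (p.2 : ℝ) ≤ 1 := le_trans (by gcongr) hm
    have h8 : 0 ≤ 12 * δ * (p.1 : ℝ) := by positivity
    have h9 : 0 ≤ 12 * δ * (p.2 : ℝ) := by positivity
    nlinarith
  have h4 := norm_nonneg (vc δ p)
  nlinarith

theorem flt {d : ℕ} {K δ N : ℝ} {P Q : ℂ[X]} (h : Sc d K δ N P Q) (hK : Real.log d ≤ K) :
    ∃ v : ℂ, ‖v‖ ≤ 1 ∧ ∀ z : ℂ, ‖z - v‖ ≤ 2 * δ → nn d P Q z ≤ 14000 * K * N / d := by
  classical
  by_contra hcon
  push Not at hcon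
  have hδ := h.δ0
  have hδ1 := h.δ1
  have hK4 := h.K4
  have hdK := h.dK
  have hN := h.N0
  have hd2 : (2 : ℝ) ≤ d := by exact_mod_cast h.d2
  have hd0 : (0 : ℝ) < d := by linarith
  obtain ⟨m, hm⟩ : ∃ m : ℕ, m = ⌊1 / (12 * δ)⌋₊ := ⟨_, rfl⟩
  have hm1 : (m : ℝ) ≤ 1 / (12 * δ) := by
    rw [hm]
    exact Nat.floor_le (by positivity)
  have hm2 : 1 / (12 * δ) < m + 1 := by
    rw [hm]
    exact Nat.lt_floor_add_one _
  have hm3 : 12 * δ * m ≤ 1 := by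
    rw [le_div_iff₀ (by positivity)] at hm1
    linarith
  have hm4 : 1 ≤ 24 * δ * m := by
    rw [div_lt_iff₀ (by positivity)] at hm2
    nlinarith
  choose x hx1 hx2 using hcon
  have hx : ∀ p : ℕ × ℕ, p.1 < m → p.2 < m → ∃ y : ℂ, ‖y - vc δ p‖ ≤ 2 * δ ∧ 14000 * K * N / d < nn d P Q y := by
    intro p h1 h2
    exact ⟨_, hx1 _ (vc_norm hδ hm3 p h1 h2), hx2 _ (vc_norm hδ hm3 p h1 h2)⟩
  clear hx1 hx2 x
  have hx' : ∀ p : ℕ × ℕ, ∃ y : ℂ, p.1 < m → p.2 < m → ‖y - vc δ p‖ ≤ 2 * δ ∧ 14000 * K * N / d < nn d P Q y := by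
    intro p
    by_cases h1 : p.1 < m ∧ p.2 < m
    · obtain ⟨y, hy⟩ := hx p h1.1 h1.2
      exact ⟨y, fun _ _ => hy⟩
    · exact ⟨0, fun h2 h3 => absurd ⟨h2, h3⟩ h1⟩
  choose x hx3 using hx'
  have hsep : ∀ p q : ℕ × ℕ, p.1 < m → p.2 < m → q.1 < m → q.2 < m → p ≠ q → 4 * δ ≤ ‖x p - x q‖ := by
    intro p q h1 h2 h3 h4 h5
    have h6 := vc_sep hδ p q h5
    have h7 := (hx3 p h1 h2).1
    have h8 := (hx3 q h3 h4).1
    have h9 : vc δ p - vc δ q = (x p - x q) - (x p - vc δ p) + (x q - vc δ q) := by ring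
    have h10 : ‖vc δ p - vc δ q‖ ≤ ‖x p - x q‖ + ‖x p - vc δ p‖ + ‖x q - vc δ q‖ := by
      rw [h9]
      exact (norm_add_le _ _).trans (by gcongr; exact norm_sub_le _ _)
    linarith
  have hxn : ∀ p : ℕ × ℕ, p.1 < m → p.2 < m → ‖x p‖ ≤ 102 / 100 := by
    intro p h1 h2
    have h3 := (hx3 p h1 h2).1
    have h4 := vc_norm hδ hm3 p h1 h2
    have h5 : ‖x p‖ ≤ ‖x p - vc δ p‖ + ‖vc δ p‖ := by
      have h6 : x p = (x p - vc δ p) + vc δ p := by ring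
      calc ‖x p‖ = ‖(x p - vc δ p) + vc δ p‖ := by rw [← h6]
        _ ≤ _ := norm_add_le _ _
    linarith
  obtain ⟨S, hS⟩ : ∃ S : Finset ℂ, S = (Finset.range m ×ˢ Finset.range m).image x := ⟨_, rfl⟩
  have hinj : Set.InjOn x ((Finset.range m ×ˢ Finset.range m : Finset (ℕ × ℕ)) : Set (ℕ × ℕ)) := by
    intro p hp q hq hpq
    rw [Finset.mem_coe, Finset.mem_product, Finset.mem_range, Finset.mem_range] at hp hq
    by_contra hne
    have h1 := hsep p q hp.1 hp.2 hq.1 hq.2 hne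
    rw [hpq, sub_self, norm_zero] at h1
    linarith
  have hcard : S.card = m * m := by
    rw [hS, Finset.card_image_of_injOn hinj, Finset.card_product, Finset.card_range]
  have hJ : (S.card : ℝ) = (m : ℝ) ^ 2 := by
    rw [hcard]
    push_cast
    ring
  -- sizes of J
  have hmpos : (0 : ℝ) < m := by
    have : 0 < 24 * δ * m := by linarith
    exact (pos_iff_pos_of_mul_pos this).1 (by positivity)
  have hJ1 : (m : ℝ) ^ 2 * (1728 * K) ≤ d := by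
    have h1 : (12 * δ * m) ^ 2 ≤ 1 := by
      have h2 : 0 ≤ 12 * δ * m := by positivity
      nlinarith
    have h2 : (m : ℝ) ^ 2 * (1728 * K) = (12 * δ * m) ^ 2 * d := by
      have h3 : 1728 * K = 144 * (δ ^ 2 * d) := by rw [hdK]; ring
      rw [h3]
      ring
    rw [h2]
    nlinarith
  have hJ2 : (d : ℝ) ≤ (m : ℝ) ^ 2 * (6912 * K) := by
    have h1 : 1 ≤ (24 * δ * m) ^ 2 := by nlinarith
    have h2 : (m : ℝ) ^ 2 * (6912 * K) = (24 * δ * m) ^ 2 * d := by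
      have h3 : 6912 * K = 576 * (δ ^ 2 * d) := by rw [hdK]; ring
      rw [h3]
      ring
    rw [h2]
    nlinarith
  have hJd : (m : ℝ) ^ 2 ≤ d := by nlinarith [sq_nonneg (m : ℝ)]
  -- separation
  have hbes : ∀ a ∈ S, ∀ b ∈ S, a ≠ b → (1 - sg a b ^ 2) ^ d ≤ 1 / (S.card : ℝ) ^ 2 := by
    intro a ha b hb hab
    rw [hS, Finset.mem_image] at ha hb
    obtain ⟨p, hp, rfl⟩ := ha
    obtain ⟨q, hq, rfl⟩ := hb
    rw [Finset.mem_product, Finset.mem_range, Finset.mem_range] at hp hq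
    have hpq : p ≠ q := fun h1 => hab (by rw [h1])
    have h1 := hsep p q hp.1 hp.2 hq.1 hq.2 hpq
    have h2 := hxn p hp.1 hp.2
    have h3 := hxn q hq.1 hq.2
    have h4 : 38 / 10 * δ ^ 2 ≤ sg (x p) (x q) ^ 2 := by
      unfold sg
      rw [div_pow, Real.sq_sqrt (by positivity), le_div_iff₀ (by positivity)]
      have h5 : ‖x p‖ ^ 2 ≤ 10404 / 10000 := by nlinarith [norm_nonneg (x p)]
      have h6 : ‖x q‖ ^ 2 ≤ 10404 / 10000 := by nlinarith [norm_nonneg (x q)]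
      have h7 : 16 * δ ^ 2 ≤ ‖x p - x q‖ ^ 2 := by nlinarith
      have h8 : (1 + ‖x p‖ ^ 2) * (1 + ‖x q‖ ^ 2) ≤ (1 + 10404 / 10000) * (1 + 10404 / 10000) := by gcongr
      calc 38 / 10 * δ ^ 2 * ((1 + ‖x p‖ ^ 2) * (1 + ‖x q‖ ^ 2)) ≤
          38 / 10 * δ ^ 2 * ((1 + 10404 / 10000) * (1 + 10404 / 10000)) := by gcongr
        _ ≤ 16 * δ ^ 2 := by nlinarith [sq_nonneg δ]
        _ ≤ _ := h7
    have h5 : 1 - sg (x p) (x q) ^ 2 ≤ Real.exp (-(sg (x p) (x q) ^ 2)) := by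
      have := Real.add_one_le_exp (-(sg (x p) (x q) ^ 2))
      linarith
    have h6 : 0 ≤ 1 - sg (x p) (x q) ^ 2 := by
      rw [Pool.Agent.H85.LD.one_sub_sg_sq]
      positivity
    have h7 : (1 - sg (x p) (x q) ^ 2) ^ d ≤ Real.exp (-(2 * Real.log d)) := by
      calc (1 - sg (x p) (x q) ^ 2) ^ d ≤ Real.exp (-(sg (x p) (x q) ^ 2)) ^ d := by gcongr
        _ = Real.exp (-(d * sg (x p) (x q) ^ 2)) := by
          rw [← Real.exp_nat_mul]
          congr 1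
          ring
        _ ≤ Real.exp (-(2 * Real.log d)) := by
          apply Real.exp_le_exp.2
          have h8 : 38 / 10 * (δ ^ 2 * d) ≤ d * sg (x p) (x q) ^ 2 := by nlinarith
          rw [hdK] at h8
          linarith
    refine h7.trans ?_
    have h9 : Real.exp (2 * Real.log d) = (d : ℝ) ^ 2 := by
      rw [show 2 * Real.log (d : ℝ) = Real.log d + Real.log d by ring, Real.exp_add, Real.exp_log hd0]
      ring
    rw [Real.exp_neg, h9, hJ, one_div]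
    apply inv_anti₀ (by positivity)
    gcongr
  have hb1 := bessel d S hbes h.hP
  have hb2 := bessel d S hbes h.hQ
  have hsum : ∑ a ∈ S, nn d P Q a ≤ 2 * N := by
    simp_rw [nn_al]
    rw [Finset.sum_add_distrib]
    have := h.hN
    linarith
  have hlow : S.card • (14000 * K * N / d) ≤ ∑ a ∈ S, nn d P Q a := by
    apply Finset.card_nsmul_le_sum
    intro a ha
    rw [hS, Finset.mem_image] at ha
    obtain ⟨p, hp, rfl⟩ := ha
    rw [Finset.mem_product, Finset.mem_range, Finset.mem_range] at hp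
    exact (hx3 p hp.1 hp.2).2.le
  rw [nsmul_eq_mul, hJ] at hlow
  have h1 : (m : ℝ) ^ 2 * (14000 * K * N / d) ≤ 2 * N := hlow.trans hsum
  rw [mul_div_assoc', div_le_iff₀ hd0] at h1
  have hKN : 0 < K * N := by positivity
  nlinarith [mul_le_mul_of_nonneg_right hJ2 hN.le, mul_pos hd0 hN]

end Pool.Agent.H73.GP
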