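import Pool.Agent.H73.GP.Bmp

/-!
[H73 GP INT]  Interpolation: value and derivative at `c`, value at `w` (theorem `bmp`; the proof is in the header of `Bmp.lean`).
-/

set_option autoImplicit false

open Polynomial ComplexConjugate

namespace Pool.Agent.H73.GP

open Pool.Agent.H85.LD (Nd wm sg ph Gc en)

private theorem in_smul (d : ℕ) (c : ℂ) (G : ℂ[X]) : Nd d (C c * G) = ‖c‖ ^ 2 * Nd d G := by
  unfold Pool.Agent.H85.LD.Nd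
  rw [Finset.mul_sum]
  refine Finset.sum_congr rfl fun k _ => ?_
  rw [coeff_C_mul, norm_mul, mul_pow, mul_div_assoc]

private theorem in_add (d : ℕ) (A B : ℂ[X]) : Nd d (A + B) ≤ 2 * Nd d A + 2 * Nd d B := by
  unfold Pool.Agent.H85.LD.Nd
  rw [Finset.mul_sum, Finset.mul_sum, ← Finset.sum_add_distrib]
  refine Finset.sum_le_sum fun k _ => ?_
  have h1 : ‖(A + B).coeff k‖ ^ 2 ≤ 2 * ‖A.coeff k‖ ^ 2 + 2 * ‖B.coeff k‖ ^ 2 := by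
    rw [coeff_add]
    have h2 := norm_add_le (A.coeff k) (B.coeff k)
    have h3 : ‖A.coeff k + B.coeff k‖ ^ 2 ≤ (‖A.coeff k‖ + ‖B.coeff k‖) ^ 2 := by gcongr
    nlinarith [sq_nonneg (‖A.coeff k‖ - ‖B.coeff k‖)]
  calc ‖(A + B).coeff k‖ ^ 2 / (d.choose k : ℝ) ≤ (2 * ‖A.coeff k‖ ^ 2 + 2 * ‖B.coeff k‖ ^ 2) / (d.choose k : ℝ) := by
        gcongr
    _ = 2 * (‖A.coeff k‖ ^ 2 / (d.choose k : ℝ)) + 2 * (‖B.coeff k‖ ^ 2 / (d.choose k : ℝ)) := by ring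

private theorem in_norm (d : ℕ) (w : ℂ) (G : ℂ[X]) : ‖al d w G‖ = wm d G w := by
  unfold al Pool.Agent.H85.LD.wm
  rw [norm_mul, Complex.norm_real, Real.norm_of_nonneg (by positivity)]
  ring

private theorem in_sqrtd {d : ℕ} (hd : 2 ≤ d) : ((Real.sqrt d : ℝ) : ℂ) * ((1 / Real.sqrt d : ℝ) : ℂ) = 1 := by
  rw [← Complex.ofReal_mul]
  have h1 : (0 : ℝ) < Real.sqrt d := Real.sqrt_pos.2 (by positivity)
  rw [mul_one_div_cancel h1.ne', Complex.ofReal_one]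

/-- the first approximation -/
private theorem in_G0 {d : ℕ} (hd : 2 ≤ d) (c w : ℂ) (a b : ℂ) :
    ∃ G : ℂ[X], G.natDegree ≤ d ∧ al d c G = a ∧ be d c G = b ∧
      Nd d G ≤ 2 * (‖a‖ ^ 2 + ‖b‖ ^ 2) ∧
      ‖al d w G‖ ^ 2 ≤ 2 * d * (‖a‖ ^ 2 + ‖b‖ ^ 2) * (1 - sg w c ^ 2) ^ (d - 1) := by
  have hdp : (0 : ℝ) < (d : ℝ) := by positivity
  have hnb : ‖((Real.sqrt d : ℝ) : ℂ) * b‖ ^ 2 = d * ‖b‖ ^ 2 := by
    rw [norm_mul, Complex.norm_real, Real.norm_of_nonneg (Real.sqrt_nonneg _), mul_pow,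
      Real.sq_sqrt hdp.le]
  refine ⟨C a * en d c 0 + C (((Real.sqrt d : ℝ) : ℂ) * b) * en d c 1, ?_, ?_, ?_, ?_, ?_⟩
  · refine (natDegree_add_le _ _).trans (max_le ?_ ?_)
    · exact (natDegree_C_mul_le _ _).trans (Pool.Agent.H85.LD.en_deg d c 0 (Nat.zero_le _))
    · exact (natDegree_C_mul_le _ _).trans (Pool.Agent.H85.LD.en_deg d c 1 (by omega))
  · rw [al_add, al_C_mul, al_C_mul, al_en0, al_en1, mul_one, mul_zero, add_zero]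
  · rw [be_add, be_C_mul, be_C_mul, be_en0, be_en1 (by omega), mul_zero, zero_add]
    have h := in_sqrtd hd
    linear_combination b * h
  · refine (in_add _ _ _).trans ?_
    rw [in_smul, in_smul, Nd_en d c (Nat.zero_le _), Nd_en d c (show 1 ≤ d by omega), hnb,
      Nat.choose_zero_right, Nat.choose_one_right]
    have h1 : 2 * (‖a‖ ^ 2 * (1 / ((1 : ℕ) : ℝ))) + 2 * (d * ‖b‖ ^ 2 * (1 / (d : ℝ))) =
        2 * (‖a‖ ^ 2 + ‖b‖ ^ 2) := by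
      field_simp
      push_cast
      ring
    exact h1.le
  · have hs0 : 0 ≤ sg w c := Pool.Agent.H85.LD.sg_nonneg _ _
    have hs1 : sg w c ≤ 1 := Pool.Agent.H85.LD.sg_le_one _ _
    obtain ⟨s, hs⟩ : ∃ s, s = sg w c := ⟨_, rfl⟩
    rw [← hs] at hs0 hs1 ⊢
    have hq0 : 0 ≤ 1 - s ^ 2 := by nlinarith
    have hq1 : 1 - s ^ 2 ≤ 1 := by nlinarith
    have hn : ‖al d w (C a * en d c 0 + C (((Real.sqrt d : ℝ) : ℂ) * b) * en d c 1)‖ ≤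
        ‖a‖ * √((1 - s ^ 2) ^ d) + ‖((Real.sqrt d : ℝ) : ℂ) * b‖ * (s * √((1 - s ^ 2) ^ (d - 1))) := by
      rw [al_add, al_C_mul, al_C_mul]
      refine (norm_add_le _ _).trans ?_
      rw [norm_mul, norm_mul, in_norm, in_norm, Pool.Agent.H85.LD.en_wm d c 0 (Nat.zero_le _),
        Pool.Agent.H85.LD.en_wm d c 1 (by omega), pow_zero, one_mul, pow_one, Nat.sub_zero, ← hs]
    have h2 : ‖al d w (C a * en d c 0 + C (((Real.sqrt d : ℝ) : ℂ) * b) * en d c 1)‖ ^ 2 ≤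
        2 * (‖a‖ ^ 2 * (1 - s ^ 2) ^ d) + 2 * (d * ‖b‖ ^ 2 * (s ^ 2 * (1 - s ^ 2) ^ (d - 1))) := by
      have h3 := pow_le_pow_left₀ (norm_nonneg _) hn 2
      refine h3.trans ?_
      have e1 : ‖a‖ ^ 2 * (1 - s ^ 2) ^ d = (‖a‖ * √((1 - s ^ 2) ^ d)) ^ 2 := by
        rw [mul_pow, Real.sq_sqrt (by positivity)]
      have e2 : d * ‖b‖ ^ 2 * (s ^ 2 * (1 - s ^ 2) ^ (d - 1)) =
          (‖((Real.sqrt d : ℝ) : ℂ) * b‖ * (s * √((1 - s ^ 2) ^ (d - 1)))) ^ 2 := by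
        rw [mul_pow, hnb, mul_pow, Real.sq_sqrt (by positivity)]
      rw [e1, e2]
      nlinarith [sq_nonneg (‖a‖ * √((1 - s ^ 2) ^ d) -
        ‖((Real.sqrt d : ℝ) : ℂ) * b‖ * (s * √((1 - s ^ 2) ^ (d - 1))))]
    refine h2.trans ?_
    have hp : 0 ≤ (1 - s ^ 2) ^ (d - 1) := by positivity
    have e3 : (1 - s ^ 2) ^ d ≤ (1 - s ^ 2) ^ (d - 1) := pow_le_pow_of_le_one hq0 hq1 (by omega)
    have e4 : s ^ 2 * (1 - s ^ 2) ^ (d - 1) ≤ (1 - s ^ 2) ^ (d - 1) := by nlinarith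
    have hd1 : (1 : ℝ) ≤ d := by exact_mod_cast (show 1 ≤ d by omega)
    have e5 : ‖a‖ ^ 2 * (1 - s ^ 2) ^ d ≤ d * ‖a‖ ^ 2 * (1 - s ^ 2) ^ (d - 1) := by
      have h5 : ‖a‖ ^ 2 * (1 - s ^ 2) ^ d ≤ ‖a‖ ^ 2 * (1 - s ^ 2) ^ (d - 1) :=
        mul_le_mul_of_nonneg_left e3 (sq_nonneg _)
      have h6 : 0 ≤ ‖a‖ ^ 2 * (1 - s ^ 2) ^ (d - 1) := by positivity
      nlinarith
    have e6 : d * ‖b‖ ^ 2 * (s ^ 2 * (1 - s ^ 2) ^ (d - 1)) ≤ d * ‖b‖ ^ 2 * (1 - s ^ 2) ^ (d - 1) :=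
      mul_le_mul_of_nonneg_left e4 (by positivity)
    nlinarith

private theorem in_T (d : ℕ) (c w : ℂ) :
    al d c ((X - C c) ^ 2 * (1 + C (conj w) * X) ^ (d - 2)) = 0 ∧
    be d c ((X - C c) ^ 2 * (1 + C (conj w) * X) ^ (d - 2)) = 0 ∧
    ‖al d w ((X - C c) ^ 2 * (1 + C (conj w) * X) ^ (d - 2))‖ ^ 2 =
      (‖w - c‖ ^ 2) ^ 2 * (1 + ‖w‖ ^ 2) ^ (2 * (d - 2)) / (1 + ‖w‖ ^ 2) ^ d := by
  have h0 : ((X - C c) ^ 2 * (1 + C (conj w) * X) ^ (d - 2) : ℂ[X]).eval c = 0 := by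
    simp
  have h1 : (derivative ((X - C c) ^ 2 * (1 + C (conj w) * X) ^ (d - 2) : ℂ[X])).eval c = 0 := by
    rw [derivative_mul, eval_add, eval_mul, eval_mul, derivative_pow]
    simp
  refine ⟨?_, ?_, ?_⟩
  · unfold al
    rw [h0, mul_zero]
  · unfold be
    rw [h0, h1]
    ring
  · have h2 : ((X - C c) ^ 2 * (1 + C (conj w) * X) ^ (d - 2) : ℂ[X]).eval w =
        (w - c) ^ 2 * ((1 + ‖w‖ ^ 2 : ℝ) : ℂ) ^ (d - 2) := by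
      simp only [eval_mul, eval_pow, eval_sub, eval_X, eval_C, eval_add, eval_one]
      rw [Complex.conj_mul']
      push_cast
      ring
    unfold al
    rw [h2, norm_mul, norm_mul, norm_pow, norm_pow, Complex.norm_real, Complex.norm_real,
      Real.norm_of_nonneg (by positivity), Real.norm_of_nonneg (by positivity), mul_pow, mul_pow,
      div_pow, one_pow, Real.sq_sqrt (by positivity), ← pow_mul (1 + ‖w‖ ^ 2) (d - 2) 2,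
      mul_comm (d - 2) 2]
    ring

theorem bmp {d : ℕ} (hd : 2 ≤ d) {c w : ℂ} {σ : ℝ} (hσ : 0 < σ) (hs : σ ≤ sg w c)
    (h : 32 * d * (1 - σ ^ 2) ^ (d - 1) ≤ σ ^ 4) (a b ω : ℂ) :
    ∃ G : ℂ[X], G.natDegree ≤ d ∧ al d c G = a ∧ be d c G = b ∧ al d w G = ω ∧
      Nd d G ≤ 5 * (‖a‖ ^ 2 + ‖b‖ ^ 2) + 16 * ‖ω‖ ^ 2 / σ ^ 4 := by
  obtain ⟨G0, hG0d, hG0a, hG0b, hG0N, hG0w⟩ := in_G0 hd c w a b
  obtain ⟨hTa, hTb, hTw⟩ := in_T d c w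
  obtain ⟨hTd, hTN⟩ := dbl hd c w
  obtain ⟨T, hT⟩ : ∃ T : ℂ[X], T = (X - C c) ^ 2 * (1 + C (conj w) * X) ^ (d - 2) := ⟨_, rfl⟩
  rw [← hT] at hTa hTb hTw hTd hTN
  have hs1 : sg w c ≤ 1 := Pool.Agent.H85.LD.sg_le_one _ _
  have hsp : 0 < sg w c := hσ.trans_le hs
  have hsq := Pool.Agent.H85.LD.sg_sq w c
  have hwc : 0 < ‖w - c‖ ^ 2 := by
    by_contra hcon
    have h1 : ‖w - c‖ ^ 2 = 0 := le_antisymm (not_lt.1 hcon) (sq_nonneg _)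
    rw [h1, zero_div] at hsq
    exact absurd hsq (by positivity)
  have hW : (0 : ℝ) < 1 + ‖w‖ ^ 2 := by positivity
  have hCc : (0 : ℝ) < 1 + ‖c‖ ^ 2 := by positivity
  have hTpos : 0 < ‖al d w T‖ ^ 2 := by rw [hTw]; positivity
  have hTne : al d w T ≠ 0 := by
    intro h0
    rw [h0] at hTpos
    simp at hTpos
  obtain ⟨κ, hκ⟩ : ∃ κ : ℂ, κ = (ω - al d w G0) / al d w T := ⟨_, rfl⟩
  refine ⟨G0 + C κ * T, ?_, ?_, ?_, ?_, ?_⟩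
  · exact (natDegree_add_le _ _).trans (max_le hG0d ((natDegree_C_mul_le _ _).trans hTd))
  · rw [al_add, al_C_mul, hTa, hG0a, mul_zero, add_zero]
  · rw [be_add, be_C_mul, hTb, hG0b, mul_zero, add_zero]
  · rw [al_add, al_C_mul, hκ, div_mul_cancel₀ _ hTne]
    ring
  · have h1 := in_add d G0 (C κ * T)
    rw [in_smul] at h1
    have hκn : ‖κ‖ ^ 2 * Nd d T ≤ 4 * ‖ω - al d w G0‖ ^ 2 / σ ^ 4 := by
      have h2 : ‖κ‖ ^ 2 * Nd d T ≤ ‖κ‖ ^ 2 * (4 * (1 + ‖c‖ ^ 2) ^ 2 * (1 + ‖w‖ ^ 2) ^ (d - 2)) :=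
        mul_le_mul_of_nonneg_left hTN (sq_nonneg _)
      refine h2.trans ?_
      have h3 : ‖κ‖ ^ 2 * (4 * (1 + ‖c‖ ^ 2) ^ 2 * (1 + ‖w‖ ^ 2) ^ (d - 2)) =
          4 * ‖ω - al d w G0‖ ^ 2 / sg w c ^ 4 := by
        rw [hκ, norm_div, div_pow, hTw, show sg w c ^ 4 = (sg w c ^ 2) ^ 2 by ring, hsq]
        obtain ⟨n, rfl⟩ : ∃ n, d = n + 2 := ⟨d - 2, by omega⟩
        rw [Nat.add_sub_cancel]
        have hp : (1 + ‖w‖ ^ 2) ^ (2 * n) = (1 + ‖w‖ ^ 2) ^ n * (1 + ‖w‖ ^ 2) ^ n := by ring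
        have hp2 : (1 + ‖w‖ ^ 2) ^ (n + 2) = (1 + ‖w‖ ^ 2) ^ n * (1 + ‖w‖ ^ 2) ^ 2 := by ring
        rw [hp, hp2]
        have hWn : (0 : ℝ) < (1 + ‖w‖ ^ 2) ^ n := by positivity
        generalize (1 + ‖w‖ ^ 2) ^ n = A at hWn ⊢
        generalize (1 + ‖w‖ ^ 2) = W at hW ⊢
        generalize (1 + ‖c‖ ^ 2) = V at hCc ⊢
        generalize ‖w - c‖ ^ 2 = D at hwc ⊢
        field_simp
      rw [h3]
      apply div_le_div_of_nonneg_left (by positivity) (by positivity)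
      exact pow_le_pow_left₀ hσ.le hs 4
    have hsub : ‖ω - al d w G0‖ ^ 2 ≤ 2 * ‖ω‖ ^ 2 + 2 * ‖al d w G0‖ ^ 2 := by
      have h4 := norm_sub_le ω (al d w G0)
      have h5 := pow_le_pow_left₀ (norm_nonneg _) h4 2
      nlinarith [sq_nonneg (‖ω‖ - ‖al d w G0‖)]
    have hs1' : σ ≤ 1 := hs.trans hs1
    have hmono : (1 - sg w c ^ 2) ^ (d - 1) ≤ (1 - σ ^ 2) ^ (d - 1) := by
      apply pow_le_pow_left₀
      · nlinarith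
      · nlinarith
    have hD : (0 : ℝ) ≤ 2 * d * (‖a‖ ^ 2 + ‖b‖ ^ 2) := by positivity
    have h6 : ‖al d w G0‖ ^ 2 ≤ 2 * d * (‖a‖ ^ 2 + ‖b‖ ^ 2) * (1 - σ ^ 2) ^ (d - 1) :=
      hG0w.trans (mul_le_mul_of_nonneg_left hmono hD)
    have h7 : 32 * d * (1 - σ ^ 2) ^ (d - 1) * (‖a‖ ^ 2 + ‖b‖ ^ 2) ≤ σ ^ 4 * (‖a‖ ^ 2 + ‖b‖ ^ 2) :=
      mul_le_mul_of_nonneg_right h (by positivity)
    have h8 : 16 * ‖al d w G0‖ ^ 2 ≤ σ ^ 4 * (‖a‖ ^ 2 + ‖b‖ ^ 2) := by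
      calc 16 * ‖al d w G0‖ ^ 2 ≤ 16 * (2 * d * (‖a‖ ^ 2 + ‖b‖ ^ 2) * (1 - σ ^ 2) ^ (d - 1)) :=
            mul_le_mul_of_nonneg_left h6 (by norm_num)
        _ = 32 * d * (1 - σ ^ 2) ^ (d - 1) * (‖a‖ ^ 2 + ‖b‖ ^ 2) := by ring
        _ ≤ _ := h7
    have hσ4 : 0 < σ ^ 4 := by positivity
    have h9 : 8 * ‖ω - al d w G0‖ ^ 2 / σ ^ 4 ≤ 16 * ‖ω‖ ^ 2 / σ ^ 4 + (‖a‖ ^ 2 + ‖b‖ ^ 2) := by
      rw [div_add' _ _ _ hσ4.ne', div_le_div_iff_of_pos_right hσ4]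
      linarith
    have h10 : 2 * (4 * ‖ω - al d w G0‖ ^ 2 / σ ^ 4) = 8 * ‖ω - al d w G0‖ ^ 2 / σ ^ 4 := by ring
    linarith

end Pool.Agent.H73.GP
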