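import Pool.Agent.H73.GP.Def

/-!
[H73 GP PLU]  Linear algebra in the plane `ℂ^2`.

Proofs.
* `dir`: if `a2 ≠ 0` take `v = a1/a2`: `|a1 - a2 w|^2 = |a2|^2 |v - w|^2 = |a2|^2 sg v w^2 (1+|v|^2)(1+|w|^2) = (|a1|^2+|a2|^2) sg v w ^2 (1+|w|^2)`
  (`sg_sq`). If `a2 = 0` take `v` real with `v ≥ 1/δ`, `v ≥ 1`: we need `1 ≤ 800 δ^2 (1+|w|^2)` when `sg v w ≤ 10 δ`. If `|w| ≥ v/2`:
  `800 δ^2 (1 + |w|^2) ≥ 200 δ^2 v^2 ≥ 200`. Otherwise `|v-w| ≥ v/2`, `v^2/4 ≤ |v-w|^2 = sg^2 (1+v^2)(1+|w|^2) ≤ 100 δ^2 * 2 v^2 (1+|w|^2)`.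
* `plu`: `A = |a1|^2+|a2|^2`, `B = |b1|^2+|b2|^2`, `D = |a1 b2 - a2 b1|^2 ≤ ε max A B`. Identity in `ℂ^2` (Plücker), componentwise, `ring`:
  `a (b1 - b2 w) = b (a1 - a2 w) + (w,1) (a1 b2... )` up to signs:  `a1 (b1 - b2 w) - b1 (a1 - a2 w) = -w (a1 b2 - a2 b1)`,
  `a2 (b1 - b2 w) - b2 (a1 - a2 w) = -(a1 b2 - a2 b1)`; so `√A |b1 - b2 w| ≤ √B |a1 - a2 w| + √D √(1+|w|^2)`, and
  `A |b1 - b2 w|^2 ≤ 2 B |a1 - a2 w|^2 + 2 D (1+|w|^2)`. If `A ≥ B`: `|a1 - a2 w|^2 ≤ τ A (1+|w|^2)` gives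
  `|b1 - b2 w|^2 ≤ (2 τ B + 2 ε)(1+|w|^2)` (if `A = 0` everything is `0`). Symmetric if `A ≤ B`.
-/

set_option autoImplicit false

open Polynomial ComplexConjugate

namespace Pool.Agent.H73.GP

open Pool.Agent.H85.LD (Nd wm sg ph Gc en)

theorem dir {δ : ℝ} (hδ : 0 < δ) (a1 a2 : ℂ) :
    ∃ v : ℂ, ∀ w : ℂ, sg v w ≤ 10 * δ → ‖a1 - a2 * w‖ ^ 2 ≤ 800 * δ ^ 2 * (‖a1‖ ^ 2 + ‖a2‖ ^ 2) * (1 + ‖w‖ ^ 2) := by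
  have key : ∀ v w : ℂ, sg v w ≤ 10 * δ →
      ‖v - w‖ ^ 2 ≤ 100 * δ ^ 2 * (1 + ‖v‖ ^ 2) * (1 + ‖w‖ ^ 2) := by
    intro v w h
    have h0 := Pool.Agent.H85.LD.sg_nonneg v w
    have h1 := Pool.Agent.H85.LD.sg_sq v w
    have h2 : 0 < (1 + ‖v‖ ^ 2) * (1 + ‖w‖ ^ 2) := by positivity
    have h3 : ‖v - w‖ ^ 2 = sg v w ^ 2 * ((1 + ‖v‖ ^ 2) * (1 + ‖w‖ ^ 2)) := by
      rw [h1]
      field_simp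
    have h4 : sg v w ^ 2 ≤ 100 * δ ^ 2 := by nlinarith
    rw [h3, mul_assoc (100 * δ ^ 2)]
    exact mul_le_mul_of_nonneg_right h4 h2.le
  by_cases h2 : a2 = 0
  · refine ⟨((max (1 / δ) 1 : ℝ) : ℂ), fun w hw => ?_⟩
    set V : ℝ := max (1 / δ) 1 with hV
    have hV1 : 1 ≤ V := le_max_right _ _
    have hV2 : 1 ≤ δ * V := by
      have h3 : 1 / δ ≤ V := le_max_left _ _
      rw [div_le_iff₀ hδ] at h3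
      linarith
    have hVn : ‖(V : ℂ)‖ = V := by
      rw [Complex.norm_real, Real.norm_eq_abs, abs_of_nonneg (by linarith)]
    have h3 := key _ _ hw
    rw [hVn] at h3
    have h4 : V - ‖w‖ ≤ ‖(V : ℂ) - w‖ := by
      have h5 := norm_sub_norm_le (V : ℂ) w
      rwa [hVn] at h5
    have h6 : 1 ≤ 800 * δ ^ 2 * (1 + ‖w‖ ^ 2) := by
      have hw0 : 0 ≤ ‖w‖ := norm_nonneg w
      have hVd : 1 ≤ δ ^ 2 * V ^ 2 := by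
        rw [← mul_pow]
        exact one_le_pow₀ hV2
      rcases le_total (V / 2) ‖w‖ with h7 | h7
      · have h8 : V ^ 2 / 4 ≤ ‖w‖ ^ 2 := by nlinarith
        have h9 : δ ^ 2 * (V ^ 2 / 4) ≤ δ ^ 2 * ‖w‖ ^ 2 :=
          mul_le_mul_of_nonneg_left h8 (by positivity)
        nlinarith [sq_nonneg δ]
      · have h8 : V / 2 ≤ ‖(V : ℂ) - w‖ := by linarith
        have h9 : V ^ 2 / 4 ≤ ‖(V : ℂ) - w‖ ^ 2 := by nlinarith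
        have h10 : (1 + V ^ 2) ≤ 2 * V ^ 2 := by nlinarith
        have h11 : 100 * δ ^ 2 * (1 + V ^ 2) * (1 + ‖w‖ ^ 2) ≤
            100 * δ ^ 2 * (2 * V ^ 2) * (1 + ‖w‖ ^ 2) := by gcongr
        have h12 : V ^ 2 * 1 ≤ V ^ 2 * (800 * δ ^ 2 * (1 + ‖w‖ ^ 2)) := by nlinarith
        exact le_of_mul_le_mul_left h12 (by positivity)
    rw [h2]
    simp only [zero_mul, sub_zero, norm_zero, ne_eq, OfNat.ofNat_ne_zero, not_false_eq_true,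
      zero_pow, add_zero]
    nlinarith [sq_nonneg ‖a1‖]
  · refine ⟨a1 / a2, fun w hw => ?_⟩
    have h3 := key _ _ hw
    have h4 : a1 - a2 * w = a2 * (a1 / a2 - w) := by
      field_simp
    have h5 : ‖a2‖ ^ 2 * (1 + ‖a1 / a2‖ ^ 2) = ‖a1‖ ^ 2 + ‖a2‖ ^ 2 := by
      have h6 : ‖a2‖ ≠ 0 := norm_ne_zero_iff.2 h2
      rw [norm_div]
      field_simp
      ring
    rw [h4, norm_mul, mul_pow]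
    calc ‖a2‖ ^ 2 * ‖a1 / a2 - w‖ ^ 2
        ≤ ‖a2‖ ^ 2 * (100 * δ ^ 2 * (1 + ‖a1 / a2‖ ^ 2) * (1 + ‖w‖ ^ 2)) :=
          mul_le_mul_of_nonneg_left h3 (by positivity)
      _ = 100 * δ ^ 2 * (‖a2‖ ^ 2 * (1 + ‖a1 / a2‖ ^ 2)) * (1 + ‖w‖ ^ 2) := by ring
      _ = 100 * δ ^ 2 * (‖a1‖ ^ 2 + ‖a2‖ ^ 2) * (1 + ‖w‖ ^ 2) := by rw [h5]
      _ ≤ 800 * δ ^ 2 * (‖a1‖ ^ 2 + ‖a2‖ ^ 2) * (1 + ‖w‖ ^ 2) := by gcongr; norm_num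

private theorem plu_aux {a1 a2 b1 b2 : ℂ} {δ ε : ℝ} (hδ : 0 < δ) (hε : 0 ≤ ε)
    (hAB : ‖b1‖ ^ 2 + ‖b2‖ ^ 2 ≤ ‖a1‖ ^ 2 + ‖a2‖ ^ 2)
    (hD : ‖a1 * b2 - a2 * b1‖ ^ 2 ≤ ε * (‖a1‖ ^ 2 + ‖a2‖ ^ 2)) :
    ∃ v : ℂ, ∀ w : ℂ, sg v w ≤ 10 * δ → ‖a1 - a2 * w‖ ^ 2 + ‖b1 - b2 * w‖ ^ 2 ≤
      (1600 * δ ^ 2 * ((‖a1‖ ^ 2 + ‖a2‖ ^ 2) + (‖b1‖ ^ 2 + ‖b2‖ ^ 2)) + 2 * ε) * (1 + ‖w‖ ^ 2) := by
  obtain ⟨v, hv⟩ := dir hδ a1 a2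
  refine ⟨v, fun w hw => ?_⟩
  have h1 := hv w hw
  set α : ℝ := ‖a1 - a2 * w‖ with hα
  set β : ℝ := ‖b1 - b2 * w‖ with hβ
  set Δ : ℝ := ‖a1 * b2 - a2 * b1‖ with hΔ
  set A : ℝ := ‖a1‖ ^ 2 + ‖a2‖ ^ 2 with hA
  set B : ℝ := ‖b1‖ ^ 2 + ‖b2‖ ^ 2 with hB
  have hA0 : 0 ≤ A := by positivity
  have hB0 : 0 ≤ B := by positivity
  have hW : 0 < 1 + ‖w‖ ^ 2 := by positivity
  have e1 : ‖a1‖ * β ≤ ‖b1‖ * α + ‖w‖ * Δ := by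
    have h2 : a1 * (b1 - b2 * w) = b1 * (a1 - a2 * w) + -(w * (a1 * b2 - a2 * b1)) := by ring
    rw [hβ, ← norm_mul, h2]
    refine (norm_add_le _ _).trans (le_of_eq ?_)
    rw [norm_neg, norm_mul, norm_mul]
  have e2 : ‖a2‖ * β ≤ ‖b2‖ * α + Δ := by
    have h2 : a2 * (b1 - b2 * w) = b2 * (a1 - a2 * w) + -(a1 * b2 - a2 * b1) := by ring
    rw [hβ, ← norm_mul, h2]
    refine (norm_add_le _ _).trans (le_of_eq ?_)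
    rw [norm_neg, norm_mul]
  have hβ0 : 0 ≤ β := norm_nonneg _
  have hα0 : 0 ≤ α := norm_nonneg _
  have hΔ0 : 0 ≤ Δ := norm_nonneg _
  have sqb : ∀ x y z : ℝ, 0 ≤ x → x ≤ y + z → x ^ 2 ≤ 2 * y ^ 2 + 2 * z ^ 2 := by
    intro x y z hx hxy
    nlinarith [sq_nonneg (y - z)]
  have f1 := sqb _ _ _ (by positivity) e1
  have f2 := sqb _ _ _ (by positivity) e2
  have f3 : A * β ^ 2 ≤ 2 * B * α ^ 2 + 2 * Δ ^ 2 * (1 + ‖w‖ ^ 2) := by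
    rw [hA, hB]
    nlinarith
  rcases hA0.eq_or_lt with h3 | h3
  · have hB' : B = 0 := le_antisymm (hAB.trans h3.symm.le) hB0
    have hb1 : ‖b1‖ = 0 := by
      have : ‖b1‖ ^ 2 ≤ 0 := by rw [← hB', hB]; nlinarith [sq_nonneg ‖b2‖]
      nlinarith [norm_nonneg b1, sq_nonneg ‖b1‖]
    have hb2 : ‖b2‖ = 0 := by
      have : ‖b2‖ ^ 2 ≤ 0 := by rw [← hB', hB]; nlinarith [sq_nonneg ‖b1‖]
      nlinarith [norm_nonneg b2, sq_nonneg ‖b2‖]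
    have hβz : β = 0 := by
      rw [hβ, norm_eq_zero.1 hb1, norm_eq_zero.1 hb2, zero_mul, sub_zero, norm_zero]
    rw [← h3] at h1 ⊢
    rw [hβz, hB']
    have h4 : 0 ≤ 2 * ε * (1 + ‖w‖ ^ 2) := by positivity
    nlinarith
  · have f4 : β ^ 2 ≤ (1600 * δ ^ 2 * B + 2 * ε) * (1 + ‖w‖ ^ 2) := by
      refine le_of_mul_le_mul_left ?_ h3
      have g1 : 2 * B * α ^ 2 ≤ 2 * B * (800 * δ ^ 2 * A * (1 + ‖w‖ ^ 2)) :=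
        mul_le_mul_of_nonneg_left h1 (by positivity)
      have g2 : 2 * Δ ^ 2 * (1 + ‖w‖ ^ 2) ≤ 2 * (ε * A) * (1 + ‖w‖ ^ 2) := by gcongr
      calc A * β ^ 2 ≤ 2 * B * (800 * δ ^ 2 * A * (1 + ‖w‖ ^ 2)) +
            2 * (ε * A) * (1 + ‖w‖ ^ 2) := by linarith
        _ = A * ((1600 * δ ^ 2 * B + 2 * ε) * (1 + ‖w‖ ^ 2)) := by ring
    have f5 : 0 ≤ 800 * δ ^ 2 * A * (1 + ‖w‖ ^ 2) := by positivity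
    nlinarith

theorem plu {a1 a2 b1 b2 : ℂ} {δ ε : ℝ} (hδ : 0 < δ) (hε : 0 ≤ ε)
    (hD : ‖a1 * b2 - a2 * b1‖ ^ 2 ≤ ε * max (‖a1‖ ^ 2 + ‖a2‖ ^ 2) (‖b1‖ ^ 2 + ‖b2‖ ^ 2)) :
    ∃ v : ℂ, ∀ w : ℂ, sg v w ≤ 10 * δ → ‖a1 - a2 * w‖ ^ 2 + ‖b1 - b2 * w‖ ^ 2 ≤
      (1600 * δ ^ 2 * ((‖a1‖ ^ 2 + ‖a2‖ ^ 2) + (‖b1‖ ^ 2 + ‖b2‖ ^ 2)) + 2 * ε) * (1 + ‖w‖ ^ 2) := by
  rcases le_total (‖b1‖ ^ 2 + ‖b2‖ ^ 2) (‖a1‖ ^ 2 + ‖a2‖ ^ 2) with h | h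
  · rw [max_eq_left h] at hD
    exact plu_aux hδ hε h hD
  · rw [max_eq_right h] at hD
    have hD' : ‖b1 * a2 - b2 * a1‖ ^ 2 ≤ ε * (‖b1‖ ^ 2 + ‖b2‖ ^ 2) := by
      rw [← norm_neg, show -(b1 * a2 - b2 * a1) = a1 * b2 - a2 * b1 by ring]
      exact hD
    obtain ⟨v, hv⟩ := plu_aux hδ hε h hD'
    refine ⟨v, fun w hw => ?_⟩
    have := hv w hw
    rw [add_comm (‖a1‖ ^ 2 + ‖a2‖ ^ 2), add_comm (‖a1 - a2 * w‖ ^ 2)]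
    exact this

end Pool.Agent.H73.GP
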