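import Pool.Agent.H73.GP.Def

/-!
[H73 GP PRJ]  Projection of a vector of `ℂ^2` onto the line of `(w, 1)`.

Proofs. `λ = (a1 conj w + a2)/(1+|w|^2)`: `a1 - λ w = (a1 - a2 w)/(1+|w|^2)`, `a2 - λ = -conj w (a1 - a2 w)/(1+|w|^2)`, so
`|a1 - λ w|^2 + |a2 - λ|^2 = |a1 - a2 w|^2/(1+|w|^2)` (`prj`). `prj1`: if `λ ≠ 0` done; if `λ = 0` take `s > 0` real with
`s^2 (1+|w|^2) ≤ ν` instead: `|a1 - s w|^2 + |a2 - s|^2 ≤ 2 (|a1|^2+|a2|^2) + 2 s^2 (1+|w|^2)`.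
-/

set_option autoImplicit false

open Polynomial ComplexConjugate

namespace Pool.Agent.H73.GP

theorem prj (a1 a2 w : ℂ) :
    ∃ l : ℂ, ‖a1 - l * w‖ ^ 2 + ‖a2 - l‖ ^ 2 ≤ ‖a1 - a2 * w‖ ^ 2 / (1 + ‖w‖ ^ 2) := by
  have hS : (0 : ℝ) < 1 + ‖w‖ ^ 2 := by positivity
  have hSC : ((1 + ‖w‖ ^ 2 : ℝ) : ℂ) ≠ 0 := by exact_mod_cast hS.ne'
  have hw : w * conj w = ((‖w‖ ^ 2 : ℝ) : ℂ) := by
    rw [Complex.mul_conj, Complex.normSq_eq_norm_sq]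
  refine ⟨(a1 * conj w + a2) / ((1 + ‖w‖ ^ 2 : ℝ) : ℂ), ?_⟩
  have e1 : a1 - (a1 * conj w + a2) / ((1 + ‖w‖ ^ 2 : ℝ) : ℂ) * w =
      (a1 - a2 * w) / ((1 + ‖w‖ ^ 2 : ℝ) : ℂ) := by
    field_simp
    push_cast at hw ⊢
    linear_combination (-a1) * hw
  have e2 : a2 - (a1 * conj w + a2) / ((1 + ‖w‖ ^ 2 : ℝ) : ℂ) =
      -(conj w * (a1 - a2 * w)) / ((1 + ‖w‖ ^ 2 : ℝ) : ℂ) := by
    field_simp
    push_cast at hw ⊢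
    linear_combination (-a2) * hw
  rw [e1, e2, norm_div, norm_div, norm_neg, norm_mul, Complex.norm_conj, Complex.norm_real,
    Real.norm_of_nonneg hS.le]
  apply le_of_eq
  field_simp

theorem prj1 (a1 a2 w : ℂ) {ν : ℝ} (hν : 0 < ν) :
    ∃ l : ℂ, l ≠ 0 ∧ ‖a1 - l * w‖ ^ 2 + ‖a2 - l‖ ^ 2 ≤ 2 * (‖a1 - a2 * w‖ ^ 2 / (1 + ‖w‖ ^ 2)) + 2 * ν := by
  obtain ⟨l, hl⟩ := prj a1 a2 w
  have hS : (0 : ℝ) < 1 + ‖w‖ ^ 2 := by positivity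
  have h0 : 0 ≤ ‖a1 - a2 * w‖ ^ 2 / (1 + ‖w‖ ^ 2) := by positivity
  by_cases h : l = 0
  · rw [h, zero_mul, sub_zero, sub_zero] at hl
    obtain ⟨s, hs0, hs⟩ : ∃ s : ℝ, 0 < s ∧ s ^ 2 * (1 + ‖w‖ ^ 2) ≤ ν := by
      refine ⟨√(ν / (1 + ‖w‖ ^ 2)), Real.sqrt_pos.mpr (by positivity), ?_⟩
      rw [Real.sq_sqrt (by positivity), div_mul_cancel₀ _ hS.ne']
    refine ⟨(s : ℂ), by exact_mod_cast hs0.ne', ?_⟩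
    have n1 : ‖a1 - (s : ℂ) * w‖ ≤ ‖a1‖ + s * ‖w‖ := by
      refine (norm_sub_le _ _).trans (le_of_eq ?_)
      rw [norm_mul, Complex.norm_real, Real.norm_of_nonneg hs0.le]
    have n2 : ‖a2 - (s : ℂ)‖ ≤ ‖a2‖ + s := by
      refine (norm_sub_le _ _).trans (le_of_eq ?_)
      rw [Complex.norm_real, Real.norm_of_nonneg hs0.le]
    have m1 : ‖a1 - (s : ℂ) * w‖ ^ 2 ≤ 2 * ‖a1‖ ^ 2 + 2 * (s * ‖w‖) ^ 2 := by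
      have := pow_le_pow_left₀ (norm_nonneg _) n1 2
      nlinarith [sq_nonneg (‖a1‖ - s * ‖w‖)]
    have m2 : ‖a2 - (s : ℂ)‖ ^ 2 ≤ 2 * ‖a2‖ ^ 2 + 2 * s ^ 2 := by
      have := pow_le_pow_left₀ (norm_nonneg _) n2 2
      nlinarith [sq_nonneg (‖a2‖ - s)]
    nlinarith
  · exact ⟨l, h, by linarith⟩

end Pool.Agent.H73.GP
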