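import Pool.Agent.H73.GP.Def
import Pool.Agent.H32.BT.TrapSink
import Pool.Agent.H32.BT.Bdry

/-!
[H73 GP SNK]  A superattracting cycle `c → w → c` of the (not necessarily coprime) pair `(P, Q)` gives attracting cycles of coprime
pairs of degree exactly `d` arbitrarily near.

Proof. `sink_of_mult` (`H32/BT/TrapSink.lean`) with `v0 = (cf d P, cf d Q)`, `n = 2`, `x 0 = c`, `x 1 = w`, `x 2 = c` (`x j = if j = 1 then w
else c`), `ev_cf`: the product of the two multipliers is `0` because `wv v0 c = (P' Q - P Q')(c) = 0` (`dev` of `cf d P` is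
`(derivative P).eval`, look for `dev_cf`). It gives a neighbourhood of `v0`; a pair with all coefficients within some `ρ` of those of `P, Q`
and of degree `≤ d` lies in it (finite product, `Metric.mem_nhds_iff`, `dist_pi_lt_iff`). `coprime_dense` (`H32/BT/Bdry.lean`) with
`ε = min η ρ`.
-/

set_option autoImplicit false

open Polynomial ComplexConjugate

namespace Pool.Agent.H73.GP

open Pool.Agent.H44.Fatou Pool.Agent.H32.BT

theorem snk {d : ℕ} {P Q : ℂ[X]} (hP : P.natDegree ≤ d) (hQ : Q.natDegree ≤ d) {c w : ℂ}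
    (hc : Q.eval c ≠ 0) (hw : Q.eval w ≠ 0) (h1 : P.eval c = w * Q.eval c) (h2 : P.eval w = c * Q.eval w)
    (h3 : P.eval c * (derivative Q).eval c - Q.eval c * (derivative P).eval c = 0) {η : ℝ} (hη : 0 < η) :
    ∃ P' Q' : ℂ[X], IsCoprime P' Q' ∧ max P'.natDegree Q'.natDegree = d ∧ Near η P' Q' P Q ∧
      ∃ z m, IsSink (rat P' Q') z m := by
  obtain ⟨x, hx⟩ : ∃ x : ℕ → ℂ, x = fun j => if j = 1 then w else c := ⟨_, rfl⟩
  have hx0 : x 0 = c := by rw [hx]; simp
  have hx1 : x 1 = w := by rw [hx]; simp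
  have hx2 : x 2 = c := by rw [hx]; simp
  have hden : ∀ j < 2, ev (cf d P, cf d Q).2 (x j) ≠ 0 := by
    intro j hj
    interval_cases j
    · rw [hx0]
      show ev (cf d Q) c ≠ 0
      rw [ev_cf hQ]; exact hc
    · rw [hx1]
      show ev (cf d Q) w ≠ 0
      rw [ev_cf hQ]; exact hw
  have hstep : ∀ j < 2, ev (cf d P, cf d Q).1 (x j) / ev (cf d P, cf d Q).2 (x j) = x (j + 1) := by
    intro j hj
    interval_cases j
    · rw [hx0, hx1]
      show ev (cf d P) c / ev (cf d Q) c = w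
      rw [ev_cf hQ, ev_cf hP, h1, mul_div_cancel_right₀ _ hc]
    · rw [hx1, hx2]
      show ev (cf d P) w / ev (cf d Q) w = c
      rw [ev_cf hQ, ev_cf hP, h2, mul_div_cancel_right₀ _ hw]
  have hmul : ‖∏ j ∈ Finset.range 2, wv (cf d P, cf d Q) (x j) /
      ev (cf d P, cf d Q).2 (x j) ^ 2‖ < 1 := by
    have h0 : wv (cf d P, cf d Q) (x 0) = 0 := by
      rw [hx0]
      show dev (cf d P) c * ev (cf d Q) c - ev (cf d P) c * dev (cf d Q) c = 0
      rw [ev_cf hQ, ev_cf hP, dev_cf hQ, dev_cf hP]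
      linear_combination -h3
    rw [Finset.prod_range_succ, Finset.prod_range_one, h0, zero_div, zero_mul, norm_zero]
    exact one_pos
  obtain ⟨r, hr, -, hev⟩ := sink_of_mult (d := d) (cf d P, cf d Q) x 2 two_pos
    (by rw [hx0, hx2]) hden hstep hmul Set.univ Filter.univ_mem
  obtain ⟨ρ, hρ, hball⟩ := Metric.eventually_nhds_iff.1 hev
  obtain ⟨P', Q', hcop, hdeg, hnear⟩ := coprime_dense hP hQ (lt_min hη hρ)
  refine ⟨P', Q', hcop, hdeg, fun i => ⟨(hnear i).1.trans_le (min_le_left _ _),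
    (hnear i).2.trans_le (min_le_left _ _)⟩, ?_⟩
  have hdist : dist (cf d P', cf d Q') (cf d P, cf d Q) < ρ := by
    rw [Prod.dist_eq, max_lt_iff, dist_pi_lt_iff hρ, dist_pi_lt_iff hρ]
    constructor
    · intro i
      rw [dist_eq_norm]
      exact (hnear i).1.trans_le (min_le_right _ _)
    · intro i
      rw [dist_eq_norm]
      exact (hnear i).2.trans_le (min_le_right _ _)
  obtain ⟨z, -, hz, -⟩ := hball hdist P' Q' hcop ((le_max_left _ _).trans hdeg.le)
    ((le_max_right _ _).trans hdeg.le) rfl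
  exact ⟨_, _, hz⟩

end Pool.Agent.H73.GP
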