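import Pool.Agent.H73.GP.Vag
import Pool.Agent.H73.GP.Cri
import Pool.Agent.H73.GP.Beb
import Pool.Agent.H73.GP.Flt
import Pool.Agent.H73.GP.Int
import Pool.Agent.H73.GP.Plu
import Pool.Agent.H73.GP.Prj
import Pool.Agent.H73.GP.Snk
import Pool.Agent.H84.PT.Rat
import Pool.Agent.H84.PT.Eqv

/-!
[H73 GP LRG]  Assembly for large degrees.

Proof. `ν = N exp(-K/4)`, `B = 14000 K N / d`, `ε = 1300 K ν`. `flt`: `v0`. `cri` at `v0`: `c`, `|c - v0| ≤ δ` (`|c| ≤ 1.01`).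
`nn c ≤ B`; `beb` at `c` (`1/√d ≤ δ` as `δ^2 d = 12 K ≥ 1`): `mm c ≤ 40 B`. `a1 = al d c P`, `a2 = al d c Q`, `b1 = be d c P`,
`b2 = be d c Q` (`nn_al`). `plu`: `v`. `vag` at `v` and `c`: `w`, `sg v w ≤ 10 δ`, `δ ≤ sg w c`,
`|al d w P - c al d w Q|^2 ≤ 2 ν (1+|c|^2)`. `plu`: `|a1 - a2 w|^2 + |b1 - b2 w|^2 ≤ (1600 δ^2 * 41 B + 2 ε)(1+|w|^2)`.
`prj1` for `a` (`l ≠ 0`), `prj` for `b` (`m`), with `w`; `prj1` for `(al d w P, al d w Q)` with `c` in the place of `w` (`k ≠ 0`).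
`bmp` (`σ = δ`) twice: `G1` with `al c = l w - a1`, `be c = m w - b1`, `al w = k c - al d w P`; `G2` with `l - a2`, `m - b2`,
`k - al d w Q`. `P1 = P + G1`, `Q1 = Q + G2` (`al_add`, `be_add`): `al d c P1 = l w`, `al d c Q1 = l ≠ 0`, `be d c P1 = m w`,
`be d c Q1 = m`, `al d w P1 = k c`, `al d w Q1 = k ≠ 0`; by `al_be` the Wronskian of `P1, Q1` at `c` is `0`.
`Nd G1 + Nd G2 ≤ 5 (2 (1600 δ^2 * 41 B + 2 ε) + 2 ν) + 16 * 6 ν/δ^4`. `snk` with `η` so small that `(d+1) η^2 ≤ ν/2` (`Nd_small`,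
`H84/PT/Eqv.lean`): `P', Q'`. `Nd (P - P') ≤ 2 Nd G1 + 2 Nd (P1 - P')` (`Nd_add`, `H84/PT/Rat.lean`, `Nd (-G) = Nd G`). Total
`≤ 656000 * 2 δ^2 B + 40 ε + 20 ν + 192 ν/δ^4 + 2 ν`, and `δ^2 B = 168000 K^2 N/d^2`.
-/

set_option autoImplicit false

open Polynomial ComplexConjugate

namespace Pool.Agent.H73.GP

open Pool.Agent.H85.LD (Nd wm sg ph Gc en)
open Pool.Agent.H44.Fatou Pool.Agent.H32.BT

private theorem al_eq {d : ℕ} {z a : ℂ} {G H : ℂ[X]} (h : al d z G = a * al d z H) : G.eval z = a * H.eval z := by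
  unfold al at h
  have h1 : ((1 / √((1 + ‖z‖ ^ 2) ^ d) : ℝ) : ℂ) ≠ 0 := by
    rw [Complex.ofReal_ne_zero]
    positivity
  refine mul_left_cancel₀ h1 ?_
  rw [h]
  ring

private theorem al_ne {d : ℕ} {z a : ℂ} {G : ℂ[X]} (ha : a ≠ 0) (h : al d z G = a) : G.eval z ≠ 0 := by
  intro h0
  unfold al at h
  rw [h0, mul_zero] at h
  exact ha h.symm

private theorem wr0 {d : ℕ} (hd : 0 < d) {z a b w : ℂ} {G H : ℂ[X]} (h1 : al d z G = a * w) (h2 : al d z H = a)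
    (h3 : be d z G = b * w) (h4 : be d z H = b) :
    G.eval z * (derivative H).eval z - H.eval z * (derivative G).eval z = 0 := by
  have h5 := al_be d z G H
  rw [h1, h2, h3, h4] at h5
  have h6 : ((((1 + ‖z‖ ^ 2) / ((1 + ‖z‖ ^ 2) ^ d * √d) : ℝ) : ℂ)) ≠ 0 := by
    rw [Complex.ofReal_ne_zero]
    have : (0 : ℝ) < √d := Real.sqrt_pos.2 (by exact_mod_cast hd)
    positivity
  have h7 : a * w * b - a * (b * w) = 0 := by ring
  rw [h7] at h5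
  exact (mul_eq_zero.1 h5.symm).resolve_left h6

private theorem Nd_neg' (d : ℕ) (G : ℂ[X]) : Nd d (-G) = Nd d G := by
  unfold Nd
  refine Finset.sum_congr rfl fun k _ => ?_
  rw [coeff_neg, norm_neg]

private theorem tail {d : ℕ} {P1 P G P' : ℂ[X]} {ν : ℝ} (hν : 0 < ν) (h1 : P1 = P + G)
    (h : ∀ i : ℕ, ‖P'.coeff i - P1.coeff i‖ < √(ν / (2 * (d + 1)))) :
    Nd d (P - P') ≤ 2 * Nd d G + ν := by
  have e : P - P' = -G + (P1 - P') := by rw [h1]; ring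
  rw [e]
  refine (Pool.Agent.H84.PT.Nd_add d _ _).trans ?_
  rw [Nd_neg']
  have h2 : Nd d (P1 - P') ≤ (d + 1) * √(ν / (2 * (d + 1))) ^ 2 := by
    refine Pool.Agent.H84.PT.Nd_small (fun i => ?_)
    rw [coeff_sub, norm_sub_rev]
    exact (h i).le
  rw [Real.sq_sqrt (by positivity)] at h2
  have h3 : ((d : ℝ) + 1) * (ν / (2 * (d + 1))) = ν / 2 := by
    field_simp
  rw [h3] at h2
  linarith

private theorem fin_sum {S T U ν δ B ε K N D : ℝ} (hν : 0 < ν) (hδ : 0 < δ)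
    (hS : S ≤ 2 * (1600 * δ ^ 2 * (41 * B) + 2 * ε) + 2 * ν) (hT : T ≤ 6 * ν) (hU : U ≤ 5 * S + 16 * T / δ ^ 4)
    (hB : δ ^ 2 * B = 168000 * K ^ 2 * N / D ^ 2) (hε : ε = 1300 * K * ν) {e : ℝ} (he : ν = N * e) (hp : 0 ≤ K ^ 2 * N / D ^ 2) :
    2 * U + 2 * ν ≤ N * (3 * 10 ^ 11 * K ^ 2 / D ^ 2 + e * (52000 * K + 22 + 192 / δ ^ 4)) := by
  have h1 : 16 * T / δ ^ 4 ≤ 96 * ν / δ ^ 4 := by
    refine div_le_div_of_nonneg_right ?_ (by positivity)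
    linarith
  have h2 : N * (3 * 10 ^ 11 * K ^ 2 / D ^ 2 + e * (52000 * K + 22 + 192 / δ ^ 4)) =
      3 * 10 ^ 11 * (K ^ 2 * N / D ^ 2) + ν * (52000 * K) + ν * 22 + 2 * (96 * ν / δ ^ 4) := by
    rw [he]
    ring
  rw [h2]
  have h3 : 168000 * K ^ 2 * N / D ^ 2 = 168000 * (K ^ 2 * N / D ^ 2) := by ring
  rw [h3] at hB
  rw [hε] at hS
  generalize K ^ 2 * N / D ^ 2 = X at *
  generalize 96 * ν / δ ^ 4 = Y at *
  have h4 : S ≤ 2 * (1600 * 41 * (168000 * X) + 2 * (1300 * K * ν)) + 2 * ν := by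
    rw [← hB]
    refine hS.trans (le_of_eq ?_)
    ring
  nlinarith

theorem lrg {d : ℕ} {K δ N : ℝ} {P Q : ℂ[X]} (h : Sc d K δ N P Q) (hK : Real.log d ≤ K)
    (h32 : 32 * d * (1 - δ ^ 2) ^ (d - 1) ≤ δ ^ 4) :
    ∃ P' Q' : ℂ[X], IsCoprime P' Q' ∧ max P'.natDegree Q'.natDegree = d ∧ (∃ z m, IsSink (rat P' Q') z m) ∧
      Nd d (P - P') + Nd d (Q - Q') ≤
        N * (3 * 10 ^ 11 * K ^ 2 / d ^ 2 + Real.exp (-(K / 4)) * (52000 * K + 22 + 192 / δ ^ 4)) := by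
  have hd2 := h.d2
  have hK4 := h.K4
  have hδ0 := h.δ0
  have hδ1 := h.δ1
  have hdK := h.dK
  have hN0 := h.N0
  have hd0 : 0 < d := by omega
  have hd : (0 : ℝ) < d := by exact_mod_cast hd0
  have hKp : 0 < K := by linarith
  obtain ⟨v0, hv0, hflat⟩ := flt h hK
  obtain ⟨c, hcv, hcri⟩ := cri h hv0
  obtain ⟨B, hB⟩ : ∃ B : ℝ, B = 14000 * K * N / d := ⟨_, rfl⟩
  obtain ⟨ν, hν⟩ : ∃ ν : ℝ, ν = N * Real.exp (-(K / 4)) := ⟨_, rfl⟩
  have hν0 : 0 < ν := by rw [hν]; positivity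
  rw [← hB] at hflat
  have hcn : ‖c‖ ≤ 11 / 10 := by
    have := norm_add_le (c - v0) v0
    rw [sub_add_cancel] at this
    linarith
  have hnc : nn d P Q c ≤ B := hflat c (by linarith)
  have hsd : 1 / √d ≤ δ := by
    have h1 : (1 / √d) ^ 2 ≤ δ ^ 2 := by
      rw [div_pow, one_pow, Real.sq_sqrt hd.le, div_le_iff₀ hd]
      linarith
    exact abs_le_of_sq_le_sq' h1 hδ0.le |>.2
  have hmc : mm d P Q c ≤ 40 * B := by
    refine beb hd2 hcn (fun z hz => hflat z ?_)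
    have := norm_add_le (z - c) (c - v0)
    rw [sub_add_sub_cancel] at this
    linarith
  obtain ⟨v, hplu⟩ := plu (a1 := al d c P) (a2 := al d c Q) (b1 := be d c P) (b2 := be d c Q) (ε := 1300 * K * ν)
    hδ0 (by positivity) (by
      rw [← nn_al, hν]
      have h3 : ‖be d c P‖ ^ 2 + ‖be d c Q‖ ^ 2 = mm d P Q c := rfl
      rw [h3]
      refine hcri.trans (le_of_eq ?_)
      ring)
  obtain ⟨w, hvw, hwc, hval⟩ := vag h v c
  have hp := hplu w hvw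
  have h3 : ‖be d c P‖ ^ 2 + ‖be d c Q‖ ^ 2 = mm d P Q c := rfl
  rw [← nn_al, h3] at hp
  obtain ⟨l, hl0, hl⟩ := prj1 (al d c P) (al d c Q) w hν0
  obtain ⟨m, hm⟩ := prj (be d c P) (be d c Q) w
  obtain ⟨k, hk0, hk⟩ := prj1 (al d w P) (al d w Q) c hν0
  obtain ⟨G1, hG1d, hG1a, hG1b, hG1w, hG1n⟩ :=
    bmp hd2 hδ0 hwc h32 (l * w - al d c P) (m * w - be d c P) (k * c - al d w P)
  obtain ⟨G2, hG2d, hG2a, hG2b, hG2w, hG2n⟩ :=
    bmp hd2 hδ0 hwc h32 (l - al d c Q) (m - be d c Q) (k - al d w Q)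
  have hP1a : al d c (P + G1) = l * w := by rw [al_add, hG1a]; ring
  have hQ1a : al d c (Q + G2) = l := by rw [al_add, hG2a]; ring
  have hP1b : be d c (P + G1) = m * w := by rw [be_add, hG1b]; ring
  have hQ1b : be d c (Q + G2) = m := by rw [be_add, hG2b]; ring
  have hP1w : al d w (P + G1) = k * c := by rw [al_add, hG1w]; ring
  have hQ1w : al d w (Q + G2) = k := by rw [al_add, hG2w]; ring
  have hη0 : 0 < √(ν / (2 * (d + 1))) := Real.sqrt_pos.2 (by positivity)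
  obtain ⟨P', Q', hcop, hdeg, hnear, hsink⟩ := snk (d := d) (P := P + G1) (Q := Q + G2)
    (natDegree_add_le_of_degree_le h.hP hG1d) (natDegree_add_le_of_degree_le h.hQ hG2d)
    (al_ne hl0 hQ1a) (al_ne hk0 hQ1w) (al_eq (by rw [hP1a, hQ1a]; ring)) (al_eq (by rw [hP1w, hQ1w]; ring))
    (wr0 hd0 hP1a hQ1a hP1b hQ1b) hη0
  refine ⟨P', Q', hcop, hdeg, hsink, ?_⟩
  have hT1 := tail (d := d) hν0 rfl (fun i => (hnear i).1)
  have hT2 := tail (d := d) hν0 rfl (fun i => (hnear i).2)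
  have hw1 : (0 : ℝ) < 1 + ‖w‖ ^ 2 := by positivity
  have hc1 : (0 : ℝ) < 1 + ‖c‖ ^ 2 := by positivity
  -- the value at `w`
  have hvw2 : ‖al d w P - al d w Q * c‖ ^ 2 / (1 + ‖c‖ ^ 2) ≤ 2 * ν := by
    rw [div_le_iff₀ hc1]
    have e : al d w P - al d w Q * c = ((1 / √((1 + ‖w‖ ^ 2) ^ d) : ℝ) : ℂ) * (P.eval w - c * Q.eval w) := by
      unfold al
      ring
    rw [e, norm_mul, Complex.norm_real, Real.norm_of_nonneg (by positivity), mul_pow, div_pow, one_pow,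
      Real.sq_sqrt (by positivity), div_mul_eq_mul_div, one_mul, div_le_iff₀ (by positivity), hν]
    refine hval.trans (le_of_eq ?_)
    ring
  have hpw : ‖al d c P - al d c Q * w‖ ^ 2 / (1 + ‖w‖ ^ 2) + ‖be d c P - be d c Q * w‖ ^ 2 / (1 + ‖w‖ ^ 2) ≤
      1600 * δ ^ 2 * (41 * B) + 2 * (1300 * K * ν) := by
    rw [← add_div, div_le_iff₀ hw1]
    refine hp.trans (mul_le_mul_of_nonneg_right ?_ hw1.le)
    have : 1600 * δ ^ 2 * (nn d P Q c + mm d P Q c) ≤ 1600 * δ ^ 2 * (41 * B) :=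
      mul_le_mul_of_nonneg_left (by linarith) (by positivity)
    linarith
  have hq1 : 0 ≤ ‖be d c P - be d c Q * w‖ ^ 2 / (1 + ‖w‖ ^ 2) := by positivity
  rw [norm_sub_rev (l * w), norm_sub_rev (m * w), norm_sub_rev (k * c)] at hG1n
  rw [norm_sub_rev l, norm_sub_rev m, norm_sub_rev k] at hG2n
  have hU : Nd d G1 + Nd d G2 ≤ 5 * ((‖al d c P - l * w‖ ^ 2 + ‖al d c Q - l‖ ^ 2) +
      (‖be d c P - m * w‖ ^ 2 + ‖be d c Q - m‖ ^ 2)) +
      16 * (‖al d w P - k * c‖ ^ 2 + ‖al d w Q - k‖ ^ 2) / δ ^ 4 := by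
    rw [mul_add 16, add_div]
    linarith
  have hF := fin_sum (K := K) (N := N) (D := d) (B := B) (δ := δ) (ν := ν) (ε := 1300 * K * ν)
    (e := Real.exp (-(K / 4))) hν0 hδ0 (by linarith) (by linarith) hU (by
      rw [hB]
      field_simp
      linear_combination 14000 * hdK) rfl hν (by positivity)
  linarith

end Pool.Agent.H73.GP
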