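import Pool.Agent.H73.GP.Def

/-!
[H73 GP PEN]  The penalised minimum: a point `y` of the disc and a zero-free holomorphic gauge `g` such that `H = g (P, Q)` has
modulus growing pointwise like `exp (d |z - y|^2 / 24)` (squared modulus `exp (d |z - y|^2 / 12)`).

Proof. `φ z = log (nn d P Q z) + K |z - v|^2 / δ^2` is continuous on the closed disc `|z - v| ≤ δ` (`nn ≥ N exp(-K/4) > 0` there);
let `y` be a minimum. `φ y ≤ φ v = log (nn v) ≤ log N` (`nn_le`) and `φ y ≥ log N - K/4 + K |y - v|^2/δ^2`, so `|y - v| ≤ δ/2`.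
For `|z - v| ≤ δ`: `log nn z ≥ log nn y + K (|y-v|^2 - |z-v|^2)/δ^2 = log nn y - (K/δ^2) (2 Re ((z-y) conj(y-v)) + |z-y|^2)`.
Gauge: `g z = √((1+|y|^2)^d) / (1 + conj y z)^d * exp ((K/δ^2) (z-y) conj(y-v))`. As `|y| ≤ 1 + δ/2`, for `|z - v| < 2δ`
`1 + conj y z = 1 + |y|^2 + conj y (z - y) ≠ 0`. With `one_sub_sg_sq` (`H85/LD/Sg.lean`):
`|g z|^2 (|P z|^2+|Q z|^2) = nn z * ((1+|z|^2)(1+|y|^2)/|1+conj y z|^2)^d * exp (2 (K/δ^2) Re ((z-y) conj(y-v)))
 = nn z * (1 - sg z y ^2)^(-d) * exp (...)`.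
At `z = y` this is `nn y`. For `|z-v| ≤ δ`: `(1 - s)^(-d) ≥ exp (d s)`, `sg z y ^2 = |z-y|^2/((1+|z|^2)(1+|y|^2)) ≥ |z-y|^2/6`
(`|z|, |y| ≤ 1.01`), and `K/δ^2 = d/12`: total `≥ nn y exp (|z-y|^2 (d/6 - d/12))`.
Upper bound for `|z-y| ≤ δ/K`: `exp (2 (K/δ^2) Re) ≤ exp (2 (K/δ^2)(δ/K)(δ/2)) = exp 1`; `s = sg z y ^2 ≤ |z-y|^2 ≤ δ^2/K^2 ≤ 1/2`,
`(1-s)^(-d) ≤ exp (2 d s) ≤ exp (2 d δ^2/K^2) = exp (24/K) ≤ exp 6`.
-/

set_option autoImplicit false

open Polynomial ComplexConjugate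

namespace Pool.Agent.H73.GP

open Pool.Agent.H85.LD (Nd wm sg ph Gc en)

/-- the gauge -/
private noncomputable def gg (d : ℕ) (t : ℝ) (v y z : ℂ) : ℂ :=
  ((√((1 + ‖y‖ ^ 2) ^ d) : ℝ) : ℂ) / (1 + conj y * z) ^ d * Complex.exp ((t : ℂ) * ((z - y) * conj (y - v)))

private theorem gg_norm (d : ℕ) (t : ℝ) (v y z : ℂ) : ‖gg d t v y z‖ ^ 2 =
    (1 + ‖y‖ ^ 2) ^ d / (‖1 + conj y * z‖ ^ 2) ^ d * Real.exp (2 * (t * ((z - y) * conj (y - v)).re)) := by
  unfold gg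
  rw [norm_mul, norm_div, norm_pow, Complex.norm_real, Real.norm_of_nonneg (Real.sqrt_nonneg _), Complex.norm_exp,
    mul_pow, div_pow, Real.sq_sqrt (by positivity), Complex.re_ofReal_mul, ← Real.exp_nat_mul, ← pow_mul, ← pow_mul,
    mul_comm d 2]
  push_cast
  rfl

private theorem gg_full (d : ℕ) (t : ℝ) (v y z : ℂ) (P Q : ℂ[X]) (hz : 1 + conj y * z ≠ 0) :
    ‖gg d t v y z‖ ^ 2 * (‖P.eval z‖ ^ 2 + ‖Q.eval z‖ ^ 2) =
      nn d P Q z * ((1 - sg z y ^ 2)⁻¹) ^ d * Real.exp (2 * (t * ((z - y) * conj (y - v)).re)) := by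
  rw [gg_norm, Pool.Agent.H85.LD.one_sub_sg_sq, mul_comm z (conj y), inv_div]
  unfold nn
  have h1 : 0 < ‖1 + conj y * z‖ ^ 2 := by positivity
  rw [div_pow, mul_pow]
  have h2 : (0 : ℝ) < (1 + ‖z‖ ^ 2) ^ d := by positivity
  have h3 : (0 : ℝ) < (‖1 + conj y * z‖ ^ 2) ^ d := by positivity
  generalize (1 + ‖z‖ ^ 2) ^ d = A at h2
  generalize (‖1 + conj y * z‖ ^ 2) ^ d = B at h3
  field_simp

private theorem den_ne {y z : ℂ} (hy : ‖y‖ ≤ 2) (hz : ‖z - y‖ ≤ 1 / 4) : 1 + conj y * z ≠ 0 := by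
  intro h0
  have e : 1 + conj y * z = ((1 + ‖y‖ ^ 2 : ℝ) : ℂ) + conj y * (z - y) := by
    have : conj y * y = ((‖y‖ ^ 2 : ℝ) : ℂ) := by
      rw [Complex.conj_mul']
      push_cast
      ring
    push_cast at this ⊢
    linear_combination this
  rw [e] at h0
  have h1 : ((1 + ‖y‖ ^ 2 : ℝ) : ℂ) = -(conj y * (z - y)) := by linear_combination h0
  have h2 := congrArg norm h1
  rw [Complex.norm_real, Real.norm_of_nonneg (by positivity), norm_neg, norm_mul, Complex.norm_conj] at h2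
  have h3 : ‖y‖ * ‖z - y‖ ≤ 2 * (1 / 4) := mul_le_mul hy hz (norm_nonneg _) (by norm_num)
  nlinarith [sq_nonneg ‖y‖]

theorem pen {d : ℕ} {K δ N : ℝ} {P Q : ℂ[X]} (h : Sc d K δ N P Q) {v : ℂ} (hv : ‖v‖ ≤ 1)
    (hlow : ∀ z : ℂ, ‖z - v‖ ≤ δ → N * Real.exp (-(K / 4)) ≤ nn d P Q z) :
    ∃ (y : ℂ) (g : ℂ → ℂ), ‖y - v‖ ≤ δ / 2 ∧
      (∀ z : ℂ, ‖z - v‖ < 2 * δ → DifferentiableAt ℂ g z ∧ g z ≠ 0) ∧
      ‖g y‖ ^ 2 * (‖P.eval y‖ ^ 2 + ‖Q.eval y‖ ^ 2) = nn d P Q y ∧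
      (∀ z : ℂ, ‖z - v‖ ≤ δ → nn d P Q y * Real.exp (d / 12 * ‖z - y‖ ^ 2) ≤
        ‖g z‖ ^ 2 * (‖P.eval z‖ ^ 2 + ‖Q.eval z‖ ^ 2)) ∧
      (∀ z : ℂ, ‖z - y‖ ≤ δ / K → ‖g z‖ ^ 2 * (‖P.eval z‖ ^ 2 + ‖Q.eval z‖ ^ 2) ≤ Real.exp 7 * nn d P Q z) := by
  obtain ⟨h2, hK4, hδ0, hδ1, hdK, hN0, hP, hQ, hN⟩ := h
  have hK : 0 < K := by linarith
  have hd : (0 : ℝ) < d := by exact_mod_cast (by omega : 0 < d)
  have hKδ : K / δ ^ 2 = d / 12 := by
    rw [div_eq_div_iff (by positivity) (by norm_num)]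
    linarith
  have hpos : ∀ z : ℂ, ‖z - v‖ ≤ δ → 0 < nn d P Q z := fun z hz => lt_of_lt_of_le (by positivity) (hlow z hz)
  have hcomp : IsCompact (Metric.closedBall v δ) := isCompact_closedBall v δ
  have hcont : ContinuousOn (fun z : ℂ => Real.log (nn d P Q z) + K / δ ^ 2 * ‖z - v‖ ^ 2) (Metric.closedBall v δ) := by
    refine ContinuousOn.add (ContinuousOn.log (nn_cont d P Q).continuousOn ?_) (by fun_prop)
    intro z hz
    rw [Metric.mem_closedBall, dist_eq_norm] at hz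
    exact (hpos z hz).ne'
  obtain ⟨y, hy, hmin⟩ := hcomp.exists_isMinOn ⟨v, Metric.mem_closedBall_self hδ0.le⟩ hcont
  have hmin' : ∀ z : ℂ, ‖z - v‖ ≤ δ → Real.log (nn d P Q y) + K / δ ^ 2 * ‖y - v‖ ^ 2 ≤
      Real.log (nn d P Q z) + K / δ ^ 2 * ‖z - v‖ ^ 2 := by
    intro z hz
    exact hmin (by rw [Metric.mem_closedBall, dist_eq_norm]; exact hz)
  rw [Metric.mem_closedBall, dist_eq_norm] at hy
  have hyv : ‖y - v‖ ≤ δ / 2 := by
    have h3 := hmin' v (by rw [sub_self, norm_zero]; exact hδ0.le)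
    rw [sub_self, norm_zero] at h3
    have h4 : Real.log (nn d P Q v) ≤ Real.log N :=
      Real.log_le_log (hpos v (by rw [sub_self, norm_zero]; exact hδ0.le)) (nn_le hP hQ hN v)
    have h5 : Real.log N - K / 4 ≤ Real.log (nn d P Q y) := by
      have h6 := Real.log_le_log (by positivity) (hlow y hy)
      rw [Real.log_mul hN0.ne' (Real.exp_pos _).ne', Real.log_exp] at h6
      linarith
    have h7 : K / δ ^ 2 * ‖y - v‖ ^ 2 ≤ K / 4 := by nlinarith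
    have h8 : ‖y - v‖ ^ 2 ≤ (δ / 2) ^ 2 := by
      rw [div_mul_eq_mul_div, div_le_iff₀ (by positivity)] at h7
      nlinarith
    exact abs_le_of_sq_le_sq' h8 (by positivity) |>.2
  have hynorm : ‖y‖ ≤ 201 / 200 := by
    have := norm_add_le (y - v) v
    rw [sub_add_cancel] at this
    linarith
  refine ⟨y, gg d (K / δ ^ 2) v y, hyv, ?_, ?_, ?_, ?_⟩
  · intro z hz
    have hzy : ‖z - y‖ ≤ 1 / 4 := by
      have := norm_sub_le (z - v) (y - v)
      rw [sub_sub_sub_cancel_right] at this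
      linarith
    have hne := den_ne (by linarith) hzy
    constructor
    · unfold gg
      have h1 : DifferentiableAt ℂ (fun z : ℂ => (1 + conj y * z) ^ d) z := by fun_prop
      refine DifferentiableAt.mul (DifferentiableAt.div (by fun_prop) h1 (pow_ne_zero _ hne)) (by fun_prop)
    · unfold gg
      refine mul_ne_zero (div_ne_zero ?_ (pow_ne_zero _ hne)) (Complex.exp_ne_zero _)
      rw [Complex.ofReal_ne_zero]
      exact (Real.sqrt_pos.2 (by positivity)).ne'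
  · rw [gg_full d _ v y y P Q (den_ne (by linarith) (by rw [sub_self, norm_zero]; norm_num)),
      Pool.Agent.H85.LD.sg_self, sub_self, zero_mul, Complex.zero_re]
    norm_num
  · intro z hz
    have hzy : ‖z - y‖ ≤ 1 / 4 := by
      have := norm_sub_le (z - v) (y - v)
      rw [sub_sub_sub_cancel_right] at this
      linarith
    have hznorm : ‖z‖ ≤ 101 / 100 := by
      have := norm_add_le (z - v) v
      rw [sub_add_cancel] at this
      linarith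
    rw [gg_full d _ v y z P Q (den_ne (by linarith) hzy)]
    have hp := hpos z hz
    have hpy := hpos y hy
    -- the minimum
    have e1 : ‖z - v‖ ^ 2 - ‖y - v‖ ^ 2 = 2 * ((z - y) * conj (y - v)).re + ‖z - y‖ ^ 2 := by
      simp only [Complex.sq_norm, Complex.normSq_apply, Complex.sub_re, Complex.sub_im, Complex.mul_re, Complex.conj_re,
        Complex.conj_im]
      ring
    have h3 : nn d P Q y * Real.exp (-(K / δ ^ 2 * (2 * ((z - y) * conj (y - v)).re + ‖z - y‖ ^ 2))) ≤ nn d P Q z := by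
      have h4 := hmin' z hz
      have h5 : Real.log (nn d P Q y) + -(K / δ ^ 2 * (2 * ((z - y) * conj (y - v)).re + ‖z - y‖ ^ 2)) ≤
          Real.log (nn d P Q z) := by
        rw [← e1]
        linarith
      have h6 := Real.exp_le_exp.2 h5
      rwa [Real.exp_add, Real.exp_log hpy, Real.exp_log hp] at h6
    have hs1 : sg z y ^ 2 < 1 := by
      have h4 := Pool.Agent.H85.LD.one_sub_sg_sq z y
      have h5 : 0 < ‖1 + z * conj y‖ ^ 2 := by
        have h6 := den_ne (y := y) (by linarith) hzy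
        rw [mul_comm] at h6
        positivity
      have h7 : 0 < 1 - sg z y ^ 2 := by
        rw [h4]
        positivity
      linarith
    have hs2 : ‖z - y‖ ^ 2 / 6 ≤ sg z y ^ 2 := by
      rw [Pool.Agent.H85.LD.sg_sq]
      have h4 : (1 + ‖z‖ ^ 2) * (1 + ‖y‖ ^ 2) ≤ 6 := by
        have h5 : ‖z‖ ^ 2 ≤ (101 / 100) ^ 2 := pow_le_pow_left₀ (norm_nonneg _) hznorm 2
        have h6 : ‖y‖ ^ 2 ≤ (201 / 200) ^ 2 := pow_le_pow_left₀ (norm_nonneg _) hynorm 2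
        nlinarith [sq_nonneg ‖z‖, sq_nonneg ‖y‖]
      exact div_le_div_of_nonneg_left (by positivity) (by positivity) h4
    have h4 : Real.exp (d * (‖z - y‖ ^ 2 / 6)) ≤ ((1 - sg z y ^ 2)⁻¹) ^ d := by
      have h5 : Real.exp (‖z - y‖ ^ 2 / 6) ≤ (1 - sg z y ^ 2)⁻¹ := by
        rw [le_inv_comm₀ (Real.exp_pos _) (by linarith), ← Real.exp_neg]
        have h6 := Real.one_sub_le_exp_neg (sg z y ^ 2)
        exact h6.trans (Real.exp_le_exp.2 (by linarith))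
      rw [Real.exp_nat_mul]
      exact pow_le_pow_left₀ (Real.exp_pos _).le h5 d
    rw [hKδ] at h3 ⊢
    calc nn d P Q y * Real.exp (d / 12 * ‖z - y‖ ^ 2)
        = nn d P Q y * Real.exp (-(d / 12 * (2 * ((z - y) * conj (y - v)).re + ‖z - y‖ ^ 2))) *
            Real.exp (d * (‖z - y‖ ^ 2 / 6)) * Real.exp (2 * (d / 12 * ((z - y) * conj (y - v)).re)) := by
          rw [mul_assoc, mul_assoc, ← Real.exp_add, ← Real.exp_add]
          congr 2
          ring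
      _ ≤ nn d P Q z * ((1 - sg z y ^ 2)⁻¹) ^ d * Real.exp (2 * (d / 12 * ((z - y) * conj (y - v)).re)) := by
          gcongr
  · intro z hz
    have hzK : δ / K ≤ δ / 4 := div_le_div_of_nonneg_left hδ0.le (by norm_num) hK4
    have hzy : ‖z - y‖ ≤ 1 / 4 := by linarith
    rw [gg_full d _ v y z P Q (den_ne (by linarith) hzy)]
    have hn0 := nn_nonneg d P Q z
    have hs0 : 0 ≤ sg z y ^ 2 := sq_nonneg _
    have hs1 : sg z y ^ 2 ≤ δ ^ 2 / K ^ 2 := by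
      rw [Pool.Agent.H85.LD.sg_sq]
      have h4 : 1 ≤ (1 + ‖z‖ ^ 2) * (1 + ‖y‖ ^ 2) := by nlinarith [sq_nonneg ‖z‖, sq_nonneg ‖y‖]
      calc ‖z - y‖ ^ 2 / ((1 + ‖z‖ ^ 2) * (1 + ‖y‖ ^ 2)) ≤ ‖z - y‖ ^ 2 / 1 :=
            div_le_div_of_nonneg_left (sq_nonneg _) one_pos h4
        _ = ‖z - y‖ ^ 2 := div_one _
        _ ≤ (δ / K) ^ 2 := pow_le_pow_left₀ (norm_nonneg _) hz 2
        _ = δ ^ 2 / K ^ 2 := by rw [div_pow]
    have hs2 : δ ^ 2 / K ^ 2 ≤ 1 / 2 := by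
      rw [div_le_div_iff₀ (by positivity) (by norm_num)]
      nlinarith
    have h4 : ((1 - sg z y ^ 2)⁻¹) ^ d ≤ Real.exp 6 := by
      have h5 : (1 - sg z y ^ 2)⁻¹ ≤ Real.exp (2 * (δ ^ 2 / K ^ 2)) := by
        rw [inv_le_comm₀ (by linarith) (Real.exp_pos _), ← Real.exp_neg]
        have h6 : Real.exp (-(2 * (δ ^ 2 / K ^ 2))) ≤ 1 - δ ^ 2 / K ^ 2 := by
          have h7 := Real.add_one_le_exp (2 * (δ ^ 2 / K ^ 2))
          rw [Real.exp_neg, inv_le_comm₀ (Real.exp_pos _) (by linarith)]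
          refine le_trans ?_ h7
          rw [inv_le_comm₀ (by linarith) (by positivity), ← one_div, div_le_iff₀ (by positivity)]
          have h8 : 0 ≤ δ ^ 2 / K ^ 2 := by positivity
          nlinarith
        linarith
      have h6 : 2 * (δ ^ 2 / K ^ 2) * d ≤ 6 := by
        have h7 : 2 * (δ ^ 2 / K ^ 2) * d = 24 / K := by
          field_simp
          linarith
        rw [h7, div_le_iff₀ hK]
        linarith
      calc ((1 - sg z y ^ 2)⁻¹) ^ d ≤ Real.exp (2 * (δ ^ 2 / K ^ 2)) ^ d :=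
            pow_le_pow_left₀ (inv_nonneg.2 (by linarith)) h5 d
        _ = Real.exp (2 * (δ ^ 2 / K ^ 2) * d) := by rw [← Real.exp_nat_mul, mul_comm]
        _ ≤ Real.exp 6 := Real.exp_le_exp.2 h6
    have h5 : 2 * (K / δ ^ 2 * ((z - y) * conj (y - v)).re) ≤ 1 := by
      have h6 : ((z - y) * conj (y - v)).re ≤ δ / K * (δ / 2) := by
        refine (Complex.re_le_norm _).trans ?_
        rw [norm_mul, Complex.norm_conj]
        exact mul_le_mul hz hyv (norm_nonneg _) (by positivity)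
      calc 2 * (K / δ ^ 2 * ((z - y) * conj (y - v)).re) ≤ 2 * (K / δ ^ 2 * (δ / K * (δ / 2))) := by gcongr
        _ = 1 := by field_simp
    calc nn d P Q z * ((1 - sg z y ^ 2)⁻¹) ^ d * Real.exp (2 * (K / δ ^ 2 * ((z - y) * conj (y - v)).re))
        ≤ nn d P Q z * Real.exp 6 * Real.exp 1 := by
          have h7 : 0 ≤ ((1 - sg z y ^ 2)⁻¹) ^ d := pow_nonneg (inv_nonneg.2 (by linarith)) _
          have h8 := Real.exp_le_exp.2 h5
          gcongr
      _ = Real.exp 7 * nn d P Q z := by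
          rw [mul_assoc, ← Real.exp_add]
          norm_num
          ring

end Pool.Agent.H73.GP
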