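import Pool.Agent.H73.GP.Def
import Pool.Agent.H85.LD.Rot

/-!
[H73 GP ROT]  Rotation invariance of the Bombieri-Weyl norm.

Proofs.
* `Nd_Gc`: `Pool.Agent.H85.LD.Nd_eq` (`Nd d G = (d+1) ∫ wm d G x ^ 2 ∂mu`) for `Gc d b G` (`Gc_deg`) and for `G`;
  `wm_ph`: `wm d G (ph b t) = wm d (Gc d b G) t` if `1 - conj b * t ≠ 0` (all `t` but one, null set: `mu_null`, compare the
  proof of `mu_disc` in `H85/LD/Rot.lean`), and `ph_mp b : MeasurePreserving (ph b) mu mu` (`MeasurePreserving.integral_comp'`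
  or `integral_map`, `wm_continuous`).
* `Nd_en`: `en_chart : Gc d b (en d b n) = X ^ n`, so `Nd d (en d b n) = Nd d (X ^ n)`, one term.
-/

set_option autoImplicit false

open Polynomial ComplexConjugate

namespace Pool.Agent.H73.GP

open Pool.Agent.H85.LD (Nd wm sg ph Gc en mu)

theorem Nd_Gc (d : ℕ) (b : ℂ) {G : ℂ[X]} (hG : G.natDegree ≤ d) : Nd d (Gc d b G) = Nd d G := by
  have hae : ∀ᵐ t ∂mu, 1 - conj b * t ≠ 0 := by
    rw [MeasureTheory.ae_iff]
    apply Pool.Agent.H85.LD.mu_null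
    apply Set.Subsingleton.measure_zero
    intro x hx y hy
    have hx' : 1 - conj b * x = 0 := by
      by_contra h
      exact hx h
    have hy' : 1 - conj b * y = 0 := by
      by_contra h
      exact hy h
    have hu : conj b ≠ 0 := by
      intro h
      rw [h, zero_mul, sub_zero] at hx'
      exact one_ne_zero hx'
    have h1 : conj b * x = conj b * y := by
      have h2 : conj b * x = 1 := (sub_eq_zero.mp hx').symm
      have h3 : conj b * y = 1 := (sub_eq_zero.mp hy').symm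
      rw [h2, h3]
    exact mul_left_cancel₀ hu h1
  rw [Pool.Agent.H85.LD.Nd_eq d _ (Pool.Agent.H85.LD.Gc_deg d b G),
    Pool.Agent.H85.LD.Nd_eq d G hG]
  congr 1
  have hmp := Pool.Agent.H85.LD.ph_mp b
  have h1 : ∫ x, wm d G x ^ 2 ∂mu = ∫ t, wm d G (ph b t) ^ 2 ∂mu := by
    conv_lhs => rw [← hmp.map_eq]
    refine MeasureTheory.integral_map hmp.measurable.aemeasurable ?_
    exact ((Pool.Agent.H85.LD.wm_continuous d G).pow 2).aestronglyMeasurable
  rw [h1]
  refine MeasureTheory.integral_congr_ae ?_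
  filter_upwards [hae] with t ht
  rw [Pool.Agent.H85.LD.wm_ph d b G hG t ht]
  rfl

theorem Nd_en (d : ℕ) (b : ℂ) {n : ℕ} (hn : n ≤ d) : Nd d (en d b n) = 1 / (d.choose n : ℝ) := by
  rw [← Nd_Gc d b (Pool.Agent.H85.LD.en_deg d b n hn), Pool.Agent.H85.LD.en_chart d b n hn]
  unfold Nd
  rw [Finset.sum_eq_single n]
  · rw [coeff_X_pow_self, norm_one, one_pow]
  · intro k _ hk
    rw [coeff_X_pow, if_neg hk, norm_zero]
    simp
  · intro h
    exact absurd (Finset.mem_range.2 (Nat.lt_succ_of_le hn)) h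

end Pool.Agent.H73.GP
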