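import Pool.Agent.H73.GP.Val
import Pool.Agent.H73.GP.Rot

/-!
[H73 GP VAG]  The value lemma in discs about arbitrary points, away from the point `c`.

Proofs.
* `vag0`: apply `val` with centre `0` to `(Gc d v P, Gc d v Q)` (`Sc` again: `Gc_deg`, `Nd_Gc`): some `t`, `|t| ≤ δ`,
  `|Gc P t - c Gc Q t|^2 ≤ N exp(-K/4) (1+|c|^2)(1+|t|^2)^d`. The set of `t'` with `|t'| < 3δ/2` and
  `|Gc P t' - c Gc Q t'|^2 < 2 N exp(-K/4) (1+|c|^2)(1+|t'|^2)^d` is open and contains `t`, so it contains `t'` with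
  `1 - conj v t' ≠ 0` (this excludes at most one point). `w = ph v t'`: `Gc_add`, `Gc_C_mul`, `wm_ph` for `P - C c * Q`:
  `|P w - c Q w|/√((1+|w|^2)^d) = |Gc P t' - c Gc Q t'|/√((1+|t'|^2)^d)`; `sg_ph_zero`: `sg v w = |t'|/√(1+|t'|^2) ≤ 3δ/2`.
* `vag`: if `sg v c ≥ 3δ` use `v' = v`. Otherwise take `s = 7δ` or `s = -7δ` with `1 - conj v * s ≠ 0` (not both vanish) and
  `v' = ph v s`: `sg v v' = 7δ/√(1+49δ^2)`, between `6δ` and `7δ` (`δ ≤ 1/100`), so `sg v' c ≥ 3δ` (`sg_tri`). Then `vag0` at `v'`: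
  `sg w c ≥ 3δ - 3δ/2 ≥ δ`, `sg v w ≤ 7δ + 3δ/2 ≤ 10δ`.
-/

set_option autoImplicit false

open Polynomial ComplexConjugate

namespace Pool.Agent.H73.GP

open Pool.Agent.H85.LD (Nd wm sg ph Gc en)

private theorem vag_sc {d : ℕ} {K δ N : ℝ} {P Q : ℂ[X]} (h : Sc d K δ N P Q) (v : ℂ) :
    Sc d K δ N (Gc d v P) (Gc d v Q) where
  d2 := h.d2
  K4 := h.K4
  δ0 := h.δ0
  δ1 := h.δ1
  dK := h.dK
  N0 := h.N0
  hP := Pool.Agent.H85.LD.Gc_deg d v P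
  hQ := Pool.Agent.H85.LD.Gc_deg d v Q
  hN := by
    rw [Nd_Gc d v h.hP, Nd_Gc d v h.hQ]
    exact h.hN

theorem vag0 {d : ℕ} {K δ N : ℝ} {P Q : ℂ[X]} (h : Sc d K δ N P Q) (v c : ℂ) :
    ∃ w : ℂ, sg v w ≤ 3 / 2 * δ ∧
      ‖P.eval w - c * Q.eval w‖ ^ 2 ≤ 2 * N * Real.exp (-(K / 4)) * ((1 + ‖c‖ ^ 2) * (1 + ‖w‖ ^ 2) ^ d) := by
  obtain ⟨t, ht1, ht2⟩ := val (vag_sc h v) (v := 0) (by simp) c
  rw [sub_zero] at ht1
  have hN := h.N0
  have hδ := h.δ0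
  have hfin : {t : ℂ | 1 - conj v * t = 0}.Finite := by
    apply Set.Subsingleton.finite
    intro s hs t ht
    have hs' : 1 - conj v * s = 0 := hs
    have ht' : 1 - conj v * t = 0 := ht
    have hb : conj v ≠ 0 := by
      intro h
      rw [h] at hs'
      simp at hs'
    apply mul_left_cancel₀ hb
    linear_combination ht' - hs'
  have hdense : Dense ({t : ℂ | 1 - conj v * t = 0}ᶜ) := hfin.countable.dense_compl ℝ
  have hopen : IsOpen {x : ℂ | ‖x‖ < 3 / 2 * δ ∧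
      ‖(Gc d v P).eval x - c * (Gc d v Q).eval x‖ ^ 2 <
        2 * N * Real.exp (-(K / 4)) * ((1 + ‖c‖ ^ 2) * (1 + ‖x‖ ^ 2) ^ d)} := by
    refine (isOpen_lt continuous_norm continuous_const).inter ?_
    have hc1 : Continuous (fun x : ℂ =>
        ‖(Gc d v P).eval x - c * (Gc d v Q).eval x‖ ^ 2) :=
      (((Gc d v P).continuous.sub (continuous_const.mul (Gc d v Q).continuous)).norm).pow 2
    have hc2 : Continuous (fun x : ℂ =>
        2 * N * Real.exp (-(K / 4)) * ((1 + ‖c‖ ^ 2) * (1 + ‖x‖ ^ 2) ^ d)) := by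
      fun_prop
    exact isOpen_lt hc1 hc2
  have hmem : t ∈ {x : ℂ | ‖x‖ < 3 / 2 * δ ∧
      ‖(Gc d v P).eval x - c * (Gc d v Q).eval x‖ ^ 2 <
        2 * N * Real.exp (-(K / 4)) * ((1 + ‖c‖ ^ 2) * (1 + ‖x‖ ^ 2) ^ d)} := by
    refine ⟨by linarith, lt_of_le_of_lt ht2 ?_⟩
    have : 0 < N * Real.exp (-(K / 4)) * ((1 + ‖c‖ ^ 2) * (1 + ‖t‖ ^ 2) ^ d) := by positivity
    nlinarith
  obtain ⟨x, ⟨hx1, hx2⟩, hx3⟩ := hdense.inter_open_nonempty _ hopen ⟨t, hmem⟩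
  have hx3' : 1 - conj v * x ≠ 0 := hx3
  refine ⟨ph v x, ?_, ?_⟩
  · rw [Pool.Agent.H85.LD.sg_ph_zero v x hx3']
    have h1 : (1 : ℝ) ≤ √(1 + ‖x‖ ^ 2) := by
      rw [Real.one_le_sqrt]
      nlinarith [sq_nonneg ‖x‖]
    exact (div_le_self (norm_nonneg _) h1).trans hx1.le
  · have hG : (P + C (-c) * Q).natDegree ≤ d := by
      refine (natDegree_add_le _ _).trans (max_le h.hP ?_)
      exact (natDegree_C_mul_le _ _).trans h.hQ
    have h1 := Pool.Agent.H85.LD.wm_ph d v (P + C (-c) * Q) hG x hx3'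
    rw [Pool.Agent.H85.LD.Gc_add, Pool.Agent.H85.LD.Gc_C_mul] at h1
    unfold wm at h1
    rw [eval_add, eval_add, eval_mul, eval_mul, eval_C, eval_C, neg_mul, neg_mul, ← sub_eq_add_neg,
      ← sub_eq_add_neg] at h1
    have h2 : ‖P.eval (ph v x) - c * Q.eval (ph v x)‖ ^ 2 =
        ‖(Gc d v P).eval x - c * (Gc d v Q).eval x‖ ^ 2 / (1 + ‖x‖ ^ 2) ^ d *
          (1 + ‖ph v x‖ ^ 2) ^ d := by
      have h3 := congrArg (fun r : ℝ => r ^ 2) h1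
      simp only [div_pow] at h3
      rw [Real.sq_sqrt (by positivity), Real.sq_sqrt (by positivity)] at h3
      rw [← h3]
      field_simp
    rw [h2]
    have h4 : ‖(Gc d v P).eval x - c * (Gc d v Q).eval x‖ ^ 2 / (1 + ‖x‖ ^ 2) ^ d ≤
        2 * N * Real.exp (-(K / 4)) * (1 + ‖c‖ ^ 2) := by
      rw [div_le_iff₀ (by positivity)]
      calc _ ≤ _ := hx2.le
        _ = _ := by ring
    calc _ ≤ 2 * N * Real.exp (-(K / 4)) * (1 + ‖c‖ ^ 2) * (1 + ‖ph v x‖ ^ 2) ^ d :=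
          mul_le_mul_of_nonneg_right h4 (by positivity)
      _ = _ := by ring

theorem vag {d : ℕ} {K δ N : ℝ} {P Q : ℂ[X]} (h : Sc d K δ N P Q) (v c : ℂ) :
    ∃ w : ℂ, sg v w ≤ 10 * δ ∧ δ ≤ sg w c ∧
      ‖P.eval w - c * Q.eval w‖ ^ 2 ≤ 2 * N * Real.exp (-(K / 4)) * ((1 + ‖c‖ ^ 2) * (1 + ‖w‖ ^ 2) ^ d) := by
  have hδ := h.δ0
  have hδ1 := h.δ1
  rcases le_or_gt (3 * δ) (sg v c) with hc | hc
  · obtain ⟨w, hw1, hw2⟩ := vag0 h v c
    refine ⟨w, by linarith, ?_, hw2⟩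
    have h1 := Pool.Agent.H85.LD.sg_tri v w c
    linarith
  · have hs : ∃ s : ℂ, ‖s‖ = 7 * δ ∧ 1 - conj v * s ≠ 0 := by
      by_cases h1 : 1 - conj v * ((7 * δ : ℝ) : ℂ) = 0
      · refine ⟨-((7 * δ : ℝ) : ℂ), ?_, ?_⟩
        · rw [norm_neg, Complex.norm_real, Real.norm_of_nonneg (by positivity)]
        · intro h2
          have h3 : (2 : ℂ) = 0 := by linear_combination h1 + h2
          norm_num at h3
      · exact ⟨_, by rw [Complex.norm_real, Real.norm_of_nonneg (by positivity)], h1⟩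
    obtain ⟨s, hs1, hs2⟩ := hs
    have h1 := Pool.Agent.H85.LD.sg_ph_zero v s hs2
    rw [hs1] at h1
    have hq : 0 < √(1 + (7 * δ) ^ 2) := Real.sqrt_pos.2 (by positivity)
    have h2 : 6 * δ ≤ sg v (ph v s) := by
      rw [h1, le_div_iff₀ hq]
      have h3 : √(1 + (7 * δ) ^ 2) ≤ 7 / 6 := by
        rw [Real.sqrt_le_left (by norm_num)]
        nlinarith
      nlinarith
    have h4 : sg v (ph v s) ≤ 7 * δ := by
      rw [h1]
      refine div_le_self (by positivity) ?_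
      rw [Real.one_le_sqrt]
      nlinarith [sq_nonneg (7 * δ)]
    obtain ⟨w, hw1, hw2⟩ := vag0 h (ph v s) c
    refine ⟨w, ?_, ?_, hw2⟩
    · have h5 := Pool.Agent.H85.LD.sg_tri v (ph v s) w
      linarith
    · have h5 := Pool.Agent.H85.LD.sg_tri v c (ph v s)
      have h6 := Pool.Agent.H85.LD.sg_tri (ph v s) w c
      rw [Pool.Agent.H85.LD.sg_comm c (ph v s)] at h5
      linarith

end Pool.Agent.H73.GP
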