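import Pool.Agent.H73.GP.Pen

/-!
[H73 GP VAL]  Every value is nearly taken in every disc of radius `δ`.

Proof. (i) If `nn d P Q t < N exp(-K/4)` for some `t` with `|t - v| ≤ δ`, take this `t`:
`|P - c Q|^2 ≤ (1+|c|^2)(|P|^2+|Q|^2) = (1+|c|^2)(1+|t|^2)^d nn t`.
(ii) Otherwise `pen` gives `y, g`. Let `h = g (P - c Q)` on the closed ball `B` of radius `δ/2` about `y` (inside `|z - v| ≤ δ`). If
`h` has a zero in `B`, so has `P - c Q` and we are done. Otherwise `1/h` is holomorphic near `B`, and the maximum principle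
(`Complex.exists_mem_frontier_isMaxOn_norm` for `h⁻¹` on the ball, or `Complex.norm_le_of_forall_mem_frontier_norm_le`) gives `t` with
`|t - y| = δ/2`, `|h t| ≤ |h y|`. Now `|h y|^2 ≤ (1+|c|^2) |g y|^2 (|P y|^2+|Q y|^2) = (1+|c|^2) nn y`, and
`|g t|^2 (|P t|^2+|Q t|^2) ≥ nn y exp (d δ^2/48) = nn y exp (K/4)`; divide (`nn y > 0`):
`|P t - c Q t|^2 ≤ (1+|c|^2) exp(-K/4) (|P t|^2+|Q t|^2) ≤ (1+|c|^2) exp(-K/4) N (1+|t|^2)^d` (`nn_le`).
-/

set_option autoImplicit false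

open Polynomial ComplexConjugate

namespace Pool.Agent.H73.GP

open Pool.Agent.H85.LD (Nd wm sg ph Gc en)

theorem val_cs (a b c : ℂ) : ‖a - c * b‖ ^ 2 ≤ (1 + ‖c‖ ^ 2) * (‖a‖ ^ 2 + ‖b‖ ^ 2) := by
  have h1 : ‖a - c * b‖ ≤ ‖a‖ + ‖c‖ * ‖b‖ := by
    refine (norm_sub_le _ _).trans ?_
    rw [norm_mul]
  have h2 : ‖a - c * b‖ ^ 2 ≤ (‖a‖ + ‖c‖ * ‖b‖) ^ 2 := pow_le_pow_left₀ (norm_nonneg _) h1 2
  nlinarith [sq_nonneg (‖b‖ - ‖c‖ * ‖a‖)]

theorem val_nn (d : ℕ) (P Q : ℂ[X]) (t : ℂ) :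
    ‖P.eval t‖ ^ 2 + ‖Q.eval t‖ ^ 2 = nn d P Q t * (1 + ‖t‖ ^ 2) ^ d := by
  unfold nn
  have : (1 + ‖t‖ ^ 2) ^ d ≠ 0 := by positivity
  field_simp

theorem val {d : ℕ} {K δ N : ℝ} {P Q : ℂ[X]} (h : Sc d K δ N P Q) {v : ℂ} (hv : ‖v‖ ≤ 1) (c : ℂ) :
    ∃ t : ℂ, ‖t - v‖ ≤ δ ∧
      ‖P.eval t - c * Q.eval t‖ ^ 2 ≤ N * Real.exp (-(K / 4)) * ((1 + ‖c‖ ^ 2) * (1 + ‖t‖ ^ 2) ^ d) := by
  have hδ := h.δ0
  have hN := h.N0
  by_cases hlow : ∀ z : ℂ, ‖z - v‖ ≤ δ → N * Real.exp (-(K / 4)) ≤ nn d P Q z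
  swap
  · push Not at hlow
    obtain ⟨t, ht, hnt⟩ := hlow
    refine ⟨t, ht, (val_cs _ _ _).trans ?_⟩
    rw [val_nn d P Q t]
    have h1 : nn d P Q t * (1 + ‖t‖ ^ 2) ^ d ≤
        N * Real.exp (-(K / 4)) * (1 + ‖t‖ ^ 2) ^ d :=
      mul_le_mul_of_nonneg_right hnt.le (by positivity)
    calc (1 + ‖c‖ ^ 2) * (nn d P Q t * (1 + ‖t‖ ^ 2) ^ d)
        ≤ (1 + ‖c‖ ^ 2) * (N * Real.exp (-(K / 4)) * (1 + ‖t‖ ^ 2) ^ d) :=
          mul_le_mul_of_nonneg_left h1 (by positivity)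
      _ = _ := by ring
  · obtain ⟨y, g, hy, hg, hgy, hgr, -⟩ := pen h hv hlow
    have hin : ∀ z ∈ Metric.closedBall y (δ / 2), ‖z - v‖ ≤ δ := by
      intro z hz
      rw [Metric.mem_closedBall, dist_eq_norm] at hz
      calc ‖z - v‖ = ‖(z - y) + (y - v)‖ := by congr 1; ring
        _ ≤ ‖z - y‖ + ‖y - v‖ := norm_add_le _ _
        _ ≤ δ := by linarith
    by_cases hz : ∃ t ∈ Metric.closedBall y (δ / 2), P.eval t - c * Q.eval t = 0
    · obtain ⟨t, ht, h0⟩ := hz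
      refine ⟨t, hin t ht, ?_⟩
      rw [h0, norm_zero]
      have : 0 ≤ N * Real.exp (-(K / 4)) * ((1 + ‖c‖ ^ 2) * (1 + ‖t‖ ^ 2) ^ d) := by positivity
      simpa using this
    · push Not at hz
      obtain ⟨f, hf⟩ : ∃ f : ℂ → ℂ, f = fun z => (g z * (P.eval z - c * Q.eval z))⁻¹ := ⟨_, rfl⟩
      have hne : ∀ z ∈ Metric.closedBall y (δ / 2), g z * (P.eval z - c * Q.eval z) ≠ 0 := by
        intro z hz1
        have h1 := hin z hz1
        exact mul_ne_zero (hg z (by linarith)).2 (hz z hz1)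
      have hd : ∀ z ∈ Metric.closedBall y (δ / 2), DifferentiableAt ℂ f z := by
        intro z hz1
        have h1 := hin z hz1
        rw [hf]
        refine DifferentiableAt.inv ?_ (hne z hz1)
        refine (hg z (by linarith)).1.mul ?_
        exact (P.differentiable z).sub ((Q.differentiable z).const_mul c)
      have hr : δ / 2 ≠ 0 := by positivity
      have hdc : DiffContOnCl ℂ f (Metric.ball y (δ / 2)) := by
        refine ⟨fun z hz1 => (hd z (Metric.ball_subset_closedBall hz1)).differentiableWithinAt, ?_⟩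
        rw [closure_ball y hr]
        exact fun z hz1 => (hd z hz1).continuousAt.continuousWithinAt
      obtain ⟨t, ht, hmax⟩ := Complex.exists_mem_frontier_isMaxOn_norm
        (Metric.isBounded_ball (x := y) (r := δ / 2))
        ⟨y, Metric.mem_ball_self (by positivity)⟩ hdc
      rw [frontier_ball y hr, Metric.mem_sphere, dist_eq_norm] at ht
      rw [closure_ball y hr] at hmax
      have htb : t ∈ Metric.closedBall y (δ / 2) := by
        rw [Metric.mem_closedBall, dist_eq_norm, ht]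
      have hyb : y ∈ Metric.closedBall y (δ / 2) := Metric.mem_closedBall_self (by positivity)
      have h1 : ‖f y‖ ≤ ‖f t‖ := hmax hyb
      rw [hf] at h1
      simp only [norm_inv] at h1
      have h2 : ‖g t * (P.eval t - c * Q.eval t)‖ ≤ ‖g y * (P.eval y - c * Q.eval y)‖ :=
        (inv_le_inv₀ (norm_pos_iff.2 (hne y hyb)) (norm_pos_iff.2 (hne t htb))).1 h1
      have h3 := pow_le_pow_left₀ (norm_nonneg _) h2 2
      rw [norm_mul, norm_mul, mul_pow, mul_pow] at h3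
      have h4 : ‖g y‖ ^ 2 * ‖P.eval y - c * Q.eval y‖ ^ 2 ≤ (1 + ‖c‖ ^ 2) * nn d P Q y := by
        rw [← hgy]
        calc ‖g y‖ ^ 2 * ‖P.eval y - c * Q.eval y‖ ^ 2
            ≤ ‖g y‖ ^ 2 * ((1 + ‖c‖ ^ 2) * (‖P.eval y‖ ^ 2 + ‖Q.eval y‖ ^ 2)) :=
              mul_le_mul_of_nonneg_left (val_cs _ _ _) (by positivity)
          _ = _ := by ring
      have h5 := hgr t (hin t htb)
      have h6 : (d : ℝ) / 12 * ‖t - y‖ ^ 2 = K / 4 := by
        rw [ht]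
        have := h.dK
        linear_combination this / 48
      rw [h6] at h5
      have hgt : 0 < ‖g t‖ ^ 2 := by
        have := (hg t (by have := hin t htb; linarith)).2
        positivity
      have h7 : nn d P Q y ≤ Real.exp (-(K / 4)) *
          (‖g t‖ ^ 2 * (‖P.eval t‖ ^ 2 + ‖Q.eval t‖ ^ 2)) := by
        have e1 : Real.exp (-(K / 4)) * Real.exp (K / 4) = 1 := by
          rw [← Real.exp_add, neg_add_cancel, Real.exp_zero]
        calc nn d P Q y = Real.exp (-(K / 4)) * (nn d P Q y * Real.exp (K / 4)) := by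
              rw [mul_comm (nn d P Q y), ← mul_assoc, e1, one_mul]
          _ ≤ _ := mul_le_mul_of_nonneg_left h5 (Real.exp_pos _).le
      have h8 : ‖g t‖ ^ 2 * ‖P.eval t - c * Q.eval t‖ ^ 2 ≤ ‖g t‖ ^ 2 *
          (Real.exp (-(K / 4)) * ((1 + ‖c‖ ^ 2) * (‖P.eval t‖ ^ 2 + ‖Q.eval t‖ ^ 2))) := by
        calc ‖g t‖ ^ 2 * ‖P.eval t - c * Q.eval t‖ ^ 2 ≤ (1 + ‖c‖ ^ 2) * nn d P Q y := h3.trans h4
          _ ≤ (1 + ‖c‖ ^ 2) * (Real.exp (-(K / 4)) *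
              (‖g t‖ ^ 2 * (‖P.eval t‖ ^ 2 + ‖Q.eval t‖ ^ 2))) :=
              mul_le_mul_of_nonneg_left h7 (by positivity)
          _ = _ := by ring
      have h9 := le_of_mul_le_mul_left h8 hgt
      refine ⟨t, hin t htb, h9.trans ?_⟩
      have h10 : ‖P.eval t‖ ^ 2 + ‖Q.eval t‖ ^ 2 ≤ N * (1 + ‖t‖ ^ 2) ^ d := by
        rw [val_nn d P Q t]
        exact mul_le_mul_of_nonneg_right (nn_le h.hP h.hQ h.hN t) (by positivity)
      calc Real.exp (-(K / 4)) * ((1 + ‖c‖ ^ 2) * (‖P.eval t‖ ^ 2 + ‖Q.eval t‖ ^ 2))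
          ≤ Real.exp (-(K / 4)) * ((1 + ‖c‖ ^ 2) * (N * (1 + ‖t‖ ^ 2) ^ d)) := by
            refine mul_le_mul_of_nonneg_left (mul_le_mul_of_nonneg_left h10 (by positivity))
              (Real.exp_pos _).le
        _ = _ := by ring

end Pool.Agent.H73.GP
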